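import Pool.Agent.P.MP_56563a_an.D1.Defs

/-!
Germs of analytic functions, arcs, orders of vanishing, charts and the basic rules for `Hol`.
-/

set_option autoImplicit false
set_option linter.unusedSectionVars false

namespace Pool.Agent.P.MP_56563a_an.D1

open Filter Topology Set

section An

variable {E : Type} [NormedAddCommGroup E] [NormedSpace ℂ E]

/-- The ring of functions analytic at the origin. -/
def An (E : Type) [NormedAddCommGroup E] [NormedSpace ℂ E] : Subring (E → ℂ) where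
  carrier := {F | AnalyticAt ℂ F 0}
  zero_mem' := analyticAt_const
  one_mem' := analyticAt_const
  add_mem' := AnalyticAt.add
  mul_mem' := AnalyticAt.mul
  neg_mem' := AnalyticAt.neg

theorem mem_An {F : E → ℂ} : F ∈ An E ↔ AnalyticAt ℂ F 0 := Iff.rfl

theorem An.an (F : An E) : AnalyticAt ℂ F.1 0 := F.2

/-- Evaluation at a point. -/
def ev (p : E) : An E →+* ℂ := (Pi.evalRingHom (fun _ => ℂ) p).comp (An E).subtype

@[simp] theorem ev_apply (p : E) (F : An E) : ev p F = F.1 p := rfl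

/-- Pull-back along `w`, as a germ. -/
def cw {X : Type} (l : Filter X) (w : X → E) : An E →+* Germ l ℂ :=
  (Germ.coeRingHom l).comp (RingHom.pi fun x => ev (w x))

theorem cw_apply {X : Type} (l : Filter X) (w : X → E) (F : An E) :
    cw l w F = ((fun x => F.1 (w x) : X → ℂ) : Germ l ℂ) := rfl

/-- Composition with an analytic map fixing the origin. -/
def pull {E' : Type} [NormedAddCommGroup E'] [NormedSpace ℂ E'] (φ : E' → E)
    (h : AnalyticAt ℂ φ 0) (h0 : φ 0 = 0) : An E →+* An E' :=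
  RingHom.codRestrict (RingHom.pi fun x => ev (φ x)) (An E') fun F => F.2.comp_of_eq h h0

@[simp] theorem pull_apply {E' : Type} [NormedAddCommGroup E'] [NormedSpace ℂ E'] (φ : E' → E)
    (h : AnalyticAt ℂ φ 0) (h0 : φ 0 = 0) (F : An E) (x : E') :
    (pull φ h h0 F).1 x = F.1 (φ x) := rfl

theorem ev_comp_pull {E' : Type} [NormedAddCommGroup E'] [NormedSpace ℂ E'] (φ : E' → E)
    (h : AnalyticAt ℂ φ 0) (h0 : φ 0 = 0) (x : E') : (ev x).comp (pull φ h h0) = ev (φ x) := rfl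

/-- A polynomial with analytic coefficients is analytic in both variables. -/
theorem analyticAt_eval (P : Polynomial (An E)) (c : ℂ) :
    AnalyticAt ℂ (fun p : ℂ × E => (P.map (ev p.2)).eval p.1) (c, 0) := by
  induction P using Polynomial.induction_on' with
  | add p q hp hq => simpa [Polynomial.map_add] using hp.fun_add hq
  | monomial n a =>
    simp only [Polynomial.map_monomial, Polynomial.eval_monomial, ev_apply]
    exact (a.2.comp_of_eq analyticAt_snd rfl).fun_mul (analyticAt_fst.fun_pow n)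

/-- The germ of the values of a polynomial with analytic coefficients. -/
theorem eval₂_cw {X : Type} (l : Filter X) (w : X → E) (f : X → ℂ) (P : Polynomial (An E)) :
    P.eval₂ (cw l w) (f : Germ l ℂ) =
      ((fun x => (P.map (ev (w x))).eval (f x) : X → ℂ) : Germ l ℂ) := by
  induction P using Polynomial.induction_on' with
  | add p q hp hq =>
    rw [Polynomial.eval₂_add, hp, hq]
    simp only [Polynomial.map_add, Polynomial.eval_add]
    rfl
  | monomial n a =>
    simp only [Polynomial.eval₂_monomial, Polynomial.map_monomial, Polynomial.eval_monomial]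
    rfl

end An

/-- Transitivity of integrality for ring maps. -/
theorem integral_trans {A A' B : Type} [CommRing A] [CommRing A'] [CommRing B] (φ : A →+* B)
    (φ' : A' →+* B) (h : ∀ a, φ'.IsIntegralElem (φ a)) {r : B} (hr : φ.IsIntegralElem r) :
    φ'.IsIntegralElem r := by
  let := φ'.toAlgebra
  obtain ⟨p, hp, e⟩ := hr
  let ψ : A →+* integralClosure A' B := φ.codRestrict (integralClosure A' B) h
  have h1 : IsIntegral (integralClosure A' B) r := ⟨p.map ψ, hp.map ψ, by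
    rw [Polynomial.eval₂_map]; exact e⟩
  exact isIntegral_trans r h1

theorem an_dslope {g : ℂ → ℂ} {c : ℂ} (h : AnalyticAt ℂ g c) : AnalyticAt ℂ (dslope g c) c := by
  obtain ⟨p, hp⟩ := h
  exact ⟨_, hp.has_fpower_series_dslope_fslope⟩

theorem an_coord {n : ℕ} (i : Fin n) (p : Fin n → ℂ) :
    AnalyticAt ℂ (fun z : Fin n → ℂ => z i) p :=
  (ContinuousLinearMap.proj (R := ℂ) (φ := fun _ : Fin n => ℂ) i).analyticAt p

/-- `g` vanishes to order `k` at the origin. -/
def VanAt (k : ℕ) (g : ℂ → ℂ) : Prop :=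
  ∃ β : ℂ → ℂ, AnalyticAt ℂ β 0 ∧ ∀ᶠ s in 𝓝 (0 : ℂ), g s = s ^ k * β s

namespace VanAt

variable {k : ℕ} {f g : ℂ → ℂ}

theorem an (h : VanAt k g) : AnalyticAt ℂ g 0 := by
  obtain ⟨β, h1, h2⟩ := h
  exact ((analyticAt_id.fun_pow k).fun_mul h1).congr (EventuallyEq.symm h2)

theorem congr (h : VanAt k f) (e : ∀ᶠ s in 𝓝 (0 : ℂ), f s = g s) : VanAt k g := by
  obtain ⟨β, h1, h2⟩ := h
  exact ⟨β, h1, by filter_upwards [h2, e] with s a b using b ▸ a⟩

theorem zero (k : ℕ) : VanAt k fun _ => 0 := ⟨fun _ => 0, analyticAt_const, by simp⟩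

theorem of_an (h : AnalyticAt ℂ g 0) : VanAt 0 g := ⟨g, h, by simp⟩

theorem mono {k' : ℕ} (h : VanAt k g) (hk : k' ≤ k) : VanAt k' g := by
  obtain ⟨β, h1, h2⟩ := h
  obtain ⟨d, rfl⟩ := Nat.exists_eq_add_of_le hk
  exact ⟨fun s => s ^ d * β s, (analyticAt_id.fun_pow d).fun_mul h1,
    h2.mono fun s hs => by rw [hs]; ring⟩

theorem add (hf : VanAt k f) (hg : VanAt k g) : VanAt k fun s => f s + g s := by
  obtain ⟨α, a1, a2⟩ := hf
  obtain ⟨β, h1, h2⟩ := hg
  exact ⟨fun s => α s + β s, a1.fun_add h1, by filter_upwards [a2, h2] with s a b; rw [a, b]; ring⟩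

theorem mul {k' : ℕ} (hf : VanAt k f) (hg : VanAt k' g) : VanAt (k + k') fun s => f s * g s := by
  obtain ⟨α, a1, a2⟩ := hf
  obtain ⟨β, h1, h2⟩ := hg
  exact ⟨fun s => α s * β s, a1.fun_mul h1, by filter_upwards [a2, h2] with s a b; rw [a, b]; ring⟩

theorem mul_an (hf : VanAt k f) (hg : AnalyticAt ℂ g 0) : VanAt k fun s => f s * g s :=
  hf.mul (of_an hg)

theorem an_mul (hf : AnalyticAt ℂ f 0) (hg : VanAt k g) : VanAt k fun s => f s * g s :=
  (hg.mul_an hf).congr (.of_forall fun _ => mul_comm _ _)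

theorem neg (hf : VanAt k f) : VanAt k fun s => -f s :=
  (hf.mul_an (analyticAt_const (v := -1))).congr (.of_forall fun _ => by ring)

theorem sub (hf : VanAt k f) (hg : VanAt k g) : VanAt k fun s => f s - g s :=
  (hf.add hg.neg).congr (.of_forall fun _ => by ring)

theorem sum {ι : Type} (T : Finset ι) {f : ι → ℂ → ℂ} (h : ∀ i ∈ T, VanAt k (f i)) :
    VanAt k fun s => ∑ i ∈ T, f i s := by
  classical
  induction T using Finset.induction_on with
  | empty => simpa using zero k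
  | insert a T ha ih =>
    simp only [Finset.sum_insert ha]
    exact (h a (by simp)).add (ih fun i hi => h i (by simp [hi]))

theorem one (h : AnalyticAt ℂ g 0) (h0 : g 0 = 0) : VanAt 1 g := by
  refine ⟨dslope g 0, an_dslope h, .of_forall fun s => ?_⟩
  have := sub_smul_dslope g 0 s
  simpa [h0] using this.symm

theorem pow (h : AnalyticAt ℂ g 0) (h0 : g 0 = 0) (k : ℕ) : VanAt k fun s => g s ^ k := by
  induction k with
  | zero => exact of_an (h.fun_pow 0)
  | succ k ih => exact (ih.mul (one h h0)).congr (.of_forall fun _ => by ring)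

theorem at_zero (h : VanAt k g) (hk : 1 ≤ k) : g 0 = 0 := by
  obtain ⟨β, -, h2⟩ := h
  rw [h2.self_of_nhds, zero_pow (by omega), zero_mul]

theorem iff_deriv (h : AnalyticAt ℂ g 0) : VanAt k g ↔ ∀ i < k, iteratedDeriv i g 0 = 0 := by
  rw [← natCast_le_analyticOrderAt_iff_iteratedDeriv_eq_zero h, natCast_le_analyticOrderAt h]
  simp [VanAt]

end VanAt

namespace CSpace

variable {X : Type} [TopologicalSpace X] (S : CSpace X)

/-- `z` is a chart on `U`. -/
structure IsChart {n : ℕ} (U : Set X) (z : X → Fin n → ℂ) : Prop where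
  isOpen : IsOpen U
  emb : IsEmbedding fun u : U => z u
  eqs : ∀ y ∈ U, ∃ (m : ℕ) (g : Fin m → (Fin n → ℂ) → ℂ), (∀ j, AnalyticAt ℂ (g j) (z y)) ∧
    ∀ᶠ w in 𝓝 (z y), (w ∈ z '' U ↔ ∀ j, g j w = 0)
  hol : ∀ y ∈ U, ∀ f : X → ℂ,
    S.Hol f y ↔ ∃ F : (Fin n → ℂ) → ℂ, AnalyticAt ℂ F (z y) ∧ f =ᶠ[𝓝 y] F ∘ z

theorem exists_chart (x : X) :
    ∃ (n : ℕ) (U : Set X) (z : X → Fin n → ℂ), x ∈ U ∧ S.IsChart U z := by
  obtain ⟨n, U, z, h1, h2, h3, h4, h5⟩ := S.chart x
  exact ⟨n, U, z, h2, h1, h3, h4, h5⟩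

variable {S}

theorem IsChart.continuousAt {n : ℕ} {U : Set X} {z : X → Fin n → ℂ} (h : S.IsChart U z) {y : X}
    (hy : y ∈ U) : ContinuousAt z y :=
  (continuousOn_iff_continuous_domRestrict.2 h.emb.continuous).continuousAt (h.isOpen.mem_nhds hy)

theorem IsChart.injOn {n : ℕ} {U : Set X} {z : X → Fin n → ℂ} (h : S.IsChart U z) : InjOn z U :=
  fun a ha b hb e => congrArg Subtype.val (h.emb.injective (a₁ := ⟨a, ha⟩) (a₂ := ⟨b, hb⟩) e)

theorem IsChart.hol_comp {n : ℕ} {U : Set X} {z : X → Fin n → ℂ} (h : S.IsChart U z) {y : X}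
    (hy : y ∈ U) {F : (Fin n → ℂ) → ℂ} (hF : AnalyticAt ℂ F (z y)) : S.Hol (fun u => F (z u)) y :=
  (h.hol y hy _).2 ⟨F, hF, EventuallyEq.rfl⟩

variable {f g : X → ℂ} {x : X}

theorem hol_congr (hf : S.Hol f x) (e : ∀ᶠ y in 𝓝 x, f y = g y) : S.Hol g x := by
  obtain ⟨n, U, z, hx, h⟩ := S.exists_chart x
  obtain ⟨F, hF, e'⟩ := (h.hol x hx f).1 hf
  exact (h.hol x hx g).2 ⟨F, hF, (EventuallyEq.symm e).trans e'⟩

theorem hol_cont (hf : S.Hol f x) : ContinuousAt f x := by
  obtain ⟨n, U, z, hx, h⟩ := S.exists_chart x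
  obtain ⟨F, hF, e⟩ := (h.hol x hx f).1 hf
  exact (hF.continuousAt.comp (h.continuousAt hx)).congr e.symm

theorem hol_eventually (hf : S.Hol f x) : ∀ᶠ y in 𝓝 x, S.Hol f y := by
  obtain ⟨n, U, z, hx, h⟩ := S.exists_chart x
  obtain ⟨F, hF, e⟩ := (h.hol x hx f).1 hf
  filter_upwards [h.isOpen.mem_nhds hx, (h.continuousAt hx).eventually hF.eventually_analyticAt,
    e.eventuallyEq_nhds] with y h1 h2 h3
  exact (h.hol y h1 f).2 ⟨F, h2, h3⟩

theorem hol_comp (hf : S.Hol f x) {Φ : ℂ → ℂ} (hΦ : AnalyticAt ℂ Φ (f x)) :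
    S.Hol (fun y => Φ (f y)) x :=
  S.hol_two hf hf (Φ := fun p => Φ p.1) (hΦ.comp_of_eq analyticAt_fst rfl)

theorem hol_add (hf : S.Hol f x) (hg : S.Hol g x) : S.Hol (fun y => f y + g y) x :=
  S.hol_two hf hg (analyticAt_fst.add analyticAt_snd)

theorem hol_sub (hf : S.Hol f x) (hg : S.Hol g x) : S.Hol (fun y => f y - g y) x :=
  S.hol_two hf hg (analyticAt_fst.sub analyticAt_snd)

theorem hol_mul (hf : S.Hol f x) (hg : S.Hol g x) : S.Hol (fun y => f y * g y) x :=
  S.hol_two hf hg (analyticAt_fst.mul analyticAt_snd)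

theorem hol_div (hf : S.Hol f x) (hg : S.Hol g x) (h0 : g x ≠ 0) :
    S.Hol (fun y => f y / g y) x :=
  S.hol_two hf hg (analyticAt_fst.div analyticAt_snd h0)

theorem hol_neg (hf : S.Hol f x) : S.Hol (fun y => -f y) x := hol_comp hf analyticAt_id.neg

theorem hol_pow (hf : S.Hol f x) (k : ℕ) : S.Hol (fun y => f y ^ k) x :=
  hol_comp hf (Φ := fun w => w ^ k) (analyticAt_id.fun_pow k)

theorem hol_sum {ι : Type} (T : Finset ι) {f : ι → X → ℂ} (h : ∀ i ∈ T, S.Hol (f i) x) :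
    S.Hol (fun y => ∑ i ∈ T, f i y) x := by
  classical
  induction T using Finset.induction_on with
  | empty => simpa using S.hol_const 0 x
  | insert a T ha ih =>
    simp only [Finset.sum_insert ha]
    exact hol_add (h a (by simp)) (ih fun i hi => h i (by simp [hi]))

theorem hol_prod {ι : Type} (T : Finset ι) {f : ι → X → ℂ} (h : ∀ i ∈ T, S.Hol (f i) x) :
    S.Hol (fun y => ∏ i ∈ T, f i y) x := by
  classical
  induction T using Finset.induction_on with
  | empty => simpa using S.hol_const 1 x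
  | insert a T ha ih =>
    simp only [Finset.prod_insert ha]
    exact hol_mul (h a (by simp)) (ih fun i hi => h i (by simp [hi]))

theorem Holo.continuous (hf : S.Holo f) : Continuous f :=
  continuous_iff_continuousAt.2 fun x => hol_cont (hf x)

theorem mem_stalk {γ : Germ (𝓝 x) ℂ} :
    γ ∈ S.stalk x ↔ ∃ f : X → ℂ, S.Hol f x ∧ (f : Germ (𝓝 x) ℂ) = γ := Iff.rfl

variable (S)

/-- A holomorphic arc through `x`. -/
def IsArc (γ : ℂ → X) (x : X) : Prop :=
  γ 0 = x ∧ ∀ᶠ s in 𝓝 (0 : ℂ), ContinuousAt γ s ∧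
    ∀ f : X → ℂ, S.Hol f (γ s) → AnalyticAt ℂ (fun s => f (γ s)) s

/-- `g` vanishes to order `k` along every arc through `x`. -/
def Van (k : ℕ) (g : X → ℂ) (x : X) : Prop := ∀ γ, S.IsArc γ x → VanAt k fun s => g (γ s)

/-- A finite system of arcs parametrising a neighbourhood of `x`. -/
structure ArcSys (x : X) {m : ℕ} (e : ℕ) (γ : Fin m → ℂ → X) (t w : X → ℂ) : Prop where
  pos : 1 ≤ e
  ht : S.Hol t x
  t0 : t x = 0
  hw : S.Hol w x
  arc : ∀ j, S.IsArc (γ j) x
  par : ∀ j, ∀ᶠ s in 𝓝 (0 : ℂ), t (γ j s) = s ^ e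
  sep : ∀ i j, i ≠ j → ¬ ∀ᶠ s in 𝓝 (0 : ℂ), w (γ i s) = w (γ j s)
  cov : ∀ᶠ q in 𝓝 (x, (0 : ℂ)), t q.1 = q.2 ^ e → q.1 = x ∨ ∃ j, q.1 = γ j q.2

variable {S}

theorem IsArc.tendsto {γ : ℂ → X} (h : S.IsArc γ x) : Tendsto γ (𝓝 0) (𝓝 x) :=
  h.1 ▸ h.2.self_of_nhds.1

theorem IsArc.an {γ : ℂ → X} (h : S.IsArc γ x) (hf : S.Hol f x) :
    AnalyticAt ℂ (fun s => f (γ s)) 0 := h.2.self_of_nhds.2 f (h.1 ▸ hf)

end CSpace

/-- The union of three lines through the origin. -/
abbrev Y : Type := {z : Fin 2 → ℂ // z 0 * z 1 * (z 0 - z 1) = 0}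

/-- The reduced complex structure on the three lines. -/
def SY : CSpace Y where
  Hol f y := ∃ F : (Fin 2 → ℂ) → ℂ, AnalyticAt ℂ F y.1 ∧ f =ᶠ[𝓝 y] F ∘ Subtype.val
  chart x := ⟨2, univ, Subtype.val, isOpen_univ, mem_univ x,
    IsEmbedding.subtypeVal.comp IsEmbedding.subtypeVal, fun y _ =>
      ⟨1, fun _ z => z 0 * z 1 * (z 0 - z 1), fun _ => ((an_coord 0 _).fun_mul
        (an_coord 1 _)).fun_mul ((an_coord 0 _).fun_sub (an_coord 1 _)),
        .of_forall fun w => by simp⟩,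
    fun _ _ _ => Iff.rfl⟩

/-- The difference quotient in the first variable. -/
noncomputable def Dq {P : Type} (g : ℂ × P → ℂ) (p : ℂ × P) : ℂ :=
  dslope (fun ζ => g (ζ, p.2)) 0 p.1

end Pool.Agent.P.MP_56563a_an.D1
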