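import Mathlib

/-!
Reduced complex spaces, Stein spaces, dimension and the elementary symplectic matrices.
-/

set_option autoImplicit false

namespace Pool.Agent.P.MP_56563a_an.D1

open Filter Topology Matrix

/-- A reduced complex space structure on `X`. `Hol f y` says that the function `f` is holomorphic
at the point `y`. Every point has an open neighbourhood `V` with a homeomorphism `z` of `V` onto
a (locally closed) analytic subset of some `ℂⁿ`, such that the functions holomorphic at `y ∈ V`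
are those which near `y` are the pull-back of a function analytic at `z y`. -/
structure CSpace (X : Type) [TopologicalSpace X] where
  /-- holomorphy of a function at a point -/
  Hol : (X → ℂ) → X → Prop
  chart : ∀ x : X, ∃ (n : ℕ) (V : Set X) (z : X → Fin n → ℂ), IsOpen V ∧ x ∈ V ∧
    IsEmbedding (fun u : V => z u) ∧
    (∀ y ∈ V, ∃ (m : ℕ) (g : Fin m → (Fin n → ℂ) → ℂ), (∀ j, AnalyticAt ℂ (g j) (z y)) ∧
      ∀ᶠ w in 𝓝 (z y), (w ∈ z '' V ↔ ∀ j, g j w = 0)) ∧
    ∀ y ∈ V, ∀ f : X → ℂ, Hol f y ↔ ∃ F : (Fin n → ℂ) → ℂ, AnalyticAt ℂ F (z y) ∧ f =ᶠ[𝓝 y] F ∘ z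

namespace CSpace

variable {X : Type} [TopologicalSpace X] (S : CSpace X)

theorem hol_two {f g : X → ℂ} {x : X} (hf : S.Hol f x) (hg : S.Hol g x) {Φ : ℂ × ℂ → ℂ}
    (hΦ : AnalyticAt ℂ Φ (f x, g x)) : S.Hol (fun y => Φ (f y, g y)) x := by
  obtain ⟨n, V, z, -, hx, -, -, h⟩ := S.chart x
  obtain ⟨F, hF, e⟩ := (h x hx f).1 hf
  obtain ⟨G, hG, e'⟩ := (h x hx g).1 hg
  refine (h x hx _).2 ⟨fun w => Φ (F w, G w), ?_, ?_⟩
  · exact hΦ.comp_of_eq (hF.prod hG) (Prod.ext e.eq_of_nhds.symm e'.eq_of_nhds.symm)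
  · filter_upwards [e, e'] with y h1 h2
    rw [h1, h2]
    rfl

theorem hol_const (c : ℂ) (x : X) : S.Hol (fun _ => c) x := by
  obtain ⟨n, V, z, -, hx, -, -, h⟩ := S.chart x
  exact (h x hx _).2 ⟨fun _ => c, analyticAt_const, EventuallyEq.rfl⟩

/-- The local ring of `X` at `x`: the germs at `x` of functions holomorphic at `x`. -/
def stalk (x : X) : Subring (Germ (𝓝 x) ℂ) where
  carrier := {γ | ∃ f : X → ℂ, S.Hol f x ∧ (f : Germ (𝓝 x) ℂ) = γ}
  zero_mem' := ⟨fun _ => 0, S.hol_const 0 x, rfl⟩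
  one_mem' := ⟨fun _ => 1, S.hol_const 1 x, rfl⟩
  add_mem' := by
    rintro _ _ ⟨f, hf, rfl⟩ ⟨g, hg, rfl⟩
    exact ⟨_, S.hol_two hf hg (analyticAt_fst.add analyticAt_snd), rfl⟩
  mul_mem' := by
    rintro _ _ ⟨f, hf, rfl⟩ ⟨g, hg, rfl⟩
    exact ⟨_, S.hol_two hf hg (analyticAt_fst.mul analyticAt_snd), rfl⟩
  neg_mem' := by
    rintro _ ⟨f, hf, rfl⟩
    exact ⟨_, S.hol_two hf hf analyticAt_fst.neg, rfl⟩

/-- The dimension of `X`: the supremum of the Krull dimensions of its local rings. -/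
noncomputable def dim : WithBot ℕ∞ := ⨆ x : X, ringKrullDim (S.stalk x)

/-- `f` is holomorphic on `X`. -/
def Holo (f : X → ℂ) : Prop := ∀ x, S.Hol f x

/-- The holomorphically convex hull of `K`. -/
def hull (K : Set X) : Set X :=
  {x | ∀ f, S.Holo f → ∀ r : ℝ, (∀ y ∈ K, ‖f y‖ ≤ r) → ‖f x‖ ≤ r}

/-- `X` is Stein: holomorphically separable and holomorphically convex. -/
def IsStein : Prop :=
  (∀ x y : X, x ≠ y → ∃ f, S.Holo f ∧ f x ≠ f y) ∧ ∀ K, IsCompact K → IsCompact (S.hull K)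

end CSpace

/-- The symmetric matrix `U(x)` with entries `x₁, x₂, x₃`. -/
def U {R : Type} (x : Fin 3 → R) : Matrix (Fin 2) (Fin 2) R := !![x 0, x 1; x 1, x 2]

/-- The elementary symplectic matrix `M_k(x)`: lower type for odd `k`, upper type for even `k`. -/
def M {R : Type} [CommRing R] (k : ℕ) (x : Fin 3 → R) :
    Matrix (Fin 2 ⊕ Fin 2) (Fin 2 ⊕ Fin 2) R :=
  if k % 2 = 1 then fromBlocks 1 0 (U x) 1 else fromBlocks 1 (U x) 0 1

/-- `N` factors suffice in dimension `d`: on every Stein space of dimension `d` every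
null-homotopic holomorphic map to `Sp₄(ℂ)` is a product `M₁(G₁) ⋯ M_N(G_N)`, `G_k` holomorphic. -/
def Suffices (d N : ℕ) : Prop :=
  ∀ (X : Type) [TopologicalSpace X] [T2Space X] [SecondCountableTopology X] (S : CSpace X),
    S.IsStein → S.dim = d →
    ∀ f : C(X, symplecticGroup (Fin 2) ℂ), (∀ i j, S.Holo fun x => (f x).1 i j) →
      f.Nullhomotopic → ∃ G : Fin N → X → Fin 3 → ℂ, (∀ k i, S.Holo fun x => G k x i) ∧
        ∀ x, (f x).1 = (List.ofFn fun k : Fin N => M (k.1 + 1) (G k x)).prod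

end Pool.Agent.P.MP_56563a_an.D1
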