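import Pool.Agent.P.MP_56563a_an.D1.Base

/-! Statements of the steps. -/

set_option autoImplicit false

namespace Pool.Agent.P.MP_56563a_an.D1

open Filter Topology Set Polynomial

-- deps:
-- imports: Pool.Agent.P.MP_56563a_an.D1.SCV
def S_DIV : Prop := ∀ (P : Type) [NormedAddCommGroup P] [NormedSpace ℂ P] (r ρ C : ℝ)
  (g : ℂ × P → ℂ), 0 < r → DifferentiableOn ℂ g (Metric.ball 0 r ×ˢ Metric.ball 0 ρ) →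
  (∀ p ∈ Metric.ball (0 : ℂ) r ×ˢ Metric.ball (0 : P) ρ, ‖g p‖ ≤ C) →
  DifferentiableOn ℂ (Dq g) (Metric.ball 0 r ×ˢ Metric.ball 0 ρ) ∧
    ∀ p ∈ Metric.ball (0 : ℂ) r ×ˢ Metric.ball (0 : P) ρ, ‖Dq g p‖ ≤ 2 / r * C

-- deps: DIV
-- imports: Pool.Agent.P.MP_56563a_an.D1.SCV
def S_WD0 : Prop := ∀ (P : Type) [NormedAddCommGroup P] [NormedSpace ℂ P] (r ρ C : ℝ) (k : ℕ)
  (g h : ℂ × P → ℂ), 0 < r → 0 < ρ → DifferentiableOn ℂ g (Metric.ball 0 r ×ˢ Metric.ball 0 ρ) →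
  (∀ p ∈ Metric.ball (0 : ℂ) r ×ˢ Metric.ball (0 : P) ρ, ‖g p‖ ≤ C) →
  DifferentiableOn ℂ h (Metric.ball 0 r ×ˢ Metric.ball 0 ρ) →
  (∀ p ∈ Metric.ball (0 : ℂ) r ×ˢ Metric.ball (0 : P) ρ, ‖h p‖ ≤ (r / 2) ^ k / 2) →
  ∃ (q : ℂ × P → ℂ) (a : ℕ → P → ℂ), AnalyticAt ℂ q 0 ∧ (∀ j, AnalyticAt ℂ (a j) 0) ∧
    ∀ᶠ p in 𝓝 (0 : ℂ × P), g p = q p * (p.1 ^ k + h p) + ∑ j ∈ Finset.range k, a j p.2 * p.1 ^ j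

-- deps:
-- imports: Pool.Agent.P.MP_56563a_an.D1.SCV
def S_NF : Prop := ∀ (P : Type) [NormedAddCommGroup P] [NormedSpace ℂ P] (k : ℕ)
  (f : ℂ × P → ℂ) (u : ℂ → ℂ), AnalyticAt ℂ f 0 → AnalyticAt ℂ u 0 →
  (∀ᶠ ζ in 𝓝 (0 : ℂ), f (ζ, 0) = ζ ^ k * u ζ) →
  ∃ (v : ℂ × P → ℂ) (c : ℕ → P → ℂ), AnalyticAt ℂ v 0 ∧ v 0 = u 0 ∧
    (∀ j, AnalyticAt ℂ (c j) 0 ∧ c j 0 = 0) ∧
    ∀ᶠ p in 𝓝 (0 : ℂ × P), f p = p.1 ^ k * v p + ∑ j ∈ Finset.range k, c j p.2 * p.1 ^ j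

-- deps: WD0 NF
def S_WD : Prop := ∀ (P : Type) [NormedAddCommGroup P] [NormedSpace ℂ P] (k : ℕ)
  (f g : ℂ × P → ℂ) (u : ℂ → ℂ), AnalyticAt ℂ f 0 → AnalyticAt ℂ g 0 → AnalyticAt ℂ u 0 →
  u 0 ≠ 0 → (∀ᶠ ζ in 𝓝 (0 : ℂ), f (ζ, 0) = ζ ^ k * u ζ) →
  ∃ (q : ℂ × P → ℂ) (a : ℕ → P → ℂ), AnalyticAt ℂ q 0 ∧ (∀ j, AnalyticAt ℂ (a j) 0) ∧
    ∀ᶠ p in 𝓝 (0 : ℂ × P), g p = q p * f p + ∑ j ∈ Finset.range k, a j p.2 * p.1 ^ j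

-- deps: WD
def S_INT : Prop := ∀ (P : Type) [NormedAddCommGroup P] [NormedSpace ℂ P] (X : Type)
  (l : Filter X) (w : X → ℂ × P) (f : ℂ × P → ℂ), Tendsto w l (𝓝 0) → AnalyticAt ℂ f 0 →
  (¬ ∀ᶠ ζ in 𝓝 (0 : ℂ), f (ζ, 0) = 0) → (∀ᶠ x in l, f (w x) = 0) →
  ∀ G : An (ℂ × P), (cw l fun x => (w x).2).IsIntegralElem (cw l w G)

-- deps:
def S_CHAIN : Prop := ∀ (n : ℕ) (X : Type) (l : Filter X) (R : Subring (Germ l ℂ))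
  (w : X → Fin (n + 2) → ℂ), (∀ F, cw l w F ∈ R) → (∀ r ∈ R, (cw l w).IsIntegralElem r) →
  (∀ F : An (Fin (n + 2) → ℂ), (∀ᶠ x in l, F.1 (w x) = 0) → ∀ᶠ p in 𝓝 0, F.1 p = 0) →
  ¬ Ring.KrullDimLE 1 R

-- deps: INT CHAIN
def S_NORM : Prop := ∀ (n : ℕ) (X : Type) (l : Filter X) (R : Subring (Germ l ℂ))
  (w : X → Fin n → ℂ), Ring.KrullDimLE 1 R → Tendsto w l (𝓝 0) → (∀ F, cw l w F ∈ R) →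
  (∀ r ∈ R, (cw l w).IsIntegralElem r) →
  ∃ τ : (Fin n → ℂ) →L[ℂ] ℂ, ∀ r ∈ R, (cw l fun x => τ (w x)).IsIntegralElem r

-- deps: WD
def S_PREP : Prop := ∀ (P : (An ℂ)[X]) (c : ℂ), P.map (ev 0) ≠ 0 →
  ∃ W : (An ℂ)[X], W.Monic ∧ W.natDegree = (P.map (ev 0)).rootMultiplicity c ∧
    W.map (ev 0) = X ^ W.natDegree ∧
    ∀ᶠ p in 𝓝 (0 : ℂ × ℂ), (W.map (ev p.2)).eval p.1 = 0 → (P.map (ev p.2)).eval (c + p.1) = 0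

-- deps:
def S_SCAL : Prop := ∀ (k : ℕ) (a : ℕ → ℂ → ℂ), (∀ j, AnalyticAt ℂ (a j) 0) →
  (∀ j < k, a j 0 = 0) → (∃ j < k, ¬ ∀ᶠ y in 𝓝 (0 : ℂ), a j y = 0) →
  ∃ (p q : ℕ) (b : ℕ → ℂ → ℂ), 1 ≤ p ∧ 1 ≤ q ∧ (∀ j, AnalyticAt ℂ (b j) 0) ∧
    (∃ j < k, b j 0 ≠ 0) ∧ ∀ j < k, ∀ᶠ s in 𝓝 (0 : ℂ), a j (s ^ q) = s ^ (p * (k - j)) * b j s

-- deps: SCAL
def S_NEWT : Prop := ∀ W : (An ℂ)[X], W.Monic → 1 ≤ W.natDegree →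
  W.map (ev 0) = X ^ W.natDegree →
  (∃ ρ : An ℂ, ρ.1 0 = 0 ∧ ∀ᶠ y in 𝓝 (0 : ℂ), (W.map (ev y)).eval (ρ.1 y) = 0) ∨
  ∃ (p q : ℕ) (ρ : An ℂ) (V : (An ℂ)[X]) (c : ℂ), 1 ≤ p ∧ 1 ≤ q ∧ ρ.1 0 = 0 ∧
    V.map (ev 0) ≠ 0 ∧ (V.map (ev 0)).IsRoot c ∧
    (V.map (ev 0)).rootMultiplicity c < W.natDegree ∧
    ∀ᶠ s in 𝓝 (0 : ℂ), ∀ ξ, (V.map (ev s)).eval ξ = 0 →
      (W.map (ev (s ^ q))).eval (ρ.1 (s ^ q) + s ^ p * ξ) = 0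

-- deps: PREP NEWT
def S_ROOT : Prop := ∀ (P : (An ℂ)[X]) (c : ℂ), P.map (ev 0) ≠ 0 → (P.map (ev 0)).IsRoot c →
  ∃ (e : ℕ) (φ : An ℂ), 1 ≤ e ∧ φ.1 0 = c ∧
    ∀ᶠ s in 𝓝 (0 : ℂ), (P.map (ev (s ^ e))).eval (φ.1 s) = 0

-- deps: ROOT
def S_SPLIT : Prop := ∀ P : (An ℂ)[X], P.Monic → ∃ (e : ℕ) (L : Finset (An ℂ)), 1 ≤ e ∧
  ∀ᶠ s in 𝓝 (0 : ℂ), ∀ ζ, (P.map (ev (s ^ e))).eval ζ = 0 → ∃ ρ ∈ L, ρ.1 s = ζ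

-- deps:
def S_SEP : Prop := ∀ (n : ℕ) (C : Set (ℂ → Fin n → ℂ)), C.Finite →
  ∃ (r : ℕ) (c : Fin r → ℂ → Fin n → ℂ) (μ : (Fin n → ℂ) →L[ℂ] ℂ), (∀ j, c j ∈ C) ∧
    (∀ c₀ ∈ C, ∃ j, ∀ᶠ s in 𝓝 (0 : ℂ), c₀ s = c j s) ∧
    ∀ i j, i ≠ j → ¬ ∀ᶠ s in 𝓝 (0 : ℂ), μ (c i s) = μ (c j s)

-- deps: SPLIT SEP
def S_CAND : Prop := ∀ (n m : ℕ) (a : Fin n → ℂ) (τ : (Fin n → ℂ) →L[ℂ] ℂ) (P : (An ℂ)[X])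
  (g : Fin m → (Fin n → ℂ) → ℂ), P.Monic → (∀ i, AnalyticAt ℂ (g i) a) →
  ∃ (e r : ℕ) (c : Fin r → ℂ → Fin n → ℂ) (μ : (Fin n → ℂ) →L[ℂ] ℂ), 1 ≤ e ∧
    (∀ j, AnalyticAt ℂ (c j) 0 ∧ c j 0 = a ∧
      ∀ᶠ s in 𝓝 (0 : ℂ), (∀ i, g i (c j s) = 0) ∧ τ (c j s - a) = s ^ e) ∧
    (∀ i j, i ≠ j → ¬ ∀ᶠ s in 𝓝 (0 : ℂ), μ (c i s) = μ (c j s)) ∧
    ∀ᶠ q in 𝓝 (a, (0 : ℂ)), (∀ i, g i q.1 = 0) →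
      (∀ i, (P.map (ev (q.2 ^ e))).eval (q.1 i) = 0) → τ (q.1 - a) = q.2 ^ e →
      q.1 = a ∨ ∃ j, q.1 = c j q.2

-- deps: NORM
def S_POLY : Prop := ∀ (X : Type) [TopologicalSpace X] (S : CSpace X) (x : X) (n : ℕ) (U : Set X)
  (z : X → Fin n → ℂ), S.IsChart U z → x ∈ U → Ring.KrullDimLE 1 (S.stalk x) →
  ∃ (τ : (Fin n → ℂ) →L[ℂ] ℂ) (P : Polynomial (An ℂ)), P.Monic ∧
    ∀ᶠ y in 𝓝 x, ∀ i, (P.map (ev (τ (z y - z x)))).eval (z y i) = 0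

-- deps:
def S_LIFT : Prop := ∀ (X : Type) [TopologicalSpace X] (S : CSpace X) (x : X) (n : ℕ) (U : Set X)
  (z : X → Fin n → ℂ) (c : ℂ → Fin n → ℂ), S.IsChart U z → x ∈ U → AnalyticAt ℂ c 0 →
  c 0 = z x → (∀ᶠ s in 𝓝 (0 : ℂ), c s ∈ z '' U) →
  ∃ γ : ℂ → X, S.IsArc γ x ∧ ∀ᶠ s in 𝓝 (0 : ℂ), γ s ∈ U ∧ z (γ s) = c s

-- deps: POLY CAND LIFT
def S_ARCS : Prop := ∀ (X : Type) [TopologicalSpace X] (S : CSpace X) (x : X),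
  Ring.KrullDimLE 1 (S.stalk x) →
  ∃ (m e : ℕ) (γ : Fin m → ℂ → X) (t w : X → ℂ), S.ArcSys x e γ t w

-- deps:
def S_DESC : Prop := ∀ (c : ℂ → ℂ) (e : ℕ), 1 ≤ e → AnalyticAt ℂ c 0 →
  (∀ᶠ q in 𝓝 (0 : ℂ × ℂ), q.1 ≠ 0 → q.1 ^ e = q.2 ^ e → c q.1 = c q.2) →
  ∃ a : ℂ → ℂ, AnalyticAt ℂ a 0 ∧ ∀ᶠ s in 𝓝 (0 : ℂ), c s = a (s ^ e)

-- deps:
def S_LAG : Prop := ∀ (m : ℕ) (w : Fin m → ℂ → ℂ), (∀ j, AnalyticAt ℂ (w j) 0) →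
  (∀ i j, i ≠ j → ¬ ∀ᶠ s in 𝓝 (0 : ℂ), w i s = w j s) →
  ∃ k : ℕ, ∀ v : Fin m → ℂ → ℂ, (∀ j, VanAt k (v j)) →
    ∃ Λ : (An ℂ)[X], Λ.degree < m ∧ Λ.map (ev 0) = 0 ∧
      ∀ᶠ s in 𝓝 (0 : ℂ), ∀ j, (Λ.map (ev s)).eval (w j s) = v j s

-- deps: DESC LAG
def S_CON : Prop := ∀ (X : Type) [TopologicalSpace X] (S : CSpace X) (x : X) (m e : ℕ)
  (γ : Fin m → ℂ → X) (t w : X → ℂ), S.ArcSys x e γ t w →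
  ∃ k : ℕ, ∀ ψ : X → ℂ, ψ x = 0 → (∀ j, VanAt k fun s => ψ (γ j s)) → S.Hol ψ x

-- deps: ARCS CON
def S_LD : Prop := ∀ (X : Type) [TopologicalSpace X] (S : CSpace X) (x : X),
  Ring.KrullDimLE 1 (S.stalk x) → ∃ (m : ℕ) (γ : Fin m → ℂ → X), (∀ j, S.IsArc (γ j) x) ∧
    ∀ b, S.Hol b x → ∃ k : ℕ, ∀ φ : X → ℂ, (∀ j, VanAt k fun s => φ (γ j s)) →
      S.Hol (fun y => φ y / b y) x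

-- deps: LD
def S_DISC : Prop := ∀ (X : Type) [TopologicalSpace X] (S : CSpace X) (x : X),
  Ring.KrullDimLE 1 (S.stalk x) → ∀ b, S.Hol b x →
  ∀ᶠ y in 𝓝[≠] x, b y ≠ 0 ∨ ∀ᶠ y' in 𝓝 y, b y' = 0

-- deps:
def S_ALIM : Prop := ∀ (X : Type) [TopologicalSpace X] (S : CSpace X) (x : X) (γ : ℂ → X)
  (f : ℕ → X → ℂ) (g : X → ℂ), S.IsArc γ x → (∀ n, S.Holo (f n)) →
  TendstoLocallyUniformly f g atTop → AnalyticAt ℂ (fun s => g (γ s)) 0 ∧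
    ∀ i, Tendsto (fun n => iteratedDeriv i (fun s => f n (γ s)) 0) atTop
      (𝓝 (iteratedDeriv i (fun s => g (γ s)) 0))

-- deps: LD ALIM
def S_LIM : Prop := ∀ (X : Type) [TopologicalSpace X] (S : CSpace X) (x : X),
  Ring.KrullDimLE 1 (S.stalk x) → ∀ (f : ℕ → X → ℂ) (g : X → ℂ), (∀ n, S.Holo (f n)) →
  TendstoLocallyUniformly f g atTop → S.Hol g x

-- deps:
def S_LC : Prop := ∀ (X : Type) [TopologicalSpace X] (_ : CSpace X), WeaklyLocallyCompactSpace X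

-- deps:
def S_FS1 : Prop := ∀ (X : Type) [TopologicalSpace X] (S : CSpace X), S.IsStein →
  ∀ (K : Set X) (T : Finset X) (p : X) (ψ : X → ℂ) (k : ℕ) (ε : ℝ), IsCompact K → 0 < ε →
  S.Holo ψ → p ∉ S.hull K → ∃ h, S.Holo h ∧ (∀ y ∈ K, ‖h y‖ ≤ ε) ∧
    S.Van k (fun y => h y - ψ y) p ∧ ∀ q ∈ T, q ≠ p → S.Van k h q

-- deps: FS1
def S_FS : Prop := ∀ (X : Type) [TopologicalSpace X] (S : CSpace X), S.IsStein →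
  ∀ (K : Set X) (T : Set X) (ψ : X → X → ℂ) (k : X → ℕ) (ε : ℝ), IsCompact K → T.Finite → 0 < ε →
  (∀ p, S.Holo (ψ p)) → (∀ p ∈ T, p ∈ S.hull K → ψ p = fun _ => 0) →
  ∃ h, S.Holo h ∧ (∀ y ∈ K, ‖h y‖ ≤ ε) ∧ ∀ p ∈ T, S.Van (k p) (fun y => h y - ψ p y) p

-- deps: LC FS ALIM LIM
def S_INTERP : Prop := ∀ (X : Type) [TopologicalSpace X] [T2Space X] [SecondCountableTopology X]
  (S : CSpace X), S.IsStein → (∀ x, Ring.KrullDimLE 1 (S.stalk x)) →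
  ∀ (D : Set X) (k : X → ℕ) (ψ : X → X → ℂ), (∀ x, ∀ᶠ y in 𝓝[≠] x, y ∉ D) →
  (∀ p, S.Holo (ψ p)) → ∃ h, S.Holo h ∧ ∀ p ∈ D, S.Van (k p) (fun y => h y - ψ p y) p

-- deps:
def S_LOG : Prop := ∀ (c : ℂ) (k : ℕ), c ≠ 0 → ∃ Q : ℂ → ℂ, (∀ w, AnalyticAt ℂ Q w) ∧
  ∀ a h : ℂ → ℂ, AnalyticAt ℂ a 0 → a 0 = c → VanAt (k + 1) (fun s => h s - Q (a s)) →
    VanAt (k + 1) fun s => Complex.exp (h s) - a s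

-- deps: LD DISC INTERP LOG
def S_SR1 : Prop := ∀ (X : Type) [TopologicalSpace X] [T2Space X] [SecondCountableTopology X]
  (S : CSpace X), S.IsStein → (∀ x, Ring.KrullDimLE 1 (S.stalk x)) →
  ∀ a b, S.Holo a → S.Holo b → (∀ x, a x ≠ 0 ∨ b x ≠ 0) →
  ∃ c, S.Holo c ∧ ∀ x, a x + b x * c x ≠ 0

-- deps:
def S_SIX : Prop := ∀ (R : Type) [CommRing R],
  (∀ a b : R, IsCoprime a b → ∃ t : R, IsUnit (a + b * t)) →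
  ∀ f ∈ Matrix.symplecticGroup (Fin 2) R,
  ∃ G : Fin 6 → Fin 3 → R, f = (List.ofFn fun k : Fin 6 => M (k.1 + 1) (G k)).prod

-- deps: SR1 SIX
def S_UP : Prop := Suffices 1 6

-- deps:
def S_EXS : Prop := SY.IsStein

-- deps:
def S_AN1 : Prop := ∀ (B : Type) [CommRing B] (φ : An ℂ →+* B), φ.IsIntegral →
  (∀ F : An ℂ, (∀ᶠ s in 𝓝 (0 : ℂ), F.1 s = 0) → φ F = 0) →
  (∀ F : An ℂ, F.1 0 ≠ 0 → IsUnit (φ F)) → Ring.KrullDimLE 1 B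

-- deps: INT AN1
def S_EXU : Prop := ∀ y : Y, Ring.KrullDimLE 1 (SY.stalk y)

-- deps: EXU
def S_EXD : Prop := SY.dim = (1 : ℕ)

-- deps: EXS EXD
def S_LOW : Prop := ∀ N, Suffices 1 N → 6 ≤ N

end Pool.Agent.P.MP_56563a_an.D1
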