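import Mathlib

/-!
Holomorphic functions of several variables: estimates, limits, analyticity, division by a
coordinate (copied from the team files of two other problems).
-/

set_option autoImplicit false
set_option linter.unusedSectionVars false
set_option linter.unusedVariables false

namespace Pool.Agent.P.MP_56563a_an.D1.SCV

open Set Filter Topology Metric
open scoped Nat

section A

variable {E F : Type} [NormedAddCommGroup E] [NormedSpace ℂ E] [NormedAddCommGroup F]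
  [NormedSpace ℂ F] {f : E → F} {c z : E} {R C : ℝ} {U : Set E}

theorem maps_two (hC : ∀ z ∈ ball c R, ‖f z‖ ≤ C) (hR : 0 < R) :
    MapsTo f (ball c R) (closedBall (f c) (2 * C)) := fun z hz => by
  rw [mem_closedBall, dist_eq_norm]
  linarith [norm_sub_le (f z) (f c), hC z hz, hC c (mem_ball_self hR)]

/-- The estimate of Cauchy. -/
theorem norm_fderiv_le (hd : DifferentiableOn ℂ f (ball c R)) (hC : ∀ z ∈ ball c R, ‖f z‖ ≤ C)
    (hR : 0 < R) : ‖fderiv ℂ f c‖ ≤ 2 * C / R :=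
  Complex.norm_fderiv_le_div_of_mapsTo_ball hd (maps_two hC hR) hR

/-- The lemma of Schwarz. -/
theorem norm_sub_le_schwarz (hd : DifferentiableOn ℂ f (ball c R))
    (hC : ∀ z ∈ ball c R, ‖f z‖ ≤ C) (hz : z ∈ ball c R) :
    ‖f z - f c‖ ≤ 2 * C / R * ‖z - c‖ := by
  simpa [dist_eq_norm] using Complex.dist_le_div_mul_dist_of_mapsTo_ball hd
    (maps_two hC (pos_of_mem_ball hz)) hz

theorem norm_second_le (hd : DifferentiableOn ℂ f (ball c R)) (hC : ∀ z ∈ ball c R, ‖f z‖ ≤ C)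
    (hz : z ∈ ball c R) : ‖f z - f c - fderiv ℂ f c (z - c)‖ ≤ 4 * C * (‖z - c‖ / R) ^ 2 := by
  have hR := pos_of_mem_ball hz
  have h1 := norm_fderiv_le hd hC hR
  have := Complex.dist_le_mul_div_pow_of_mapsTo_ball_of_isLittleO (n := 1) (R₂ := 4 * C)
    (f := fun z => f z - fderiv ℂ f c (z - c)) (hd.sub (by fun_prop)) (fun y hy => ?_) ?_ hz
  · simpa [dist_eq_norm, sub_right_comm] using this
  · have h2 := maps_two hC hR hy
    have h3 := (fderiv ℂ f c).le_opNorm (y - c)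
    rw [mem_closedBall, dist_eq_norm] at h2 ⊢
    rw [mem_ball, dist_eq_norm] at hy
    have h4 : ‖fderiv ℂ f c‖ * ‖y - c‖ ≤ 2 * C / R * R :=
      mul_le_mul h1 hy.le (norm_nonneg _) ((norm_nonneg _).trans h1)
    rw [div_mul_cancel₀ _ hR.ne'] at h4
    simp only [sub_self, map_zero, sub_zero]
    rw [sub_right_comm]
    linarith [norm_sub_le (f y - f c) (fderiv ℂ f c (y - c))]
  · have := ((hd c (mem_ball_self hR)).differentiableAt (ball_mem_nhds c hR)).hasFDerivAt.isLittleO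
    simpa [sub_right_comm] using this.norm_right

theorem exists_ball_bound (hU : IsOpen U) (hd : ContinuousOn f U) (hc : c ∈ U) :
    ∃ r > 0, ∃ C, ball c r ⊆ U ∧ ∀ z ∈ ball c r, ‖f z‖ ≤ C := by
  have h := ((hd.continuousAt (hU.mem_nhds hc)).norm.eventually_lt_const (lt_add_one _)).and
    (hU.mem_nhds hc)
  obtain ⟨r, hr, h⟩ := Metric.eventually_nhds_iff_ball.1 h
  exact ⟨r, hr, _, fun z hz => (h z hz).2, fun z hz => (h z hz).1.le⟩

theorem ball_sub (z c : E) (R : ℝ) : ball z (R - ‖z - c‖) ⊆ ball c R :=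
  ball_subset_ball' (by rw [dist_eq_norm]; linarith)

/-- The Taylor series at the origin. -/
noncomputable def tser (f : E → F) : FormalMultilinearSeries ℂ E F :=
  fun k => (k ! : ℂ)⁻¹ • iteratedFDeriv ℂ k f 0

end A

section B

variable {E F : Type} [NormedAddCommGroup E] [NormedSpace ℂ E] [NormedAddCommGroup F]
  [NormedSpace ℂ F] [CompleteSpace F] {f : E → F} {c z : E} {R C : ℝ} {U : Set E}

theorem of_sq {G : Type} [NormedAddCommGroup G] [NormedSpace ℂ G] {h : E → G} {L : E →L[ℂ] G}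
    (hR : 0 < R) (hb : ∀ z ∈ ball c R, ‖h z - h c - L (z - c)‖ ≤ C * (‖z - c‖ / R) ^ 2) :
    DifferentiableAt ℂ h c := by
  refine HasFDerivAt.differentiableAt (f' := L) (.of_isLittleO
    (Asymptotics.IsBigO.trans_isLittleO (g := fun z => ‖z - c‖ ^ 2)
    (Asymptotics.IsBigO.of_bound (C / R ^ 2) ?_) (Asymptotics.isLittleO_pow_sub_sub c one_lt_two)))
  filter_upwards [ball_mem_nhds c hR] with z hz
  refine (hb z hz).trans_eq ?_
  rw [Real.norm_of_nonneg (by positivity)]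
  ring

theorem lim_unif {α : Type} {l : Filter α} [l.NeBot] {g : α → E → F} {η : α → ℝ} (hR : 0 < R)
    (hη : Tendsto η l (𝓝 0)) (hf : ∀ z ∈ ball c R, ‖f z‖ ≤ C)
    (hg : ∀ᶠ n in l, DifferentiableOn ℂ (g n) (ball c R) ∧ ∀ z ∈ ball c R, ‖g n z - f z‖ ≤ η n) :
    DifferentiableAt ℂ f c := by
  have h : ∀ z ∈ ball c R, Tendsto (g · z) l (𝓝 (f z)) := fun z hz =>
    tendsto_iff_norm_sub_tendsto_zero.2
      (squeeze_zero' (.of_forall fun _ => norm_nonneg _) (hg.mono fun n hn => hn.2 z hz) hη)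
  obtain ⟨L, hL⟩ : ∃ L, Tendsto (fun n => fderiv ℂ (g n) c) l (𝓝 L) := by
    refine CompleteSpace.complete (Metric.cauchy_iff.2 ⟨inferInstance, fun ε hε => ?_⟩)
    refine ⟨_, image_mem_map (hg.and (hη.eventually_lt_const
      (show 0 < ε * R / 5 by positivity))), ?_⟩
    rintro _ ⟨n, hn, rfl⟩ _ ⟨m, hm, rfl⟩
    have := norm_fderiv_le (C := 2 * (ε * R / 5)) (hn.1.1.sub hm.1.1) (fun y hy => by
      have := norm_sub_le (g n y - f y) (g m y - f y)
      rw [sub_sub_sub_cancel_right] at this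
      change ‖g n y - g m y‖ ≤ _
      linarith [hn.1.2 y hy, hm.1.2 y hy, hn.2, hm.2]) hR
    rw [fderiv_sub (hn.1.1.differentiableAt (ball_mem_nhds c hR))
      (hm.1.1.differentiableAt (ball_mem_nhds c hR))] at this
    rw [dist_eq_norm]
    refine this.trans_lt ?_
    rw [div_lt_iff₀ hR]
    nlinarith [mul_pos hε hR]
  refine of_sq (L := L) (C := 4 * (C + 1)) hR fun z hz => ?_
  refine le_of_tendsto (((h z hz).sub (h c (mem_ball_self hR))).sub
    (((ContinuousLinearMap.apply ℂ F (z - c)).continuous.tendsto L).comp hL)).norm ?_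
  filter_upwards [hg, hη.eventually_lt_const one_pos] with n hn hn1
  refine norm_second_le hn.1 (fun y hy => ?_) hz
  have := norm_add_le (g n y - f y) (f y)
  rw [sub_add_cancel] at this
  linarith [hn.2 y hy, hf y hy]

theorem diffAt_apply (hR : 0 < R) (hd : DifferentiableOn ℂ f (ball c (2 * R)))
    (hC : ∀ z ∈ ball c (2 * R), ‖f z‖ ≤ C) (v : E) :
    DifferentiableOn ℂ (fun x => fderiv ℂ f x v) (ball c R) ∧
      ∀ x ∈ ball c R, ‖fderiv ℂ f x v‖ ≤ 2 * C / R * ‖v‖ := by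
  have h3 : ∀ x ∈ ball c R, ball x R ⊆ ball c (2 * R) := fun x hx =>
    ball_subset_ball' (by linarith [mem_ball.1 hx])
  have hb : ∀ x ∈ ball c R, ‖fderiv ℂ f x v‖ ≤ 2 * C / R * ‖v‖ := fun x hx =>
    ((fderiv ℂ f x).le_opNorm v).trans (mul_le_mul_of_nonneg_right
      (norm_fderiv_le (hd.mono (h3 x hx)) (fun y hy => hC y (h3 x hx hy)) hR) (norm_nonneg _))
  refine ⟨fun y hy => (lim_unif (l := 𝓝[≠] (0 : ℂ))
    (g := fun t x => t⁻¹ • (f (x + t • v) - f x)) (η := fun t => 4 * C * (‖v‖ / R) ^ 2 * ‖t‖)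
    (sub_pos.2 (mem_ball_iff_norm.1 hy)) ?_ (fun x hx => hb x (ball_sub _ _ _ hx))
    ?_).differentiableWithinAt, hb⟩
  · exact tendsto_nhdsWithin_of_tendsto_nhds
      (Continuous.tendsto' (by fun_prop) _ _ (by simp))
  · have : ∀ᶠ t in 𝓝 (0 : ℂ), ‖t • v‖ < R :=
      (show ContinuousAt (fun t : ℂ => ‖t • v‖) 0 by fun_prop).eventually_lt_const (by simpa)
    filter_upwards [this.filter_mono nhdsWithin_le_nhds, self_mem_nhdsWithin] with t ht ht0
    have h4 : ∀ x, x + t • v ∈ ball x R := fun x => by simpa using ht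
    refine ⟨((hd.comp (by fun_prop) fun x hx => h3 x (ball_sub _ _ _ hx) (h4 x)).sub
      (hd.mono fun x hx => h3 x (ball_sub _ _ _ hx) (mem_ball_self hR))).const_smul _,
      fun x hx => ?_⟩
    have hx := ball_sub _ _ _ hx
    have := norm_second_le (hd.mono (h3 x hx)) (fun y hy => hC y (h3 x hx hy)) (h4 x)
    have ht0 : t ≠ 0 := ht0
    have h0 : 0 < ‖t‖ := norm_pos_iff.2 ht0
    rw [add_sub_cancel_left, map_smul, norm_smul] at this
    rw [← inv_smul_smul₀ ht0 (fderiv ℂ f x v), ← smul_sub, norm_smul, norm_inv, inv_mul_le_iff₀ h0]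
    exact this.trans_eq (by ring)

theorem diffOn_fderiv (hU : IsOpen U) (hd : DifferentiableOn ℂ f U) :
    DifferentiableOn ℂ (fderiv ℂ f) U := fun c hc => by
  obtain ⟨r, hr, C, h1, h2⟩ := exists_ball_bound hU hd.continuousOn hc
  have hR := half_pos hr
  rw [show r = 2 * (r / 2) by ring] at h1 h2
  generalize r / 2 = R at h1 h2 hR
  have key := diffAt_apply hR (hd.mono h1) h2
  have hd' := fun v => (key v).1.differentiableAt (ball_mem_nhds c hR)
  let B : E →ₗ[ℂ] E →ₗ[ℂ] F := LinearMap.mk₂ ℂ (fun u v => fderiv ℂ (fun x => fderiv ℂ f x v) c u)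
    (fun _ _ _ => map_add _ _ _) (fun _ _ _ => map_smul _ _ _)
    (fun u v w => by simp only [map_add]; rw [fderiv_fun_add (hd' v) (hd' w)]; rfl)
    (fun a u v => by simp only [map_smul]; rw [fderiv_fun_const_smul (hd' v)]; rfl)
  have hB : ∀ u v, ‖B u v‖ ≤ 2 * (2 * C / R) / R * ‖u‖ * ‖v‖ := fun u v =>
    (((fderiv ℂ (fun x => fderiv ℂ f x v) c).le_opNorm u).trans (mul_le_mul_of_nonneg_right
      (norm_fderiv_le (key v).1 (key v).2 hR) (norm_nonneg _))).trans_eq (by ring)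
  have h0 : 0 ≤ C := (norm_nonneg _).trans (h2 c (mem_ball_self (by positivity)))
  refine (of_sq (L := B.mkContinuous₂ _ hB) (C := 4 * (2 * C / R)) hR
    fun z hz => ?_).differentiableWithinAt
  refine ContinuousLinearMap.opNorm_le_bound _ (by positivity) fun v => ?_
  exact (norm_second_le (key v).1 (key v).2 hz).trans_eq (by ring)

theorem contDiffOn_of_diffOn (hU : IsOpen U) (n : ℕ) : ∀ {F : Type} [NormedAddCommGroup F]
    [NormedSpace ℂ F] [CompleteSpace F] {f : E → F},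
    DifferentiableOn ℂ f U → ContDiffOn ℂ n f U := by
  induction n with
  | zero => exact fun h => contDiffOn_zero.2 h.continuousOn
  | succ n ih =>
    exact fun h => (contDiffOn_succ_iff_fderiv_of_isOpen hU).2
      ⟨h, by simp, ih (diffOn_fderiv hU h)⟩

theorem norm_iter_le (k : ℕ) {δ : ℝ} (hδ : 0 < δ) : ∀ {F : Type} [NormedAddCommGroup F]
    [NormedSpace ℂ F] [CompleteSpace F] {f : E → F} {C : ℝ},
    DifferentiableOn ℂ f (ball c ((k + 1) * δ)) → (∀ z ∈ ball c ((k + 1) * δ), ‖f z‖ ≤ C) →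
    ‖iteratedFDeriv ℂ k f c‖ ≤ (2 / δ) ^ k * C := by
  induction k with
  | zero => exact fun _ h => by simpa using h c (mem_ball_self (by positivity))
  | succ k ih =>
    intro F _ _ _ f C hd hC
    have h1 : ∀ x ∈ ball c ((k + 1) * δ), ball x δ ⊆ ball c ((↑(k + 1) + 1) * δ) := fun x hx =>
      ball_subset_ball' (by push_cast; linarith [mem_ball.1 hx])
    rw [← norm_iteratedFDeriv_fderiv]
    refine (ih ((diffOn_fderiv isOpen_ball hd).mono fun x hx => h1 x hx (mem_ball_self hδ))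
      fun x hx => norm_fderiv_le (hd.mono (h1 x hx)) (fun y hy => hC y (h1 x hx hy)) hδ).trans_eq ?_
    ring

theorem norm_tser_le (hd : DifferentiableOn ℂ f (ball 0 R)) (hC : ∀ z ∈ ball 0 R, ‖f z‖ ≤ C)
    (hR : 0 < R) (k : ℕ) : ‖tser f k‖ ≤ 3 * C * (6 / R) ^ k := by
  have h0 : 0 ≤ C := (norm_nonneg _).trans (hC 0 (mem_ball_self hR))
  have e : ((k : ℝ) + 1) * (R / (k + 1)) = R := by field_simp
  have h1 := norm_iter_le (c := (0 : E)) (f := f) (C := C) k (δ := R / (k + 1)) (by positivity)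
    (by rwa [e]) (by rwa [e])
  have h2 := Real.pow_div_factorial_le_exp (x := k + 1) (by positivity) k
  have h3 : Real.exp (k + 1) ≤ 3 ^ (k + 1) := by
    rw [← Nat.cast_succ, ← mul_one ((k.succ : ℕ) : ℝ), Real.exp_nat_mul]
    exact pow_le_pow_left₀ (by positivity) (by linarith [Real.exp_one_lt_d9]) _
  rw [tser, norm_smul, norm_inv, Complex.norm_natCast]
  calc _ ≤ (k ! : ℝ)⁻¹ * ((2 / (R / (k + 1))) ^ k * C) := by gcongr
    _ = (k + 1) ^ k / k ! * (2 / R) ^ k * C := by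
      rw [show 2 / (R / (k + 1)) = (k + 1) * (2 / R) by field_simp, mul_pow]
      ring
    _ ≤ 3 ^ (k + 1) * (2 / R) ^ k * C := by gcongr; exact h2.trans h3
    _ = _ := by
      rw [show 6 / R = 3 * (2 / R) by ring, mul_pow]
      ring

theorem hasSum_tser (hd : DifferentiableOn ℂ f (ball 0 R)) (hz : ‖z‖ < R) :
    HasSum (fun k => tser f k fun _ => z) (f z) := by
  let L : ℂ →L[ℂ] E := ContinuousLinearMap.toSpanSingleton ℂ z
  have hL : ∀ t, L t = t • z := fun t => rfl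
  have ho : IsOpen (L ⁻¹' ball 0 R) := isOpen_ball.preimage L.continuous
  have hR : 0 < R := (norm_nonneg z).trans_lt hz
  obtain ⟨r, hr, h1⟩ : ∃ r > 1, r * ‖z‖ < R := by
    have : ∀ᶠ r in 𝓝[>] (1 : ℝ), r * ‖z‖ < R := eventually_nhdsWithin_of_eventually_nhds
      ((show ContinuousAt (fun r : ℝ => r * ‖z‖) 1 by fun_prop).eventually_lt_const (by simpa))
    exact (eventually_mem_nhdsWithin.and this).exists
  have h2 : ball 0 r ⊆ L ⁻¹' ball 0 R := fun t ht => by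
    rw [mem_preimage, mem_ball_zero_iff, hL, norm_smul]
    exact (mul_le_mul_of_nonneg_right (mem_ball_zero_iff.1 ht).le (norm_nonneg z)).trans_lt h1
  have := Complex.hasSum_taylorSeries_on_ball (f := f ∘ L) (c := 0) (z := 1) (r := r)
    (hd.comp L.differentiableOn fun t ht => h2 ht) (by simpa)
  have e : (f ∘ L) 1 = f z := by simp [hL]
  rw [e] at this
  refine (congrArg (HasSum · (f z)) (funext fun k => ?_)).mp this
  have h0 : L 0 ∈ ball (0 : E) R := by simpa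
  have := L.iteratedFDerivWithin_comp_right (contDiffOn_of_diffOn isOpen_ball k hd)
    isOpen_ball.uniqueDiffOn ho.uniqueDiffOn h0 le_rfl
  rw [iteratedFDerivWithin_of_isOpen k ho h0, iteratedFDerivWithin_of_isOpen k isOpen_ball h0]
    at this
  simp [tser, iteratedDeriv_eq_iteratedFDeriv, this, hL]

theorem osgood (hU : IsOpen U) (hd : DifferentiableOn ℂ f U) :
    AnalyticOnNhd ℂ f U := fun c hc => by
  obtain ⟨r, hr, C, h1, h2⟩ := exists_ball_bound hU hd.continuousOn hc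
  have h3 : ∀ y ∈ ball 0 r, c + y ∈ ball c r := fun y hy => by simpa using hy
  have h4 : DifferentiableOn ℂ (fun y => f (c + y)) (ball 0 r) :=
    hd.comp (by fun_prop) fun y hy => h1 (h3 y hy)
  let ρ : NNReal := ⟨r / 6, by positivity⟩
  refine ⟨tser fun y => f (c + y), ρ, FormalMultilinearSeries.le_radius_of_bound _ (3 * C)
    fun k => ?_, ENNReal.coe_pos.2 (show 0 < r / 6 by positivity), fun {y} hy => ?_⟩
  · refine (mul_le_mul_of_nonneg_right (norm_tser_le h4 (fun y hy => h2 _ (h3 y hy)) hr k)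
      (by positivity)).trans_eq ?_
    rw [mul_assoc, ← mul_pow, show 6 / r * (ρ : ℝ) = 1 by change 6 / r * (r / 6) = 1; field_simp]
    simp
  · rw [Metric.eball_coe, mem_ball_zero_iff] at hy
    exact hasSum_tser h4 (hy.trans (show r / 6 < r by linarith))

theorem cauchy0 {κ : ℂ → ℂ} {ψ : ℂ → F} {ρ : ℝ} (hρ : 0 < ρ) (hρ2 : ρ < 2)
    (hk : AnalyticOnNhd ℂ κ (ball 0 2)) (h0 : κ 0 ≠ 0) (hs : ∀ l ∈ sphere (0 : ℂ) ρ, κ l ≠ 0)
    (hψ : ∀ l ∈ ball (0 : ℂ) 2, κ l ≠ 0 → DifferentiableAt ℂ ψ l ∧ ‖ψ l‖ ≤ C) :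
    (∮ l in C(0, ρ), (l - 0)⁻¹ • ψ l) = (2 * Real.pi * Complex.I : ℂ) • ψ 0 := by
  classical
  let Φ : ℂ → F := fun l => if κ l = 0 then limUnder (𝓝[≠] l) ψ else ψ l
  have hΦ : ∀ l, κ l ≠ 0 → Φ l = ψ l := fun l hl => if_neg hl
  have hd : ∀ l ∈ ball (0 : ℂ) 2, DifferentiableAt ℂ Φ l := fun l hl => by
    by_cases h : κ l = 0
    · have h1 : ∀ᶠ w in 𝓝[≠] l, κ w ≠ 0 :=
        (hk l hl).eventually_eq_zero_or_eventually_ne_zero.resolve_left fun h2 => h0
          (hk.eqOn_zero_of_preconnected_of_eventuallyEq_zero (convex_ball _ _).isPreconnected hl h2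
            (mem_ball_self two_pos))
      have h2 : {w | w ∈ ball (0 : ℂ) 2 ∧ (w ∈ ({l}ᶜ : Set ℂ) → κ w ≠ 0)} ∈ 𝓝 l :=
        (isOpen_ball.eventually_mem hl).and (eventually_nhdsWithin_iff.1 h1)
      have h3 := Complex.differentiableOn_update_limUnder_of_bddAbove (f := ψ) h2
        (fun w hw => (hψ w hw.1.1 (hw.1.2 hw.2)).1.differentiableWithinAt)
        ⟨C, by rintro _ ⟨w, hw, rfl⟩; exact (hψ w hw.1.1 (hw.1.2 hw.2)).2⟩
      refine (h3.differentiableAt h2).congr_of_eventuallyEq ?_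
      filter_upwards [h2] with w hw
      by_cases hwl : w = l
      · rw [hwl, Function.update_self]; exact if_pos h
      · rw [Function.update_of_ne hwl]; exact hΦ w (hw.2 hwl)
    · refine (hψ l hl h).1.congr_of_eventuallyEq ?_
      filter_upwards [(hk l hl).continuousAt.eventually_ne h] with w hw using hΦ w hw
  have := DifferentiableOn.circleIntegral_sub_inv_smul (f := Φ) (c := 0) (w := 0) (R := ρ)
    (fun l hl => (hd l (closedBall_subset_ball hρ2 hl)).differentiableWithinAt) (mem_ball_self hρ)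
  rw [hΦ 0 h0] at this
  rw [← this]
  exact circleIntegral.integral_congr hρ.le fun l hl => by simp only [hΦ l (hs l hl)]

theorem diff_circ {W : Set E} {v : E} {ρ δ : ℝ} (hρ : 0 < ρ) (hδ : 0 < δ) (hW : IsOpen W)
    (hd : DifferentiableOn ℂ f W) (hC : ∀ y ∈ W, ‖f y‖ ≤ C)
    (hs : ∀ x ∈ ball c (2 * δ), ∀ l ∈ sphere (0 : ℂ) ρ, x + l • v ∈ W) :
    DifferentiableOn ℂ (fun x => ∮ l in C(0, ρ), (l - 0)⁻¹ • f (x + l • v)) (ball c δ) := by
  intro x₀ hx₀
  have hm : ∀ θ, circleMap 0 ρ θ ∈ sphere (0 : ℂ) ρ := circleMap_mem_sphere 0 hρ.le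
  have hb : ∀ x ∈ ball c δ, ∀ θ, ball (x + circleMap 0 ρ θ • v) δ ⊆ W := fun x hx θ y hy => by
    have := hs (y - circleMap 0 ρ θ • v) (by
      rw [mem_ball_iff_norm] at hx hy ⊢
      have := norm_add_le (y - (x + circleMap 0 ρ θ • v)) (x - c)
      rw [show y - (x + circleMap 0 ρ θ • v) + (x - c) = y - circleMap 0 ρ θ • v - c by abel]
        at this
      linarith) _ (hm θ)
    rwa [sub_add_cancel] at this
  have hw : ∀ x ∈ ball c δ, ∀ θ, x + circleMap 0 ρ θ • v ∈ W := fun x hx θ =>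
    hb x hx θ (mem_ball_self hδ)
  have hk : Continuous fun θ => (circleMap 0 ρ θ - 0)⁻¹ :=
    Continuous.inv₀ (by fun_prop) fun θ => by simpa using hρ.ne'
  have hk' : Continuous fun θ => deriv (circleMap 0 ρ) θ := by
    simp only [deriv_circleMap]; fun_prop
  have hc : ∀ x ∈ ball c δ, Continuous fun θ => deriv (circleMap 0 ρ) θ •
      (circleMap 0 ρ θ - 0)⁻¹ • f (x + circleMap 0 ρ θ • v) := fun x hx =>
    hk'.smul (hk.smul (hd.continuousOn.comp_continuous (by fun_prop) (hw x hx)))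
  refine (intervalIntegral.hasFDerivAt_integral_of_dominated_of_fderiv_le (μ := MeasureTheory.volume)
    (a := 0) (b := 2 * Real.pi) (bound := fun _ => 2 * C / δ)
    (F := fun x θ => deriv (circleMap 0 ρ) θ •
      (circleMap 0 ρ θ - 0)⁻¹ • f (x + circleMap 0 ρ θ • v))
    (F' := fun x θ => deriv (circleMap 0 ρ) θ •
      (circleMap 0 ρ θ - 0)⁻¹ • fderiv ℂ f (x + circleMap 0 ρ θ • v))
    (isOpen_ball.mem_nhds hx₀) ?_ ((hc x₀ hx₀).intervalIntegrable _ _) ?_
    (.of_forall fun θ _ x hx => ?_) intervalIntegrable_const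
    (.of_forall fun θ _ x hx => ?_)).differentiableAt.differentiableWithinAt
  · filter_upwards [isOpen_ball.mem_nhds hx₀] with x hx using (hc x hx).aestronglyMeasurable
  · exact (hk'.smul (hk.smul ((diffOn_fderiv hW hd).continuousOn.comp_continuous (by fun_prop)
      (hw x₀ hx₀)))).aestronglyMeasurable
  · have := norm_fderiv_le (hd.mono (hb x hx θ)) (fun y hy => hC y (hb x hx θ hy)) hδ
    rw [norm_smul, norm_smul, ← mul_assoc]
    refine (mul_le_of_le_one_left (norm_nonneg _) ?_).trans this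
    simp [deriv_circleMap, abs_of_pos hρ, hρ.ne']
  · exact (((hasFDerivAt_comp_add_right _).2 (hd.differentiableAt
      (hW.mem_nhds (hw x hx θ))).hasFDerivAt).const_smul _).const_smul _

end B

/-- The extension theorem of Riemann. -/
theorem riem (E F : Type) [NormedAddCommGroup E] [NormedSpace ℂ E]
    [NormedAddCommGroup F] [NormedSpace ℂ F] [CompleteSpace F] (g : E → ℂ) (f : E → F) (z₀ : E)
    (C : ℝ) (hg : AnalyticAt ℂ g z₀) (hne : ∃ᶠ z in 𝓝 z₀, g z ≠ 0)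
    (hf : ∀ᶠ z in 𝓝 z₀, g z ≠ 0 → DifferentiableAt ℂ f z ∧ ‖f z‖ ≤ C) :
    ∃ f', AnalyticAt ℂ f' z₀ ∧ ∀ᶠ z in 𝓝 z₀, g z ≠ 0 → f' z = f z := by
  obtain ⟨R, hR, h1⟩ := Metric.eventually_nhds_iff_ball.1 (hg.eventually_analyticAt.and hf)
  obtain ⟨z₁, hz₁, hz₁'⟩ := (hne.and_eventually (ball_mem_nhds z₀ (show 0 < R / 4 by
    positivity))).exists
  obtain ⟨v, rfl⟩ : ∃ v, z₁ = z₀ + v := ⟨z₁ - z₀, by abel⟩
  have hv : ‖v‖ < R / 4 := by simpa using hz₁'
  have h2 : ∀ z ∈ ball z₀ (R / 2), ∀ l ∈ ball (0 : ℂ) 2, z + l • v ∈ ball z₀ R := fun z hz l hl => by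
    rw [mem_ball_iff_norm] at hz ⊢
    rw [mem_ball_zero_iff] at hl
    have := norm_add_le (z - z₀) (l • v)
    rw [norm_smul, sub_add_eq_add_sub] at this
    nlinarith [norm_nonneg l, norm_nonneg v]
  have h3 : ∀ z ∈ ball z₀ (R / 2), AnalyticOnNhd ℂ (fun l : ℂ => g (z + l • v)) (ball 0 2) :=
    fun z hz l hl => (h1 _ (h2 z hz l hl)).1.comp_of_eq (f := fun l : ℂ => z + l • v)
      (by fun_prop) rfl
  have hz₀ : z₀ ∈ ball z₀ (R / 2) := mem_ball_self (half_pos hR)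
  have h4 : ∀ᶠ l : ℂ in 𝓝[≠] 0, g (z₀ + l • v) ≠ 0 :=
    (h3 z₀ hz₀ 0 (mem_ball_self two_pos)).eventually_eq_zero_or_eventually_ne_zero.resolve_left
      fun h => hz₁ (by
        simpa using (h3 z₀ hz₀).eqOn_zero_of_preconnected_of_eventuallyEq_zero
          (convex_ball _ _).isPreconnected (mem_ball_self two_pos) h
          (show (1 : ℂ) ∈ ball 0 2 by simp))
  obtain ⟨ε, hε, h5⟩ := Metric.eventually_nhds_iff_ball.1 (eventually_nhdsWithin_iff.1 h4)
  obtain ⟨ρ, hρ, hρ2, hρε⟩ : ∃ ρ : ℝ, 0 < ρ ∧ ρ < 2 ∧ ρ < ε :=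
    ⟨min 1 (ε / 2), by positivity, by linarith [min_le_left 1 (ε / 2)],
      by linarith [min_le_right 1 (ε / 2)]⟩
  have h6 : ∀ᶠ z in 𝓝 z₀, ∀ l ∈ sphere (0 : ℂ) ρ, g (z + l • v) ≠ 0 :=
    (isCompact_sphere 0 ρ).eventually_forall_of_forall_eventually fun l hl =>
      ((h1 _ (h2 z₀ hz₀ l (sphere_subset_ball hρ2 hl))).1.continuousAt.comp_of_eq
        (f := fun q : E × ℂ => q.1 + q.2 • v) (x := (z₀, l)) (by fun_prop) rfl).eventually_ne
        (h5 l (sphere_subset_ball hρε hl) (ne_of_mem_sphere hl hρ.ne'))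
  obtain ⟨δ, hδ, h7⟩ := Metric.eventually_nhds_iff_ball.1
    (h6.and (ball_mem_nhds z₀ (half_pos hR)))
  have hW : IsOpen {y | y ∈ ball z₀ R ∧ g y ≠ 0} := isOpen_iff_mem_nhds.2 fun y hy =>
    (isOpen_ball.eventually_mem hy.1).and ((h1 y hy.1).1.continuousAt.eventually_ne hy.2)
  have h8 := diff_circ (c := z₀) (v := v) hρ (half_pos hδ) hW
    (fun y hy => ((h1 y hy.1).2 hy.2).1.differentiableWithinAt) (fun y hy => ((h1 y hy.1).2 hy.2).2)
    fun x hx l hl => by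
      have hx := h7 x (by rwa [mul_div_cancel₀ _ two_ne_zero] at hx)
      exact ⟨h2 x hx.2 l (sphere_subset_ball hρ2 hl), hx.1 l hl⟩
  refine ⟨fun x => (2 * Real.pi * Complex.I : ℂ)⁻¹ • ∮ l in C(0, ρ), (l - 0)⁻¹ • f (x + l • v),
    osgood isOpen_ball (h8.const_smul _) z₀ (mem_ball_self (half_pos hδ)), ?_⟩
  filter_upwards [ball_mem_nhds z₀ hδ] with z hz hgz
  have := cauchy0 (C := C) (ψ := fun l => f (z + l • v)) hρ hρ2 (h3 z (h7 z hz).2) (by simpa)
    (h7 z hz).1 fun l hl h => ⟨((h1 _ (h2 z (h7 z hz).2 l hl)).2 h).1.comp l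
      (f := fun l : ℂ => z + l • v) (by fun_prop), ((h1 _ (h2 z (h7 z hz).2 l hl)).2 h).2⟩
  rw [this, inv_smul_smul₀ Complex.two_pi_I_ne_zero]
  simp

/-- Division by `x - ξ p`. -/
theorem diva {P : Type} [NormedAddCommGroup P] [NormedSpace ℂ P] (h : ℂ × P → ℂ)
    (ξ : P → ℂ) (p₀ : P) (ha : AnalyticAt ℂ h (ξ p₀, p₀)) (hξ : AnalyticAt ℂ ξ p₀)
    (h0 : ∀ᶠ p in 𝓝 p₀, h (ξ p, p) = 0) :
    ∃ h', AnalyticAt ℂ h' (ξ p₀, p₀) ∧ ∀ᶠ q in 𝓝 (ξ p₀, p₀), h q = (q.1 - ξ q.2) * h' q := by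
  obtain ⟨L, t, ht, hL⟩ := (ha.contDiffAt (n := 1)).exists_lipschitzOnWith
  have hs : Tendsto (Prod.snd : ℂ × P → P) (𝓝 (ξ p₀, p₀)) (𝓝 p₀) := continuous_snd.continuousAt
  have hg : AnalyticAt ℂ (fun q : ℂ × P => q.1 - ξ q.2) (ξ p₀, p₀) :=
    analyticAt_fst.sub (hξ.comp (f := Prod.snd) (x := (ξ p₀, p₀)) analyticAt_snd)
  have ht' : ∀ᶠ q in 𝓝 (ξ p₀, p₀), (ξ q.2, q.2) ∈ t :=
    ((hξ.continuousAt.tendsto.comp hs).prodMk_nhds hs).eventually ht
  have hf : ∃ᶠ q in 𝓝 (ξ p₀, p₀), q.1 - ξ q.2 ≠ 0 := by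
    have c : Tendsto (fun x : ℂ => (x, p₀)) (𝓝[≠] (ξ p₀)) (𝓝 (ξ p₀, p₀)) :=
      ((continuous_id.prodMk continuous_const).tendsto (ξ p₀)).mono_left nhdsWithin_le_nhds
    exact c.frequently (Eventually.frequently
      (eventually_nhdsWithin_of_forall fun x hx => sub_ne_zero.2 hx))
  obtain ⟨f, a1, a2⟩ := riem (ℂ × P) ℂ (fun q => q.1 - ξ q.2) (fun q => h q / (q.1 - ξ q.2))
    (ξ p₀, p₀) L hg hf (by
      filter_upwards [ha.eventually_analyticAt, hg.eventually_analyticAt, ht, ht',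
        hs.eventually h0] with q b1 b2 b3 b4 b5 n
      refine ⟨(b1.fun_div b2 n).differentiableAt, ?_⟩
      have := hL.dist_le_mul q b3 _ b4
      rw [b5, dist_zero_right, Prod.dist_eq, dist_self, max_eq_left dist_nonneg, dist_eq_norm]
        at this
      rw [norm_div, div_le_iff₀ (norm_pos_iff.2 n)]
      exact this)
  refine ⟨f, a1, ?_⟩
  filter_upwards [a2, hs.eventually h0] with q b1 b2
  by_cases n : q.1 - ξ q.2 = 0
  · rw [n, zero_mul, ← b2, ← sub_eq_zero.1 n]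
  · rw [b1 n, mul_div_cancel₀ _ n]

end Pool.Agent.P.MP_56563a_an.D1.SCV
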