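import Pool.Agent.P.MP_56563a_an.D1.Iface
import Pool.Agent.P.MP_56563a_an.D1.SCV

/-! Steps DIV WD0 NF WD INT CHAIN NORM PREP SCAL NEWT ROOT SPLIT SEP CAND POLY LIFT ARCS. -/

set_option autoImplicit false
set_option linter.unusedSectionVars false
set_option linter.unusedVariables false

namespace Pool.Agent.P.MP_56563a_an.D1

open Filter Topology Set Polynomial

namespace DIVx

variable {P : Type} [NormedAddCommGroup P] [NormedSpace ℂ P]

theorem slice_diff {r ρ : ℝ} {g : ℂ × P → ℂ}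
    (hd : DifferentiableOn ℂ g (Metric.ball 0 r ×ˢ Metric.ball 0 ρ)) {y : P}
    (hy : y ∈ Metric.ball (0 : P) ρ) :
    DifferentiableOn ℂ (fun ζ : ℂ => g (ζ, y)) (Metric.ball 0 r) := by
  have h1 : DifferentiableOn ℂ (fun ζ : ℂ => ((ζ, y) : ℂ × P)) (Metric.ball 0 r) :=
    (differentiable_id.prodMk (differentiable_const y)).differentiableOn
  exact hd.comp h1 (fun ζ hζ => ⟨hζ, hy⟩)

theorem dq_ne (g : ℂ × P → ℂ) {q : ℂ × P} (hq : q.1 ≠ 0) :
    Dq g q = (g q - g (0, q.2)) / q.1 := by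
  unfold Dq
  rw [dslope_of_ne _ hq, slope_def_field, sub_zero]

theorem dq_near (g h' : ℂ × P → ℂ) (y : P) (ha : AnalyticAt ℂ h' (0, y))
    (he : ∀ᶠ q in 𝓝 ((0, y) : ℂ × P), g q - g (0, q.2) = q.1 * h' q) :
    Dq g =ᶠ[𝓝 ((0, y) : ℂ × P)] h' := by
  filter_upwards [he.eventually_nhds, ha.eventually_analyticAt] with q hq hqa
  by_cases h0 : q.1 = 0
  · obtain ⟨a, b⟩ := q
    have ha0 : a = 0 := h0
    subst ha0
    have hc : Tendsto (fun ζ : ℂ => ((ζ, b) : ℂ × P)) (𝓝 0) (𝓝 ((0, b) : ℂ × P)) :=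
      (continuous_id.prodMk continuous_const).tendsto (0 : ℂ)
    have h1 : (fun ζ : ℂ => g (ζ, b)) =ᶠ[𝓝 0] fun ζ : ℂ => g (0, b) + ζ * h' (ζ, b) := by
      filter_upwards [hc.eventually hq] with ζ hζ
      have hζ' : g (ζ, b) - g (0, b) = ζ * h' (ζ, b) := hζ
      rw [← hζ']
      ring
    have h2 : DifferentiableAt ℂ (fun ζ : ℂ => h' (ζ, b)) 0 := by
      have h3 : DifferentiableAt ℂ (fun ζ : ℂ => ((ζ, b) : ℂ × P)) 0 :=
        differentiableAt_id.prodMk (differentiableAt_const b)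
      exact DifferentiableAt.comp (g := h') (f := fun ζ : ℂ => ((ζ, b) : ℂ × P)) 0
        hqa.differentiableAt h3
    have h4 : HasDerivAt (fun ζ : ℂ => g (0, b) + ζ * h' (ζ, b))
        (1 * h' (0, b) + 0 * deriv (fun ζ : ℂ => h' (ζ, b)) 0) 0 :=
      ((hasDerivAt_id (0 : ℂ)).mul h2.hasDerivAt).const_add (g (0, b))
    have h5 : deriv (fun ζ : ℂ => g (ζ, b)) 0 = h' (0, b) := by
      rw [h1.deriv_eq, h4.deriv]
      ring
    show dslope (fun ζ : ℂ => g (ζ, b)) 0 0 = h' (0, b)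
    rw [dslope_same, h5]
  · rw [dq_ne g h0, hq.self_of_nhds]
    field_simp

end DIVx

theorem p_DIV :
    S_DIV := by
  intro P _ _ r ρ C g hr hd hC
  have hU : IsOpen (Metric.ball (0 : ℂ) r ×ˢ Metric.ball (0 : P) ρ) :=
    Metric.isOpen_ball.prod Metric.isOpen_ball
  have hA : ∀ p ∈ Metric.ball (0 : ℂ) r ×ˢ Metric.ball (0 : P) ρ, AnalyticAt ℂ g p :=
    SCV.osgood hU hd
  have hA0 : ∀ p ∈ Metric.ball (0 : ℂ) r ×ˢ Metric.ball (0 : P) ρ,
      AnalyticAt ℂ (fun q : ℂ × P => g q - g (0, q.2)) p := by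
    intro p hp
    have hm : ((0, p.2) : ℂ × P) ∈ Metric.ball (0 : ℂ) r ×ˢ Metric.ball (0 : P) ρ :=
      ⟨Metric.mem_ball_self hr, hp.2⟩
    have h1 : AnalyticAt ℂ (fun q : ℂ × P => ((0, q.2) : ℂ × P)) p :=
      analyticAt_const.prod analyticAt_snd
    exact (hA p hp).sub (AnalyticAt.comp (g := g) (f := fun q : ℂ × P => ((0, q.2) : ℂ × P))
      (x := p) (hA _ hm) h1)
  refine ⟨fun p hp => DifferentiableAt.differentiableWithinAt ?_, fun p hp => ?_⟩
  · by_cases h0 : p.1 = 0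
    · obtain ⟨a, y⟩ := p
      have ha0 : a = 0 := h0
      subst ha0
      obtain ⟨h', ha, he⟩ := SCV.diva (fun q : ℂ × P => g q - g (0, q.2)) (fun _ => 0) y
        (hA0 _ hp) analyticAt_const (Eventually.of_forall fun p => sub_self _)
      have he' : ∀ᶠ q in 𝓝 ((0, y) : ℂ × P), g q - g (0, q.2) = q.1 * h' q := by
        filter_upwards [he] with q hq
        rw [hq, sub_zero]
      exact ha.differentiableAt.congr_of_eventuallyEq (DIVx.dq_near g h' y ha he')
    · have hne : ∀ᶠ q in 𝓝 p, (q : ℂ × P).1 ≠ 0 :=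
        continuous_fst.continuousAt.eventually_ne h0
      have h1 : DifferentiableAt ℂ (fun q : ℂ × P => (g q - g (0, q.2)) / q.1) p :=
        ((hA0 p hp).div analyticAt_fst h0).differentiableAt
      refine h1.congr_of_eventuallyEq ?_
      filter_upwards [hne] with q hq
      exact DIVx.dq_ne g hq
  · have h1 := DIVx.slice_diff hd hp.2
    have h2 : ∀ z ∈ Metric.ball (0 : ℂ) r, ‖(fun ζ : ℂ => g (ζ, p.2)) z‖ ≤ C :=
      fun z hz => hC (z, p.2) ⟨hz, hp.2⟩
    have h3 := Complex.norm_dslope_le_div_of_mapsTo_ball h1 (SCV.maps_two h2 hr) hp.1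
    have h4 : 2 * C / r = 2 / r * C := by ring
    unfold Dq
    rw [← h4]
    exact h3

end Pool.Agent.P.MP_56563a_an.D1

namespace Pool.Agent.P.MP_56563a_an.D1

open Filter Topology Set Polynomial

namespace WD0x

theorem series {E : Type} [NormedAddCommGroup E] [NormedSpace ℂ E] {Ω : Set E} (hΩ : IsOpen Ω)
    {f : ℕ → E → ℂ} {A : ℝ} (hd : ∀ n, DifferentiableOn ℂ (f n) Ω)
    (hb : ∀ n, ∀ p ∈ Ω, ‖f n p‖ ≤ A * (1 / 2) ^ n) :
    (∀ p ∈ Ω, HasSum (fun n => f n p) (∑' n, f n p)) ∧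
      AnalyticOnNhd ℂ (fun p => ∑' n, f n p) Ω := by
  have h1 : ∀ p ∈ Ω, HasSum (fun n => f n p) (∑' n, f n p) := fun p hp =>
    (Summable.of_norm_bounded (summable_geometric_two.mul_left A) fun n => hb n p hp).hasSum
  have h2 : ∀ p ∈ Ω, ∀ N, ‖∑ n ∈ Finset.range N, f n p - ∑' n, f n p‖ ≤
      A * (1 / 2) ^ N / (1 - 1 / 2) := fun p hp N =>
    norm_sub_le_of_geometric_bound_of_hasSum (by norm_num) (fun n => hb n p hp) (h1 p hp) N
  refine ⟨h1, SCV.osgood hΩ fun c hc => ?_⟩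
  obtain ⟨R, hR, h3⟩ := Metric.isOpen_iff.1 hΩ c hc
  refine (SCV.lim_unif (l := atTop) (g := fun N p => ∑ n ∈ Finset.range N, f n p)
    (η := fun N => A * (1 / 2) ^ N / (1 - 1 / 2)) (C := A * (1 / 2) ^ 0 / (1 - 1 / 2)) hR ?_
    (fun z hz => by simpa using h2 z (h3 hz) 0) (.of_forall fun N =>
      ⟨DifferentiableOn.fun_sum fun n _ => (hd n).mono h3,
        fun z hz => h2 z (h3 hz) N⟩)).differentiableWithinAt
  have := ((tendsto_pow_atTop_nhds_zero_of_lt_one (r := (1 / 2 : ℝ)) (by norm_num)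
    (by norm_num)).const_mul A).div_const (1 - 1 / 2)
  simpa using this

theorem expand {P : Type} (g : ℂ × P → ℂ) (p : ℂ × P) (k : ℕ) :
    g p = p.1 ^ k * Dq^[k] g p + ∑ j ∈ Finset.range k, Dq^[j] g (0, p.2) * p.1 ^ j := by
  induction k with
  | zero => simp
  | succ k ih =>
    have := sub_smul_dslope (fun ζ => Dq^[k] g (ζ, p.2)) 0 p.1
    rw [Finset.sum_range_succ, Function.iterate_succ_apply', ih]
    simp only [sub_zero, smul_eq_mul, Prod.mk.eta] at this
    change p.1 * Dq (Dq^[k] g) p = _ at this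
    linear_combination (-p.1 ^ k) * this

end WD0x

open WD0x in
theorem p_WD0 (hDIV : S_DIV) :
    S_WD0 := by
  intro P _ _ r ρ C k g h hr hρ hg hgC hh hhC
  set Ω : Set (ℂ × P) := Metric.ball 0 r ×ˢ Metric.ball 0 ρ with hΩ
  have ho : IsOpen Ω := Metric.isOpen_ball.prod Metric.isOpen_ball
  have h0 : (0 : ℂ × P) ∈ Ω := ⟨Metric.mem_ball_self hr, Metric.mem_ball_self hρ⟩
  have iter : ∀ (j : ℕ) (g : ℂ × P → ℂ) (C : ℝ), DifferentiableOn ℂ g Ω → (∀ p ∈ Ω, ‖g p‖ ≤ C) →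
      DifferentiableOn ℂ (Dq^[j] g) Ω ∧ ∀ p ∈ Ω, ‖Dq^[j] g p‖ ≤ (2 / r) ^ j * C := by
    intro j g C h1 h2
    induction j with
    | zero => exact ⟨h1, by simpa using h2⟩
    | succ j ih =>
      rw [Function.iterate_succ_apply', pow_succ', mul_assoc]
      exact hDIV P r ρ _ _ hr ih.1 ih.2
  let G : ℕ → ℂ × P → ℂ := fun n => (fun G p => -(h p * Dq^[k] G p))^[n] g
  have hs : ∀ n p, G (n + 1) p = -(h p * Dq^[k] (G n) p) := fun n p => by
    simp only [G, Function.iterate_succ_apply']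
  have hG : ∀ n, DifferentiableOn ℂ (G n) Ω ∧ ∀ p ∈ Ω, ‖G n p‖ ≤ C * (1 / 2) ^ n := by
    intro n
    induction n with
    | zero => exact ⟨hg, by simpa [G] using hgC⟩
    | succ n ih =>
      obtain ⟨a1, a2⟩ := iter k _ _ ih.1 ih.2
      refine ⟨((hh.mul a1).neg).congr fun p _ => hs n p, fun p hp => ?_⟩
      rw [hs, norm_neg, norm_mul]
      refine (mul_le_mul (hhC p hp) (a2 p hp) (norm_nonneg _) (by positivity)).trans_eq ?_
      have : (r / 2) ^ k * (2 / r) ^ k = 1 := by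
        rw [← mul_pow, show r / 2 * (2 / r) = 1 by field_simp, one_pow]
      linear_combination (C * (1 / 2) ^ (n + 1)) * this
  have hS := fun j : ℕ => series ho (f := fun n => Dq^[j] (G n)) (A := (2 / r) ^ j * C)
    (fun n => (iter j _ _ (hG n).1 (hG n).2).1)
    fun n p hp => ((iter j _ _ (hG n).1 (hG n).2).2 p hp).trans_eq (by ring)
  refine ⟨fun p => ∑' n, Dq^[k] (G n) p, fun j y => ∑' n, Dq^[j] (G n) (0, y), (hS k).2 0 h0,
    fun j => ((hS j).2 0 h0).comp_of_eq (f := fun y : P => ((0 : ℂ), y))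
      (analyticAt_const.prod analyticAt_id) rfl, ?_⟩
  filter_upwards [ho.mem_nhds h0] with p hp
  have hp0 : ((0 : ℂ), p.2) ∈ Ω := ⟨Metric.mem_ball_self hr, hp.2⟩
  have s1 := (((hS k).1 p hp).mul_right (p.1 ^ k + h p)).add
    (hasSum_sum (s := Finset.range k) fun j _ => ((hS j).1 _ hp0).mul_right (p.1 ^ j))
  have e : ∀ n, Dq^[k] (G n) p * (p.1 ^ k + h p) +
      ∑ j ∈ Finset.range k, Dq^[j] (G n) (0, p.2) * p.1 ^ j = G n p - G (n + 1) p := fun n => by
    rw [hs, expand (G n) p k]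
    ring
  simp only [e] at s1
  refine tendsto_nhds_unique ?_ s1.tendsto_sum_nat
  simp only [Finset.sum_range_sub' (fun n => G n p)]
  have t : Tendsto (fun n => G n p) atTop (𝓝 0) := by
    refine squeeze_zero_norm (fun n => (hG n).2 p hp) ?_
    simpa using (tendsto_pow_atTop_nhds_zero_of_lt_one (r := (1 / 2 : ℝ)) (by norm_num)
      (by norm_num)).const_mul C
  simpa [G] using (tendsto_const_nhds (x := G 0 p)).sub t

end Pool.Agent.P.MP_56563a_an.D1

namespace Pool.Agent.P.MP_56563a_an.D1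

open Filter Topology Set Polynomial

theorem p_NF :
    S_NF := by
  intro P _ _ k
  induction k with
  | zero =>
    intro f u hf _ h
    refine ⟨f, fun _ _ => 0, hf, ?_, fun _ => ⟨analyticAt_const, rfl⟩, by simp⟩
    exact h.self_of_nhds.trans (by simp)
  | succ k ih =>
    intro f u hf hu h
    have a0 : AnalyticAt ℂ (fun y : P => f (0, y)) 0 :=
      hf.comp_of_eq (analyticAt_const.prod analyticAt_id) rfl
    have f0 : f (0, 0) = 0 := by simpa using h.self_of_nhds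
    obtain ⟨f1, h1, e1⟩ := SCV.diva (fun q : ℂ × P => f q - f (0, q.2)) (fun _ => 0) 0
      (AnalyticAt.fun_sub hf (a0.comp_of_eq analyticAt_snd rfl)) analyticAt_const
      (.of_forall fun _ => sub_self _)
    have hl : AnalyticAt ℂ (fun ζ : ℂ => ((ζ, 0) : ℂ × P)) 0 := analyticAt_id.prod analyticAt_const
    have e2 : ∀ᶠ ζ in 𝓝 (0 : ℂ), f1 (ζ, 0) = ζ ^ k * u ζ := by
      refine (AnalyticAt.frequently_eq_iff_eventually_eq (h1.comp_of_eq hl rfl)
        ((analyticAt_id.fun_pow k).fun_mul hu)).1 (Eventually.frequently ?_)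
      filter_upwards [nhdsWithin_le_nhds (hl.continuousAt.eventually e1), nhdsWithin_le_nhds h,
        self_mem_nhdsWithin] with ζ b1 b2 b3
      have b4 : f (ζ, 0) - f (0, 0) = (ζ - 0) * f1 (ζ, 0) := b1
      have b5 : f (ζ, 0) = ζ ^ (k + 1) * u ζ := b2
      refine mul_left_cancel₀ (show ζ ≠ 0 from b3) ?_
      show ζ * f1 (ζ, 0) = ζ * (ζ ^ k * u ζ)
      linear_combination b5 - b4 - f0
    obtain ⟨v, c, hv, v0, hc, e3⟩ := ih f1 u h1 hu e2
    refine ⟨v, fun j => Nat.casesOn j (fun y => f (0, y)) c, hv, v0, fun j => ?_, ?_⟩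
    · cases j with
      | zero => exact ⟨a0, f0⟩
      | succ j => exact hc j
    · filter_upwards [e1, e3] with p b1 b2
      have b3 : ∑ j ∈ Finset.range k, c j p.2 * p.1 ^ (j + 1) =
          p.1 * ∑ j ∈ Finset.range k, c j p.2 * p.1 ^ j := by
        rw [Finset.mul_sum]
        exact Finset.sum_congr rfl fun j _ => by ring
      rw [Finset.sum_range_succ']
      show f p = p.1 ^ (k + 1) * v p +
        (∑ j ∈ Finset.range k, c j p.2 * p.1 ^ (j + 1) + f (0, p.2) * p.1 ^ 0)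
      rw [b3]
      linear_combination b1 + p.1 * b2

end Pool.Agent.P.MP_56563a_an.D1

namespace Pool.Agent.P.MP_56563a_an.D1

open Filter Topology Set Polynomial

theorem p_WD (hWD0 : S_WD0) (hNF : S_NF) :
    S_WD := by
  intro P _ _ k f g u hf hg hu u0 e
  obtain ⟨v, c, hv, v0, hc, ef⟩ := hNF P k f u hf hu e
  rw [← v0] at u0
  have n0 : 0 < ‖v 0‖ / 2 := half_pos (norm_pos_iff.2 u0)
  have hh : AnalyticAt ℂ (fun p : ℂ × P => (∑ j ∈ Finset.range k, c j p.2 * p.1 ^ j) / v p) 0 :=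
    (Finset.analyticAt_fun_sum _ fun j _ =>
      ((hc j).1.comp_of_eq analyticAt_snd rfl).fun_mul (analyticAt_fst.fun_pow j)).fun_div hv u0
  obtain ⟨r, r0, hr⟩ := Metric.eventually_nhds_iff_ball.1 ((hh.eventually_analyticAt.and
    hg.eventually_analyticAt).and ((hg.continuousAt.norm.eventually_lt continuousAt_const
      (lt_add_one ‖g 0‖)).and (continuousAt_const.eventually_lt hv.continuousAt.norm
        (half_lt_self (norm_pos_iff.2 u0)))))
  have hs : ContinuousAt (fun y : P => ∑ j ∈ Finset.range k, ‖c j y‖ * r ^ j) 0 :=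
    tendsto_finsetSum _ fun j _ => (hc j).1.continuousAt.norm.mul continuousAt_const
  obtain ⟨ρ, ρ0, hρ⟩ := Metric.eventually_nhds_iff_ball.1
    ((hs.eventually_lt (g := fun _ => (r / 2) ^ k / 2 * (‖v 0‖ / 2)) continuousAt_const (by
      simp only [(hc _).2, norm_zero, zero_mul, Finset.sum_const_zero]
      positivity)).and (Metric.ball_mem_nhds (0 : P) r0))
  have hm : ∀ p ∈ Metric.ball (0 : ℂ) r ×ˢ Metric.ball (0 : P) ρ, p ∈ Metric.ball (0 : ℂ × P) r :=
    fun p hp => (ball_prod_same (0 : ℂ) (0 : P) r).subset ⟨hp.1, (hρ _ hp.2).2⟩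
  obtain ⟨q, a, hq, ha, eg⟩ := hWD0 P r ρ (‖g 0‖ + 1) k g _ r0 ρ0
    (fun p hp => (hr p (hm p hp)).1.2.differentiableAt.differentiableWithinAt)
    (fun p hp => (hr p (hm p hp)).2.1.le)
    (fun p hp => (hr p (hm p hp)).1.1.differentiableAt.differentiableWithinAt)
    (fun p hp => by
      have h1 := (hr p (hm p hp)).2.2
      rw [norm_div, div_le_iff₀ (n0.trans h1)]
      refine (norm_sum_le _ _).trans (le_trans (Finset.sum_le_sum fun j _ => ?_)
        ((hρ _ hp.2).1.le.trans (mul_le_mul_of_nonneg_left h1.le (by positivity))))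
      rw [norm_mul, norm_pow]
      exact mul_le_mul_of_nonneg_left (pow_le_pow_left₀ (norm_nonneg _)
        (mem_ball_zero_iff.1 hp.1).le j) (norm_nonneg _))
  refine ⟨fun p => q p / v p, a, hq.fun_div hv u0, ha, ?_⟩
  filter_upwards [eg, ef, hv.continuousAt.eventually_ne u0] with p h1 h2 h3
  rw [h1, h2]
  field_simp

end Pool.Agent.P.MP_56563a_an.D1

namespace Pool.Agent.P.MP_56563a_an.D1

open Filter Topology Set Polynomial

theorem p_INT (hWD : S_WD) :
    S_INT := by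
  classical
  intro P _ _ X l w f hw hf hne h0 G
  have hf1 : AnalyticAt ℂ (fun ζ : ℂ => f (ζ, 0)) 0 :=
    hf.comp_of_eq (analyticAt_id.prod analyticAt_const) rfl
  obtain ⟨k, u, hu, hu0, he⟩ := hf1.exists_eventuallyEq_pow_smul_nonzero_iff.2 hne
  have he' : ∀ᶠ ζ in 𝓝 (0 : ℂ), f (ζ, 0) = ζ ^ k * u ζ := he.mono fun ζ h => by simpa using h
  let := (cw l fun x => (w x).2).toAlgebra
  let S : Subalgebra (An P) (Germ l ℂ) :=
    { (cw l w).range.toSubsemiring with
      algebraMap_mem' := fun H => ⟨pull Prod.snd analyticAt_snd rfl H, rfl⟩ }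
  let e : ℕ → Germ l ℂ := fun j => ((fun x => (w x).1 ^ j : X → ℂ) : Germ l ℂ)
  have hspan : Subalgebra.toSubmodule S =
      Submodule.span (An P) (↑((Finset.range k).image e) : Set (Germ l ℂ)) := by
    refine le_antisymm ?_ (Submodule.span_le.2 ?_)
    · rintro _ ⟨F, rfl⟩
      obtain ⟨q, a, -, ha, hq⟩ := hWD P k f F.1 u hf F.2 hu hu0 he'
      have h1 : cw l w F = ∑ j ∈ Finset.range k, (⟨a j, ha j⟩ : An P) • e j := by
        have h2 : ∑ j ∈ Finset.range k, (⟨a j, ha j⟩ : An P) • e j =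
            Germ.coeRingHom l (∑ j ∈ Finset.range k, fun x => a j (w x).2 * (w x).1 ^ j) := by
          rw [map_sum]
          rfl
        rw [h2, cw_apply]
        refine Germ.coe_eq.2 ?_
        filter_upwards [hw.eventually hq, h0] with x h3 h4
        rw [h3, h4, mul_zero, zero_add, Finset.sum_apply]
      change cw l w F ∈ _
      rw [h1]
      refine Submodule.sum_mem _ fun j hj => Submodule.smul_mem _ _ (Submodule.subset_span ?_)
      exact Finset.mem_coe.2 (Finset.mem_image_of_mem e hj)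
    · intro y hy
      obtain ⟨j, -, rfl⟩ := Finset.mem_image.1 (Finset.mem_coe.1 hy)
      exact ⟨⟨fun p => p.1 ^ j, analyticAt_fst.fun_pow j⟩, rfl⟩
  exact IsIntegral.of_mem_of_fg S ⟨_, hspan.symm⟩ _ ⟨G, rfl⟩

end Pool.Agent.P.MP_56563a_an.D1

namespace Pool.Agent.P.MP_56563a_an.D1

open Filter Topology Set Polynomial

namespace CHAINx

/-- The functions that vanish near the origin. -/
def N (E : Type) [NormedAddCommGroup E] [NormedSpace ℂ E] : Ideal (An E) where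
  carrier := {F | ∀ᶠ p in 𝓝 (0 : E), F.1 p = 0}
  zero_mem' := Eventually.of_forall fun _ => rfl
  add_mem' := fun {F G} hF hG => by
    filter_upwards [hF, hG] with p a b
    show F.1 p + G.1 p = 0
    rw [a, b, add_zero]
  smul_mem' := fun c {F} hF => by
    filter_upwards [hF] with p a
    show c.1 p * F.1 p = 0
    rw [a, mul_zero]

theorem mem_N {E : Type} [NormedAddCommGroup E] [NormedSpace ℂ E] {F : An E} :
    F ∈ N E ↔ ∀ᶠ p in 𝓝 (0 : E), F.1 p = 0 := Iff.rfl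

theorem N_prime (E : Type) [NormedAddCommGroup E] [NormedSpace ℂ E] : (N E).IsPrime := by
  refine ⟨fun h => ?_, fun {F G} h => ?_⟩
  · have h1 : (1 : An E) ∈ N E := h ▸ Submodule.mem_top
    exact one_ne_zero (α := ℂ) (mem_N.1 h1).self_of_nhds
  · obtain ⟨r, hr, hb⟩ := Metric.eventually_nhds_iff_ball.1
      ((mem_N.1 h).and ((An.an F).eventually_analyticAt.and (An.an G).eventually_analyticAt))
    by_cases hF : ∀ y ∈ Metric.ball (0 : E) r, F.1 y = 0
    · exact Or.inl (mem_N.2 (Metric.eventually_nhds_iff_ball.2 ⟨r, hr, hF⟩))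
    · right
      simp only [not_forall] at hF
      obtain ⟨y, hy, hFy⟩ := hF
      have hG : G.1 =ᶠ[𝓝 y] 0 := by
        filter_upwards [(hb y hy).2.1.continuousAt.eventually_ne hFy,
          Metric.isOpen_ball.mem_nhds hy] with p h1 h2
        exact (mul_eq_zero.1 (hb p h2).1).resolve_left h1
      have := AnalyticOnNhd.eqOn_zero_of_preconnected_of_eventuallyEq_zero
        (fun p hp => (hb p hp).2.2) (convex_ball (0 : E) r).isPreconnected hy hG
      exact mem_N.2 (Metric.eventually_nhds_iff_ball.2 ⟨r, hr, this⟩)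

theorem not_id : ¬ ∀ᶠ s in 𝓝 (0 : ℂ), s = 0 := fun h => by
  obtain ⟨s, h1, h2⟩ := ((h.filter_mono (nhdsWithin_le_nhds (s := {0}ᶜ))).and
    self_mem_nhdsWithin).exists
  exact h2 h1

/-- The coordinate axes. -/
def ax {n : ℕ} (i : Fin n) (s : ℂ) : Fin n → ℂ := s • (Pi.single i 1 : Fin n → ℂ)

theorem ax_an {n : ℕ} (i : Fin n) : AnalyticAt ℂ (ax i) 0 :=
  analyticAt_id.fun_smul analyticAt_const

theorem ax_zero {n : ℕ} (i : Fin n) : ax i 0 = 0 := zero_smul _ _

theorem ax_tendsto {n : ℕ} (i : Fin n) : Tendsto (ax i) (𝓝 0) (𝓝 0) := by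
  have := (ax_an i).continuousAt.tendsto
  rwa [ax_zero] at this

end CHAINx

open CHAINx in
theorem p_CHAIN :
    S_CHAIN := by
  intro n X l R w hR hint hker hdim
  let φ : An (Fin (n + 2) → ℂ) →+* R := (cw l w).codRestrict R hR
  let := φ.toAlgebra
  have : Algebra.IsIntegral (An (Fin (n + 2) → ℂ)) R := ⟨fun r => by
    obtain ⟨p, hp, e⟩ := hint r.1 r.2
    refine ⟨p, hp, R.subtype_injective ?_⟩
    rw [Polynomial.hom_eval₂, map_zero]
    exact e⟩
  have p0 := N_prime (Fin (n + 2) → ℂ)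
  have pC := N_prime ℂ
  let P1 : Ideal (An (Fin (n + 2) → ℂ)) := (N ℂ).comap (pull (ax 0) (ax_an 0) (ax_zero 0))
  have p1 : P1.IsPrime := Ideal.comap_isPrime _ _
  let P2 : Ideal (An (Fin (n + 2) → ℂ)) := RingHom.ker (ev 0)
  have p2 : P2.IsPrime := RingHom.ker_isPrime _
  have h01 : N (Fin (n + 2) → ℂ) ≤ P1 := fun F hF => (ax_tendsto 0).eventually (mem_N.1 hF)
  have h12 : P1 ≤ P2 := fun F hF => by
    have h1 : F.1 (ax 0 0) = 0 := (mem_N.1 hF).self_of_nhds
    rw [ax_zero] at h1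
    exact h1
  have n01 : N (Fin (n + 2) → ℂ) ≠ P1 := fun e => by
    have h1 : (⟨fun z => z 1, an_coord 1 0⟩ : An (Fin (n + 2) → ℂ)) ∈ P1 :=
      mem_N.2 (.of_forall fun s => by simp [ax])
    rw [← e] at h1
    exact not_id (((ax_tendsto 1).eventually (mem_N.1 h1)).mono fun s hs => by simpa [ax] using hs)
  have n12 : P1 ≠ P2 := fun e => by
    have h1 : (⟨fun z => z 0, an_coord 0 0⟩ : An (Fin (n + 2) → ℂ)) ∈ P2 := rfl
    rw [← e] at h1
    exact not_id ((mem_N.1 h1).mono fun s hs => by simpa [ax] using hs)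
  obtain ⟨Q0, -, q0, e0⟩ := Ideal.exists_ideal_over_prime_of_isIntegral (N (Fin (n + 2) → ℂ))
    (⊥ : Ideal R) fun F hF => hker F (by
      have h1 : cw l w F = 0 := congrArg Subtype.val (Ideal.mem_bot.1 (Ideal.mem_comap.1 hF))
      rw [cw_apply, ← Germ.coe_zero, Germ.coe_eq] at h1
      exact h1)
  obtain ⟨Q1, l1, q1, e1⟩ := Ideal.exists_ideal_over_prime_of_isIntegral P1 Q0 (e0.le.trans h01)
  obtain ⟨Q2, l2, q2, e2⟩ := Ideal.exists_ideal_over_prime_of_isIntegral P2 Q1 (e1.le.trans h12)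
  rcases Ring.krullDimLE_one_iff.1 hdim Q1 q1 with h | h
  · have : Q0 = Q1 := le_antisymm l1 (h.2 ⟨q0, bot_le⟩ l1)
    exact n01 (by rw [← e0, ← e1, this])
  · have : Q1 = Q2 := h.eq_of_le q2.ne_top l2
    exact n12 (by rw [← e1, ← e2, this])

end Pool.Agent.P.MP_56563a_an.D1

namespace Pool.Agent.P.MP_56563a_an.D1

open Filter Topology Set Polynomial

namespace NORMx

theorem factor {E E' X : Type} [NormedAddCommGroup E] [NormedSpace ℂ E] [NormedAddCommGroup E']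
    [NormedSpace ℂ E'] {l : Filter X} {w : X → E} (w' : X → E') (ψ : E' →L[ℂ] E)
    (e : ∀ x, ψ (w' x) = w x) {r : Germ l ℂ} (h : (cw l w).IsIntegralElem r) :
    (cw l w').IsIntegralElem r := by
  obtain rfl : (fun x => ψ (w' x)) = w := funext e
  exact integral_trans _ _ (fun F => RingHom.isIntegralElem_map (cw l w')
    (x := pull ψ (ψ.analyticAt 0) (map_zero ψ) F)) h

theorem dir {n : ℕ} {F : (Fin (n + 1) → ℂ) → ℂ} (hF : AnalyticAt ℂ F 0)
    (h : ∀ v ≠ 0, ∀ᶠ ζ in 𝓝 (0 : ℂ), F (ζ • v) = 0) : ∀ᶠ p in 𝓝 0, F p = 0 := by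
  obtain ⟨ε, hε, hb⟩ := Metric.eventually_nhds_iff_ball.1 hF.eventually_analyticAt
  filter_upwards [Metric.ball_mem_nhds 0 hε] with y hy
  by_cases h0 : y = 0
  · simpa [h0] using (h 1 one_ne_zero).self_of_nhds
  · have hc : Convex ℝ {ζ : ℂ | ζ • y ∈ Metric.ball 0 ε} := (convex_ball 0 ε).linear_preimage
      ((LinearMap.toSpanSingleton ℂ _ y).restrictScalars ℝ)
    have ha : AnalyticOnNhd ℂ (fun ζ : ℂ => F (ζ • y)) {ζ : ℂ | ζ • y ∈ Metric.ball 0 ε} :=
      fun ζ hζ => (hb _ hζ).comp_of_eq (analyticAt_id.smul analyticAt_const) rfl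
    simpa using ha.eqOn_zero_of_preconnected_of_eventuallyEq_zero hc.isPreconnected (z₀ := 0)
      (by simpa using hε) (h y h0) (show (1 : ℂ) ∈ _ by simpa using hy)

end NORMx

open NORMx in
theorem p_NORM (hINT : S_INT) (hCHAIN : S_CHAIN) :
    S_NORM := by
  intro n X l R
  induction n with
  | zero =>
    exact fun w _ _ _ h => ⟨0, fun r hr => factor _ 0 (fun x => Subsingleton.elim _ _) (h r hr)⟩
  | succ n ih =>
    intro w hR hw hm h
    by_cases c : ∀ F : An (Fin (n + 1) → ℂ), (∀ᶠ x in l, F.1 (w x) = 0) → ∀ᶠ p in 𝓝 0, F.1 p = 0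
    · obtain _ | m := n
      · refine ⟨ContinuousLinearMap.proj 0, fun r hr =>
          factor _ (ContinuousLinearMap.pi fun _ => ContinuousLinearMap.id ℂ ℂ) (fun x => ?_)
            (h r hr)⟩
        funext i
        rw [Subsingleton.elim (α := Fin 1) i 0]
        rfl
      · exact (hCHAIN m X l R w hm h c hR).elim
    · obtain ⟨F, h0⟩ := not_forall.1 c
      obtain ⟨h1, h2⟩ := Classical.not_imp.1 h0
      obtain ⟨v, v0, hv⟩ : ∃ v ≠ 0, ¬ ∀ᶠ ζ in 𝓝 (0 : ℂ), F.1 (ζ • v) = 0 := by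
        by_contra a
        exact h2 (dir F.2 fun v v0 => by_contra fun b => a ⟨v, v0, b⟩)
      let L0 : (Fin (n + 1) → ℂ) ≃L[ℂ] ℂ × (Fin n → ℂ) :=
        ContinuousLinearEquiv.ofFinrankEq (by simp [add_comm])
      obtain ⟨A, hA⟩ := SeparatingDual.exists_continuousLinearEquiv_apply_eq (R := ℂ)
        (x := L0 v) (y := (1, 0)) (by simpa using v0) (by simp)
      obtain ⟨L, hL⟩ : ∃ L : (Fin (n + 1) → ℂ) ≃L[ℂ] ℂ × (Fin n → ℂ), L v = (1, 0) :=
        ⟨L0.trans A, hA⟩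
      have t1 : Tendsto (fun x => L (w x)) l (𝓝 0) :=
        (L.continuous.tendsto' 0 0 (map_zero L)).comp hw
      have hI := hINT (Fin n → ℂ) X l (fun x => L (w x)) (fun p => F.1 (L.symm p)) t1
        (F.2.comp_of_eq (L.symm.toContinuousLinearMap.analyticAt 0) (map_zero _))
        (fun a => hv (a.mono fun ζ e => by
          rw [← e, ← L.symm_apply_apply (ζ • v), map_smul, hL]; simp))
        (h1.mono fun x e => by rw [L.symm_apply_apply, e])
      let φ := (ContinuousLinearMap.snd ℂ ℂ (Fin n → ℂ)).comp L.toContinuousLinearMap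
      obtain ⟨τ, hτ⟩ := ih (fun x => φ (w x)) hR ((continuous_snd.tendsto 0).comp t1)
        (fun G => hm (pull φ (φ.analyticAt 0) (map_zero φ) G))
        (fun r hr => integral_trans _ _ hI (factor _ L.symm.toContinuousLinearMap
          (fun x => L.symm_apply_apply _) (h r hr)))
      exact ⟨τ.comp φ, hτ⟩

end Pool.Agent.P.MP_56563a_an.D1

namespace Pool.Agent.P.MP_56563a_an.D1

open Filter Topology Set Polynomial

namespace PREPx

theorem val {F G : ℂ → ℂ} (hF : ContinuousAt F 0) (hG : ContinuousAt G 0)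
    (h : ∀ᶠ s in 𝓝[≠] (0 : ℂ), F s = G s) : F 0 = G 0 :=
  tendsto_nhds_unique_of_eventuallyEq (hF.tendsto.mono_left nhdsWithin_le_nhds)
    (hG.tendsto.mono_left nhdsWithin_le_nhds) h

theorem low (k : ℕ) (a : ℕ → ℂ) (β : ℂ → ℂ) (hβ : ContinuousAt β 0)
    (h : ∀ᶠ s in 𝓝[≠] (0 : ℂ), ∑ j ∈ Finset.range k, a j * s ^ j = s ^ k * β s) :
    (∀ j < k, a j = 0) ∧ β 0 = 0 := by
  induction k generalizing a with
  | zero => exact ⟨fun j hj => absurd hj (Nat.not_lt_zero j), by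
      simpa using (val (by fun_prop) (by fun_prop) h).symm⟩
  | succ k ih =>
    have h0 : a 0 = 0 := by
      simpa [Finset.sum_range_succ'] using val (by fun_prop) (by fun_prop) h
    obtain ⟨h1, h2⟩ := ih (fun j => a (j + 1)) (by
      filter_upwards [h, self_mem_nhdsWithin] with s hs n
      refine mul_right_cancel₀ (b := s) n ?_
      rw [Finset.sum_range_succ', h0, zero_mul, add_zero] at hs
      rw [Finset.sum_mul, mul_right_comm, ← pow_succ, ← hs]
      exact Finset.sum_congr rfl fun j _ => by ring)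
    refine ⟨fun j hj => ?_, h2⟩
    cases j with
    | zero => exact h0
    | succ j => exact h1 j (by omega)

end PREPx

theorem p_PREP (hWD : S_WD) :
    S_PREP := by
  intro P c _
  obtain ⟨k, hk⟩ : ∃ k, k = (P.map (ev 0)).rootMultiplicity c := ⟨_, rfl⟩
  obtain ⟨u, hu⟩ : ∃ u : ℂ[X], u = P.map (ev 0) /ₘ (X - C c) ^ k := ⟨_, rfl⟩
  have hf : AnalyticAt ℂ (fun p : ℂ × ℂ => (P.map (ev p.2)).eval (c + p.1)) 0 :=
    (analyticAt_eval P c).comp_of_eq (f := fun p : ℂ × ℂ => (c + p.1, p.2))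
      ((analyticAt_const.fun_add analyticAt_fst).prod analyticAt_snd) (by simp)
  have hua : AnalyticAt ℂ (fun s : ℂ => u.eval (c + s)) 0 :=
    (u.differentiable.comp (by fun_prop)).analyticAt 0
  have hu0 : u.eval (c + 0) ≠ 0 := by
    rw [add_zero, hu, hk]
    exact eval_divByMonic_pow_rootMultiplicity_ne_zero c ‹_›
  have hfu : ∀ s : ℂ, (P.map (ev 0)).eval (c + s) = s ^ k * u.eval (c + s) := fun s => by
    conv_lhs => rw [← pow_mul_divByMonic_rootMultiplicity_eq (P.map (ev 0)) c, ← hk, ← hu]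
    simp
  obtain ⟨q, a, hq, ha, h⟩ := hWD ℂ k _ (fun p => p.1 ^ k) _ hf (analyticAt_fst.fun_pow k) hua hu0
    (.of_forall hfu)
  have h0 : ∀ᶠ s in 𝓝 (0 : ℂ), ∑ j ∈ Finset.range k, a j 0 * s ^ j =
      s ^ k * (1 - q (s, 0) * u.eval (c + s)) := by
    have t : Tendsto (fun s : ℂ => (s, (0 : ℂ))) (𝓝 0) (𝓝 0) :=
      (Continuous.prodMk_left (0 : ℂ)).tendsto 0
    filter_upwards [t.eventually h] with s hs
    rw [hfu] at hs
    linear_combination -hs
  obtain ⟨a0, q0⟩ := PREPx.low k _ _ (continuousAt_const.sub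
    ((hq.continuousAt.comp_of_eq (f := fun s : ℂ => (s, (0 : ℂ))) (by fun_prop) rfl).mul
      hua.continuousAt)) (nhdsWithin_le_nhds h0)
  have q1 : q 0 ≠ 0 := fun e => by
    have e' : q (0, 0) = 0 := e
    simp [e'] at q0
  obtain ⟨A, hA⟩ : ∃ A : ℕ → An ℂ, ∀ j, (A j).1 = a j := ⟨fun j => ⟨a j, ha j⟩, fun _ => rfl⟩
  have dg : (∑ j ∈ Finset.range k, C (A j) * X ^ j).degree < (k : WithBot ℕ) := by
    refine (degree_sum_le _ _).trans_lt ((Finset.sup_lt_iff (WithBot.bot_lt_coe k)).2 fun j hj => ?_)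
    exact lt_of_le_of_lt (degree_C_mul_X_pow_le j _) (WithBot.coe_lt_coe.2 (Finset.mem_range.1 hj))
  have nd : (X ^ k - ∑ j ∈ Finset.range k, C (A j) * X ^ j).natDegree = k := by
    rw [natDegree_eq_of_degree_eq_some]
    rw [degree_sub_eq_left_of_degree_lt (by rwa [degree_X_pow]), degree_X_pow]
  have mp : ∀ y, (X ^ k - ∑ j ∈ Finset.range k, C (A j) * X ^ j).map (ev y) =
      X ^ k - ∑ j ∈ Finset.range k, C (a j y) * X ^ j := fun y => by
    simp [Polynomial.map_sum, hA]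
  refine ⟨_, monic_X_pow_sub dg, nd.trans hk, ?_, ?_⟩
  · rw [mp, nd, Finset.sum_eq_zero fun j hj => ?_, sub_zero]
    rw [a0 j (Finset.mem_range.1 hj), C_0, zero_mul]
  · filter_upwards [h, hq.continuousAt.eventually_ne q1] with p h1 h2 h3
    rw [mp] at h3
    simp only [eval_sub, eval_pow, eval_X, eval_finsetSum, eval_mul, eval_C] at h3
    exact (mul_eq_zero.1 (by linear_combination h3 - h1)).resolve_left h2

end Pool.Agent.P.MP_56563a_an.D1

namespace Pool.Agent.P.MP_56563a_an.D1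

open Filter Topology Set Polynomial

theorem p_SCAL :
    S_SCAL := by
  classical
  intro k a ha h0 hne
  have hex : ∀ j, ∃ (n : ℕ) (g : ℂ → ℂ), AnalyticAt ℂ g 0 ∧
      ((¬ ∀ᶠ y in 𝓝 (0 : ℂ), a j y = 0) → g 0 ≠ 0 ∧ ∀ᶠ y in 𝓝 (0 : ℂ), a j y = y ^ n * g y) := by
    intro j
    by_cases h : ∀ᶠ y in 𝓝 (0 : ℂ), a j y = 0
    · exact ⟨0, fun _ => 0, analyticAt_const, fun h' => absurd h h'⟩
    · obtain ⟨n, g, h1, h2, h3⟩ := (ha j).exists_eventuallyEq_pow_smul_nonzero_iff.2 h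
      exact ⟨n, g, h1, fun _ => ⟨h2, h3.mono fun y hy => by simpa using hy⟩⟩
  choose ν g hg hν using hex
  obtain ⟨j0, hj0, hmin⟩ := Finset.exists_min_image
    ((Finset.range k).filter fun j => ¬ ∀ᶠ y in 𝓝 (0 : ℂ), a j y = 0)
    (fun j => (ν j : ℚ) / ((k - j : ℕ) : ℚ)) (by
      obtain ⟨j, hj, h⟩ := hne
      exact ⟨j, Finset.mem_filter.2 ⟨Finset.mem_range.2 hj, h⟩⟩)
  obtain ⟨hj0k, hj0n⟩ := Finset.mem_filter.1 hj0
  rw [Finset.mem_range] at hj0k
  have hp : 1 ≤ ν j0 := by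
    by_contra h
    have h1 := (hν j0 hj0n).2.self_of_nhds
    rw [h0 j0 hj0k, show ν j0 = 0 by omega, pow_zero, one_mul] at h1
    exact (hν j0 hj0n).1 h1.symm
  have hq : 1 ≤ k - j0 := by omega
  have hpa : AnalyticAt ℂ (fun s : ℂ => s ^ (k - j0)) 0 := analyticAt_id.pow _
  have hz : (0 : ℂ) ^ (k - j0) = 0 := zero_pow (by omega)
  have ht : Tendsto (fun s : ℂ => s ^ (k - j0)) (𝓝 0) (𝓝 0) := by
    have := hpa.continuousAt.tendsto
    rwa [hz] at this
  refine ⟨ν j0, k - j0, fun j s => if ∀ᶠ y in 𝓝 (0 : ℂ), a j y = 0 then 0 else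
    s ^ ((k - j0) * ν j - ν j0 * (k - j)) * g j (s ^ (k - j0)), hp, hq, fun j => ?_,
    ⟨j0, hj0k, ?_⟩, fun j hj => ?_⟩
  · by_cases h : ∀ᶠ y in 𝓝 (0 : ℂ), a j y = 0
    · simp only [if_pos h]
      exact analyticAt_const
    · simp only [if_neg h]
      exact (analyticAt_id.pow _).mul ((hg j).comp_of_eq hpa hz)
  · simp only [if_neg hj0n]
    rw [mul_comm (k - j0), Nat.sub_self, pow_zero, one_mul, hz]
    exact (hν j0 hj0n).1
  · by_cases h : ∀ᶠ y in 𝓝 (0 : ℂ), a j y = 0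
    · simp only [if_pos h, mul_zero]
      exact ht.eventually h
    · simp only [if_neg h]
      have h1 := hmin j (Finset.mem_filter.2 ⟨Finset.mem_range.2 hj, h⟩)
      rw [div_le_div_iff₀ (by exact_mod_cast hq) (by exact_mod_cast (by omega : 0 < k - j))] at h1
      have h2 : ν j0 * (k - j) ≤ (k - j0) * ν j := by
        rw [mul_comm (k - j0)]
        exact_mod_cast h1
      filter_upwards [ht.eventually (hν j h).2] with s hs
      rw [hs, ← mul_assoc, ← pow_add, ← pow_mul, Nat.add_sub_cancel' h2]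

end Pool.Agent.P.MP_56563a_an.D1

namespace Pool.Agent.P.MP_56563a_an.D1

open Filter Topology Set Polynomial

namespace NEWTx

theorem taylor_next {R : Type} [CommRing R] (P : R[X]) (hP : P.Monic) (m : ℕ)
    (hm : P.natDegree = m + 1) (r : R) :
    (taylor r P).coeff m = P.coeff m + (m + 1 : ℕ) * r := by
  have h1 : (hasseDeriv m P).natDegree < 2 :=
    (natDegree_hasseDeriv_le P m).trans_lt (by omega)
  have h2 : P.coeff (1 + m) = 1 := by
    rw [add_comm, ← hm]; exact hP.coeff_natDegree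
  rw [taylor_coeff, eval_eq_sum_range' h1, Finset.sum_range_succ, Finset.sum_range_one,
    hasseDeriv_coeff, hasseDeriv_coeff, h2, add_comm 1 m, Nat.choose_succ_self_right]
  simp

theorem eval_monic (P : ℂ[X]) (hP : P.Monic) (k : ℕ) (hk : P.natDegree = k) (z : ℂ) :
    P.eval z = z ^ k + ∑ j ∈ Finset.range k, P.coeff j * z ^ j := by
  rw [eval_eq_sum_range, hk, Finset.sum_range_succ, ← hk, hP.coeff_natDegree, one_mul, add_comm]

theorem root (P : ℂ[X]) (hP : P.Monic) (m : ℕ) (hm : P.natDegree = m + 1) (h0 : P.coeff m = 0)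
    (j : ℕ) (hj : j < m + 1) (h1 : P.coeff j ≠ 0) :
    ∃ c, P.IsRoot c ∧ P.rootMultiplicity c < m + 1 := by
  obtain ⟨c, hc⟩ := Complex.exists_root (f := P) (natDegree_pos_iff_degree_pos.1 (by omega))
  refine ⟨c, hc, not_le.1 fun h => h1 ?_⟩
  have hd : (X - C c) ^ (m + 1) ∣ P := (le_rootMultiplicity_iff hP.ne_zero).1 h
  have hdeg : ((X - C c) ^ (m + 1) : ℂ[X]).natDegree = m + 1 := by
    rw [(monic_X_sub_C c).natDegree_pow, natDegree_X_sub_C, mul_one]
  have e : P = (X - C c) ^ (m + 1) :=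
    eq_of_monic_of_dvd_of_natDegree_le ((monic_X_sub_C c).pow _) hP hd (by rw [hm, hdeg])
  have h2 : P.nextCoeff = 0 := by
    rw [nextCoeff_of_natDegree_pos (by omega), hm]; exact h0
  rw [e, (monic_X_sub_C c).nextCoeff_pow, nextCoeff_X_sub_C, smul_eq_zero] at h2
  have hc0 : c = 0 := neg_eq_zero.1 (h2.resolve_left (Nat.succ_ne_zero m))
  rw [e, hc0, C_0, sub_zero, coeff_X_pow, if_neg hj.ne]

end NEWTx

theorem p_NEWT (hSCAL : S_SCAL) :
    S_NEWT := by
  intro W hW hk hW0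
  obtain ⟨m, hm⟩ : ∃ m, W.natDegree = m + 1 := ⟨W.natDegree - 1, by omega⟩
  rw [hm] at hW0 ⊢
  have hmC : ((m + 1 : ℕ) : ℂ) ≠ 0 := Nat.cast_ne_zero.2 (Nat.succ_ne_zero m)
  let ρ : An ℂ := ⟨fun y => -(W.coeff m).1 y / (m + 1 : ℕ),
    ((W.coeff m).2.fun_neg).fun_div analyticAt_const hmC⟩
  have hdegy : ∀ y, (W.map (ev y)).natDegree = m + 1 := fun y => by rw [hW.natDegree_map, hm]
  have hρ0 : ρ.1 0 = 0 := by
    have h := congrArg (fun P : ℂ[X] => P.coeff m) hW0
    simp only [coeff_map, ev_apply, coeff_X_pow, if_neg (Nat.lt_succ_self m).ne] at h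
    change -(W.coeff m).1 0 / _ = 0
    rw [h, neg_zero, zero_div]
  let a : ℕ → ℂ → ℂ := fun j => ((taylor ρ W).coeff j).1
  have ha : ∀ j y, a j y = (taylor (ρ.1 y) (W.map (ev y))).coeff j := fun j y => by
    rw [← ev_apply y ρ, ← map_taylor, coeff_map]; rfl
  have hmon : ∀ y, (taylor (ρ.1 y) (W.map (ev y))).Monic := fun y => by
    rw [Monic, leadingCoeff_taylor]; exact hW.map _
  have hev : ∀ y ζ, (W.map (ev y)).eval (ρ.1 y + ζ) =
      ζ ^ (m + 1) + ∑ j ∈ Finset.range (m + 1), a j y * ζ ^ j := fun y ζ => by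
    rw [add_comm, ← taylor_eval, NEWTx.eval_monic _ (hmon y) (m + 1)
      (by rw [natDegree_taylor, hdegy])]
    simp only [ha]
  have ham : ∀ y, a m y = 0 := fun y => by
    rw [ha, NEWTx.taylor_next _ (hW.map _) m (hdegy y), coeff_map, ev_apply]
    change _ + _ * (-(W.coeff m).1 y / _) = 0
    field_simp
    ring
  have ha0 : ∀ j < m + 1, a j 0 = 0 := fun j hj => by
    rw [ha, hρ0, taylor_zero, hW0, coeff_X_pow, if_neg hj.ne]
  by_cases hall : ∃ j < m + 1, ¬ ∀ᶠ y in 𝓝 (0 : ℂ), a j y = 0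
  · right
    obtain ⟨p, q, b, hp, hq, hb, ⟨j, hj, hbj⟩, hab⟩ :=
      hSCAL (m + 1) a (fun j => ((taylor ρ W).coeff j).2) ha0 hall
    let V : (An ℂ)[X] := X ^ (m + 1) + ∑ j ∈ Finset.range (m + 1), C (⟨b j, hb j⟩ : An ℂ) * X ^ j
    have hV : ∀ s, V.map (ev s) = X ^ (m + 1) + ∑ j ∈ Finset.range (m + 1), C (b j s) * X ^ j :=
      fun s => by simp [V, Polynomial.map_sum]
    have hlt : (∑ j ∈ Finset.range (m + 1), C (b j 0) * X ^ j : ℂ[X]).degree < (m + 1 : ℕ) := by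
      rw [Finset.sum_range fun j => (C (b j 0) * X ^ j : ℂ[X])]
      exact degree_sum_fin_lt _
    have hVm : (V.map (ev 0)).Monic := by rw [hV]; exact monic_X_pow_add hlt
    have hVd : (V.map (ev 0)).natDegree = m + 1 := by
      rw [hV, natDegree_add_eq_left_of_degree_lt (by rwa [degree_X_pow]), natDegree_X_pow]
    have hVc : ∀ i < m + 1, (V.map (ev 0)).coeff i = b i 0 := fun i hi => by
      rw [hV, coeff_add, coeff_X_pow, if_neg hi.ne, zero_add, finsetSum_coeff]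
      simp only [coeff_C_mul_X_pow]
      rw [Finset.sum_ite_eq, if_pos (Finset.mem_range.2 hi)]
    have hbm : b m 0 = 0 := by
      have h1 : ∀ᶠ s in 𝓝[≠] (0 : ℂ), b m s = 0 := by
        filter_upwards [nhdsWithin_le_nhds (hab m (Nat.lt_succ_self m)), self_mem_nhdsWithin]
          with s hs hs0
        rw [ham] at hs
        exact (mul_eq_zero.1 hs.symm).resolve_left (pow_ne_zero _ hs0)
      exact tendsto_nhds_unique ((hb m).continuousAt.tendsto.mono_left nhdsWithin_le_nhds)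
        (tendsto_const_nhds.congr' (EventuallyEq.symm h1))
    obtain ⟨c, hc, hcm⟩ := NEWTx.root _ hVm m hVd (by rw [hVc m (Nat.lt_succ_self m), hbm]) j hj
      (by rwa [hVc j hj])
    refine ⟨p, q, ρ, V, c, hp, hq, hρ0, hVm.ne_zero, hc, hcm, ?_⟩
    have hall' : ∀ᶠ s in 𝓝 (0 : ℂ), ∀ j ∈ Finset.range (m + 1),
        a j (s ^ q) = s ^ (p * (m + 1 - j)) * b j s :=
      (Finset.eventually_all _).2 fun j hj => hab j (Finset.mem_range.1 hj)
    filter_upwards [hall'] with s hs ξ hξ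
    rw [hV] at hξ
    simp only [eval_add, eval_pow, eval_X, eval_finsetSum, eval_mul, eval_C] at hξ
    rw [hev, ← mul_zero (s ^ (p * (m + 1))), ← hξ, mul_add, Finset.mul_sum, mul_pow, ← pow_mul]
    congr 1
    refine Finset.sum_congr rfl fun j hj => ?_
    obtain ⟨d, hd⟩ := Nat.exists_eq_add_of_le (Finset.mem_range.1 hj).le
    rw [hs j hj, hd, Nat.add_sub_cancel_left]
    ring
  · left
    refine ⟨ρ, hρ0, ?_⟩
    have h0 : ∀ᶠ y in 𝓝 (0 : ℂ), a 0 y = 0 := by
      by_contra h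
      exact hall ⟨0, Nat.succ_pos m, h⟩
    filter_upwards [h0] with y hy
    have := hev y 0
    rw [add_zero, Finset.sum_range_succ'] at this
    rw [this]
    simp [hy]

end Pool.Agent.P.MP_56563a_an.D1

namespace Pool.Agent.P.MP_56563a_an.D1

open Filter Topology Set Polynomial

namespace ROOTx

theorem tend {f : ℂ → ℂ} (h : AnalyticAt ℂ f 0) (h0 : f 0 = 0) : Tendsto f (𝓝 0) (𝓝 0) := by
  have := h.continuousAt.tendsto
  rwa [h0] at this

theorem an_pow (e : ℕ) : AnalyticAt ℂ (fun s : ℂ => s ^ e) 0 := analyticAt_id.fun_pow e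

theorem tend_pow {e : ℕ} (he : 1 ≤ e) : Tendsto (fun s : ℂ => s ^ e) (𝓝 0) (𝓝 0) :=
  tend (an_pow e) (zero_pow (by omega))

theorem fin {P W : (An ℂ)[X]} {c : ℂ} {e : ℕ} (he : 1 ≤ e) {ψ : ℂ → ℂ} (hψ : AnalyticAt ℂ ψ 0)
    (h0 : ψ 0 = 0)
    (h : ∀ᶠ p in 𝓝 (0 : ℂ × ℂ), (W.map (ev p.2)).eval p.1 = 0 → (P.map (ev p.2)).eval (c + p.1) = 0)
    (h' : ∀ᶠ s in 𝓝 (0 : ℂ), (W.map (ev (s ^ e))).eval (ψ s) = 0) :
    ∃ (e : ℕ) (φ : An ℂ), 1 ≤ e ∧ φ.1 0 = c ∧
      ∀ᶠ s in 𝓝 (0 : ℂ), (P.map (ev (s ^ e))).eval (φ.1 s) = 0 := by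
  have t : Tendsto (fun s : ℂ => (ψ s, s ^ e)) (𝓝 0) (𝓝 (0 : ℂ × ℂ)) :=
    (tend hψ h0).prodMk_nhds (tend_pow he)
  refine ⟨e, ⟨fun s => c + ψ s, analyticAt_const.fun_add hψ⟩, he, by simp [h0], ?_⟩
  filter_upwards [t.eventually h, h'] with s a b
  exact a b

end ROOTx

theorem p_ROOT (hPREP : S_PREP) (hNEWT : S_NEWT) :
    S_ROOT := by
  intro P c
  induction hn : (P.map (ev 0)).rootMultiplicity c using Nat.strong_induction_on
    generalizing P c with
  | _ n ih =>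
    intro hP hc
    obtain ⟨W, hm, hd, hW, hev⟩ := hPREP P c hP
    have h1 : 1 ≤ W.natDegree := hd ▸ (rootMultiplicity_pos hP).2 hc
    rcases hNEWT W hm h1 hW with ⟨ρ, r0, hρ⟩ | ⟨p, q, ρ, V, c', hp, hq, r0, hV, hc', hlt, hs⟩
    · exact ROOTx.fin (e := 1) le_rfl (An.an ρ) r0 hev (by simpa using hρ)
    · obtain ⟨e, φ, he, -, hφ⟩ := ih _ (hn ▸ hd ▸ hlt) V c' rfl hV hc'
      have heq : 1 ≤ e * q := Nat.mul_pos he hq
      have z : ((0 : ℂ) ^ e) ^ q = 0 := by rw [← pow_mul, zero_pow (by omega)]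
      have z' : ((0 : ℂ) ^ e) ^ p = 0 := by rw [zero_pow (by omega), zero_pow (by omega)]
      refine ROOTx.fin (e := e * q) heq
        (ψ := fun s => ρ.1 ((s ^ e) ^ q) + (s ^ e) ^ p * φ.1 s)
        (((An.an ρ).comp_of_eq ((ROOTx.an_pow e).fun_pow q) z).fun_add
          (((ROOTx.an_pow e).fun_pow p).fun_mul (An.an φ)))
        (by simp only [z, z', r0, zero_mul, add_zero]) hev ?_
      filter_upwards [(ROOTx.tend_pow he).eventually hs, hφ] with s a b
      rw [pow_mul]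
      exact a _ b

end Pool.Agent.P.MP_56563a_an.D1

namespace Pool.Agent.P.MP_56563a_an.D1

open Filter Topology Set Polynomial

namespace SPLITx

theorem an_pow (e : ℕ) : AnalyticAt ℂ (fun s : ℂ => s ^ e) 0 := analyticAt_id.fun_pow e

theorem pow_zero' {e : ℕ} (he : 1 ≤ e) : (fun s : ℂ => s ^ e) 0 = 0 := zero_pow (by omega)

theorem tend {e : ℕ} (he : 1 ≤ e) : Tendsto (fun s : ℂ => s ^ e) (𝓝 0) (𝓝 0) := by
  have h := (an_pow e).continuousAt.tendsto
  rwa [zero_pow (by omega)] at h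

end SPLITx

open SPLITx in
theorem p_SPLIT (hROOT : S_ROOT) :
    S_SPLIT := by
  classical
  intro P hP
  have : Nontrivial (An ℂ) := (ev (0 : ℂ)).domain_nontrivial
  obtain ⟨n, hn⟩ : ∃ n, P.natDegree = n := ⟨_, rfl⟩
  induction n generalizing P with
  | zero =>
    have h1 : P = 1 := hP.natDegree_eq_zero.1 hn
    refine ⟨1, ∅, le_rfl, .of_forall fun s ζ h => ?_⟩
    simp [h1] at h
  | succ n ih =>
    have hm0 : (P.map (ev (0 : ℂ))).Monic := hP.map _
    have hd0 : 0 < (P.map (ev (0 : ℂ))).degree := by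
      rw [← natDegree_pos_iff_degree_pos, hP.natDegree_map, hn]
      omega
    obtain ⟨c, hc⟩ := Complex.exists_root hd0
    obtain ⟨e, φ, he, -, hφ⟩ := hROOT P c hm0.ne_zero hc
    set P1 : (An ℂ)[X] := P.map (pull (fun s : ℂ => s ^ e) (an_pow e) (pow_zero' he)) with hP1
    have hm1 : P1.Monic := hP.map _
    have hd1 : P1.natDegree = n + 1 := by rw [hP1, hP.natDegree_map, hn]
    have hX : (X - C φ : (An ℂ)[X]).Monic := monic_X_sub_C φ
    have hQd : (P1 /ₘ (X - C φ)).natDegree = n := by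
      rw [natDegree_divByMonic _ hX, hd1, natDegree_X_sub_C]
      omega
    have hQm : (P1 /ₘ (X - C φ)).Monic := by
      have hle : (X - C φ : (An ℂ)[X]).degree ≤ P1.degree := by
        rw [degree_X_sub_C, degree_eq_natDegree hm1.ne_zero, hd1]
        exact_mod_cast Nat.succ_le_succ (Nat.zero_le n)
      have := leadingCoeff_divByMonic_of_monic hX hle
      rw [Monic, this]
      exact hm1
    obtain ⟨e', L', he', hL'⟩ := ih _ hQm hQd
    refine ⟨e' * e, insert (pull (fun s : ℂ => s ^ e') (an_pow e') (pow_zero' he') φ) L',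
      Nat.mul_pos he' he, ?_⟩
    have hmap : ∀ t : ℂ, P1.map (ev t) = P.map (ev (t ^ e)) := fun t => by
      rw [hP1, Polynomial.map_map, ev_comp_pull]
    have hdec : C (P1.eval φ) + (X - C φ) * (P1 /ₘ (X - C φ)) = P1 := by
      rw [← modByMonic_X_sub_C_eq_C_eval]
      exact modByMonic_add_div P1 _
    filter_upwards [hL', (tend he').eventually hφ] with s h1 h2 ζ hζ
    rw [pow_mul, ← hmap] at hζ
    rw [← hmap] at h2
    have h3 : ev (s ^ e') (P1.eval φ) = 0 := by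
      rw [← h2, eval_map (p := P1)]
      exact (eval₂_hom (ev (s ^ e')) φ).symm
    rw [← hdec] at hζ
    simp only [Polynomial.map_add, Polynomial.map_mul, Polynomial.map_sub, map_C, map_X, eval_add,
      eval_mul, eval_sub, eval_C, eval_X, h3, zero_add] at hζ
    rcases mul_eq_zero.1 hζ with h | h
    · exact ⟨_, Finset.mem_insert_self _ _, (sub_eq_zero.1 h).symm⟩
    · obtain ⟨ρ, hρ, hρ'⟩ := h1 ζ h
      exact ⟨ρ, Finset.mem_insert_of_mem hρ, hρ'⟩

end Pool.Agent.P.MP_56563a_an.D1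

namespace Pool.Agent.P.MP_56563a_an.D1

open Filter Topology Set Polynomial

namespace SEPx

/-- The functionals that do not separate two germs. -/
def bad {n : ℕ} (a b : ℂ → Fin n → ℂ) : Submodule ℂ ((Fin n → ℂ) →L[ℂ] ℂ) where
  carrier := {μ | ∀ᶠ s in 𝓝 (0 : ℂ), μ (a s) = μ (b s)}
  zero_mem' := Eventually.of_forall fun _ => rfl
  add_mem' := fun {μ ν} hμ hν => by
    filter_upwards [hμ, hν] with s h1 h2
    rw [ContinuousLinearMap.add_apply, ContinuousLinearMap.add_apply, h1, h2]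
  smul_mem' := fun t μ hμ => by
    filter_upwards [hμ] with s h1
    rw [ContinuousLinearMap.smul_apply, ContinuousLinearMap.smul_apply, h1]

theorem eq_of_top {n : ℕ} {a b : ℂ → Fin n → ℂ} (h : bad a b = ⊤) : a =ᶠ[𝓝 0] b := by
  have : ∀ i, ∀ᶠ s in 𝓝 (0 : ℂ), a s i = b s i := fun i =>
    show ContinuousLinearMap.proj i ∈ bad a b from h ▸ Submodule.mem_top
  exact (eventually_all.2 this).mono fun s hs => funext hs

end SEPx

theorem p_SEP :
    S_SEP := by
  intro n C hC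
  let γ : (ℂ → Fin n → ℂ) → Germ (𝓝 (0 : ℂ)) (Fin n → ℂ) := fun a => (a : Germ _ _)
  have : Finite (γ '' C) := hC.image γ
  obtain ⟨r, ⟨e⟩⟩ := Finite.exists_equiv_fin (γ '' C)
  choose c hc1 hc2 using fun j : Fin r => (e.symm j).2
  obtain ⟨μ, hμ⟩ := Submodule.exists_forall_notMem_of_forall_ne_top
    (fun q : {q : Fin r × Fin r // q.1 ≠ q.2} => SEPx.bad (c q.1.1) (c q.1.2)) fun q h => by
      refine q.2 (e.symm.injective (Subtype.ext ?_))
      rw [← hc2, ← hc2]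
      exact Germ.coe_eq.2 (SEPx.eq_of_top h)
  refine ⟨r, c, μ, hc1, fun c₀ h0 => ⟨e ⟨γ c₀, c₀, h0, rfl⟩, ?_⟩, fun i j hij => hμ ⟨(i, j), hij⟩⟩
  have := hc2 (e ⟨γ c₀, c₀, h0, rfl⟩)
  rw [e.symm_apply_apply] at this
  exact Germ.coe_eq.1 this.symm

end Pool.Agent.P.MP_56563a_an.D1

namespace Pool.Agent.P.MP_56563a_an.D1

open Filter Topology Set Polynomial

theorem p_CAND (hSPLIT : S_SPLIT) (hSEP : S_SEP) :
    S_CAND := by
  classical
  intro n m a τ P g hP hg
  obtain ⟨e, L, he, hL⟩ := hSPLIT P hP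
  let cd : (Fin n → An ℂ) → ℂ → Fin n → ℂ := fun ρ s i => (ρ i).1 s
  have hcd : ∀ ρ, AnalyticAt ℂ (cd ρ) 0 := fun ρ => analyticAt_pi_iff.2 fun i => An.an (ρ i)
  let T := Fintype.piFinset fun _ : Fin n => L
  let C : Set (ℂ → Fin n → ℂ) := {c | c ∈ cd '' T ∧ c 0 = a ∧
    ∀ᶠ s in 𝓝 (0 : ℂ), (∀ i, g i (c s) = 0) ∧ τ (c s - a) = s ^ e}
  have hC : C.Finite := (T.finite_toSet.image cd).subset fun c hc => hc.1
  obtain ⟨r, c, μ, h1, h2, h3⟩ := hSEP n C hC
  refine ⟨e, r, c, μ, he, fun j => ?_, h3, ?_⟩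
  · obtain ⟨⟨ρ, -, hρ⟩, h4, h5⟩ := h1 j
    exact ⟨hρ ▸ hcd ρ, h4, h5⟩
  · have hs : Tendsto Prod.snd (𝓝 (a, (0 : ℂ))) (𝓝 0) := continuous_snd.tendsto _
    have key : ∀ ρ ∈ T, ∀ᶠ q in 𝓝 (a, (0 : ℂ)), (∀ i, g i q.1 = 0) → τ (q.1 - a) = q.2 ^ e →
        q.1 = cd ρ q.2 → q.1 = a ∨ ∃ j, q.1 = c j q.2 := by
      intro ρ hρ
      by_cases h0 : cd ρ 0 = a
      · by_cases hgood : ∀ᶠ s in 𝓝 (0 : ℂ), (∀ i, g i (cd ρ s) = 0) ∧ τ (cd ρ s - a) = s ^ e
        · obtain ⟨j, hj⟩ := h2 (cd ρ) ⟨⟨ρ, hρ, rfl⟩, h0, hgood⟩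
          filter_upwards [hs.eventually hj] with q hq _ _ h
          exact Or.inr ⟨j, h.trans hq⟩
        · have hp : ∀ᶠ s in 𝓝[≠] (0 : ℂ),
              ¬ ((∀ i, g i (cd ρ s) = 0) ∧ τ (cd ρ s - a) = s ^ e) := by
            rw [eventually_and, eventually_all, not_and_or, not_forall] at hgood
            rcases hgood with ⟨i, hi⟩ | hi
            · have an : AnalyticAt ℂ (fun s => g i (cd ρ s)) 0 := (hg i).comp_of_eq (hcd ρ) h0
              have := an.eventually_eq_zero_or_eventually_ne_zero.resolve_left hi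
              exact this.mono fun s hs h => hs (h.1 i)
            · have an : AnalyticAt ℂ (fun s => τ (cd ρ s - a) - s ^ e) 0 :=
                ((τ.analyticAt _).comp ((hcd ρ).fun_sub analyticAt_const)).fun_sub
                  (analyticAt_id.fun_pow e)
              have := an.eventually_eq_zero_or_eventually_ne_zero.resolve_left
                fun h => hi (h.mono fun s hs => sub_eq_zero.1 hs)
              exact this.mono fun s hs h => hs (sub_eq_zero.2 h.2)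
          rw [eventually_nhdsWithin_iff] at hp
          filter_upwards [hs.eventually hp] with q hq h4 h5 h6
          by_cases hq0 : q.2 = 0
          · left
            rw [h6, hq0, h0]
          · exact absurd ⟨h6 ▸ h4, h6 ▸ h5⟩ (hq hq0)
      · have hc : ContinuousAt (fun q : (Fin n → ℂ) × ℂ => q.1 - cd ρ q.2) (a, 0) :=
          continuousAt_fst.sub ((hcd ρ).continuousAt.comp_of_eq continuousAt_snd rfl)
        filter_upwards [hc.eventually_ne (sub_ne_zero.2 (Ne.symm h0))] with q hq _ _ h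
        exact absurd (sub_eq_zero.2 h) hq
    filter_upwards [(eventually_all_finset T).2 key, hs.eventually hL] with q hq hq2 h4 h5 h6
    choose ρ hρ1 hρ2 using fun i => hq2 _ (h5 i)
    exact hq ρ (Fintype.mem_piFinset.2 hρ1) h4 h6 (funext fun i => (hρ2 i).symm)

end Pool.Agent.P.MP_56563a_an.D1

namespace Pool.Agent.P.MP_56563a_an.D1

open Filter Topology Set Polynomial

theorem p_POLY (hNORM : S_NORM) :
    S_POLY := by
  intro X _ S x n U z hz hx hd
  obtain ⟨τ, hτ⟩ := hNORM n X (𝓝 x) (S.stalk x) (fun y => z y - z x) hd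
    (by simpa using (hz.continuousAt hx).tendsto.sub_const (z x))
    (fun F => ⟨_, hz.hol_comp hx (F := fun v => F.1 (v - z x))
      ((An.an F).comp_of_eq (analyticAt_id.fun_sub analyticAt_const) (sub_self _)), rfl⟩)
    (by
      rintro _ ⟨f, hf, rfl⟩
      obtain ⟨F, hF, e⟩ := (hz.hol x hx f).1 hf
      have hG : AnalyticAt ℂ (fun v => F (v + z x)) 0 :=
        hF.comp_of_eq (analyticAt_id.fun_add analyticAt_const) (zero_add _)
      have : (f : Germ (𝓝 x) ℂ) = cw (𝓝 x) (fun y => z y - z x) ⟨_, hG⟩ := by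
        rw [cw_apply, Germ.coe_eq]
        simpa [Function.comp_def] using e
      rw [this]
      exact RingHom.isIntegralElem_map _)
  have h : ∀ i, ∃ P : Polynomial (An ℂ), P.Monic ∧
      ∀ᶠ y in 𝓝 x, (P.map (ev (τ (z y - z x)))).eval (z y i) = 0 := fun i => by
    obtain ⟨P, hP, e⟩ := hτ _ ⟨_, hz.hol_comp hx (an_coord i _), rfl⟩
    rw [eval₂_cw] at e
    exact ⟨P, hP, Germ.coe_eq.1 e⟩
  choose P hP e using h
  refine ⟨τ, ∏ i, P i, monic_prod_of_monic _ _ fun i _ => hP i, ?_⟩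
  filter_upwards [eventually_all.2 e] with y hy i
  rw [Polynomial.map_prod, eval_prod]
  exact Finset.prod_eq_zero (Finset.mem_univ i) (hy i)

end Pool.Agent.P.MP_56563a_an.D1

namespace Pool.Agent.P.MP_56563a_an.D1

open Filter Topology Set Polynomial

theorem p_LIFT :
    S_LIFT := by
  classical
  intro X _ S x n U z c h hx hc c0 hU
  obtain ⟨γ', hγ⟩ : ∃ γ' : ℂ → U, ∀ s, c s ∈ z '' U → z (γ' s) = c s :=
    ⟨fun s => if e : c s ∈ z '' U then ⟨e.choose, e.choose_spec.1⟩ else ⟨x, hx⟩, fun s e => by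
      simp only [dif_pos e]
      exact e.choose_spec.2⟩
  have hz : ∀ᶠ s in 𝓝 (0 : ℂ), z (γ' s) = c s := hU.mono hγ
  refine ⟨fun s => γ' s, ⟨h.injOn (γ' 0).2 hx (hz.self_of_nhds.trans c0), ?_⟩,
    hz.mono fun s e => ⟨(γ' s).2, e⟩⟩
  filter_upwards [eventually_eventually_nhds.2 hz, hc.eventually_analyticAt] with s e a
  have h1 : ContinuousAt γ' s :=
    h.emb.isInducing.continuousAt_iff.2 (a.continuousAt.congr (e.mono fun _ e' => e'.symm))
  have h2 : ContinuousAt (fun s => (γ' s : X)) s := continuous_subtype_val.continuousAt.comp h1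
  refine ⟨h2, fun f hf => ?_⟩
  obtain ⟨F, hF, e'⟩ := (h.hol _ (γ' s).2 f).1 hf
  refine (hF.comp_of_eq a e.self_of_nhds.symm).congr ?_
  filter_upwards [e, h2.eventually e'] with t b b'
  rw [b', Function.comp_apply, Function.comp_apply, b]

end Pool.Agent.P.MP_56563a_an.D1

namespace Pool.Agent.P.MP_56563a_an.D1

open Filter Topology Set Polynomial

theorem p_ARCS (hPOLY : S_POLY) (hCAND : S_CAND) (hLIFT : S_LIFT) :
    S_ARCS := by
  intro X _ S x hd
  obtain ⟨n, U, z, hx, hc⟩ := S.exists_chart x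
  obtain ⟨τ, P, hP, hev⟩ := hPOLY X S x n U z hc hx hd
  obtain ⟨m, g, hg, heq⟩ := hc.eqs x hx
  obtain ⟨e, r, c, μ, he, hc1, hsep, hcov⟩ := hCAND n m (z x) τ P g hP hg
  have hl : ∀ j, ∃ γ : ℂ → X, S.IsArc γ x ∧ ∀ᶠ s in 𝓝 (0 : ℂ), γ s ∈ U ∧ z (γ s) = c j s := by
    intro j
    obtain ⟨h1, h2, h3⟩ := hc1 j
    refine hLIFT X S x n U z (c j) hc hx h1 h2 ?_
    have ht : Tendsto (c j) (𝓝 0) (𝓝 (z x)) := h2 ▸ h1.continuousAt.tendsto
    filter_upwards [ht.eventually heq, h3] with s a b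
    exact a.2 b.1
  choose γ hγ hγ' using hl
  have hz : Tendsto z (𝓝 x) (𝓝 (z x)) := (hc.continuousAt hx).tendsto
  refine ⟨r, e, γ, fun y => τ (z y - z x), fun y => μ (z y), he, ?_, ?_, ?_, hγ, ?_, ?_, ?_⟩
  · exact hc.hol_comp hx (F := fun v => τ (v - z x))
      ((τ.analyticAt _).comp_of_eq (analyticAt_id.sub analyticAt_const) rfl)
  · simp
  · exact hc.hol_comp hx (F := fun v => μ v) (μ.analyticAt _)
  · intro j
    filter_upwards [hγ' j, (hc1 j).2.2] with s a b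
    rw [a.2]
    exact b.2
  · intro i j hij h
    refine hsep i j hij ?_
    filter_upwards [h, hγ' i, hγ' j] with s a b b'
    rw [← b.2, ← b'.2]
    exact a
  · have f1 : Tendsto (fun q : X × ℂ => q.1) (𝓝 (x, 0)) (𝓝 x) := continuous_fst.tendsto _
    have f2 : Tendsto (fun q : X × ℂ => q.2) (𝓝 (x, 0)) (𝓝 0) := continuous_snd.tendsto _
    have f3 : Tendsto (fun q : X × ℂ => (z q.1, q.2)) (𝓝 (x, 0)) (𝓝 (z x, 0)) :=
      (hz.comp f1).prodMk_nhds f2
    have hall : ∀ᶠ s in 𝓝 (0 : ℂ), ∀ j, γ j s ∈ U ∧ z (γ j s) = c j s :=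
      eventually_all.2 hγ'
    filter_upwards [f3.eventually hcov, f1.eventually (hc.isOpen.mem_nhds hx),
      f1.eventually hev, (hz.comp f1).eventually heq, f2.eventually hall] with q a b b1 b2 b3 ht
    have ht' : τ (z q.1 - z x) = q.2 ^ e := ht
    rcases a (b2.1 ⟨q.1, b, rfl⟩) (fun i => ht' ▸ b1 i) ht' with h | ⟨j, h⟩
    · exact Or.inl (hc.injOn b hx h)
    · exact Or.inr ⟨j, hc.injOn b (b3 j).1 (h.trans (b3 j).2.symm)⟩

end Pool.Agent.P.MP_56563a_an.D1
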