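import Pool.Agent.P.MP_56563a_an.D1.Iface
import Pool.Agent.P.MP_56563a_an.D1.SCV

/-! Steps DESC LAG CON LD DISC ALIM LIM LC FS1 FS INTERP LOG SR1. -/

set_option autoImplicit false
set_option linter.unusedSectionVars false
set_option linter.unusedVariables false

namespace Pool.Agent.P.MP_56563a_an.D1

open Filter Topology Set Polynomial

theorem p_DESC :
    S_DESC := by
  intro c e he hc h
  have e0 : e ≠ 0 := by omega
  have ec : (e : ℂ) ≠ 0 := Nat.cast_ne_zero.2 e0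
  obtain ⟨δ1, p1, h1⟩ := Metric.eventually_nhds_iff.1 h
  obtain ⟨δ2, p2, h2⟩ := Metric.eventually_nhds_iff.1 hc.eventually_analyticAt
  obtain ⟨δ, p, l1, l2⟩ : ∃ δ : ℝ, 0 < δ ∧ δ ≤ δ1 ∧ δ ≤ δ2 :=
    ⟨min δ1 δ2, lt_min p1 p2, min_le_left _ _, min_le_right _ _⟩
  obtain ⟨ρ, hρ, cρ⟩ : ∃ ρ : ℂ → ℂ, (∀ t, ρ t ^ e = t) ∧ ContinuousAt ρ 0 := by
    refine ⟨fun t => t ^ ((e : ℂ)⁻¹), fun t => Complex.cpow_nat_inv_pow t e0,
      Complex.continuousAt_cpow_const_of_re_pos (Or.inl le_rfl) ?_⟩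
    rw [← Complex.ofReal_natCast, ← Complex.ofReal_inv, Complex.ofReal_re]
    exact inv_pos.2 (Nat.cast_pos.2 he)
  have ρ0 : ρ 0 = 0 := (pow_eq_zero_iff e0).1 (hρ 0)
  have nr : ∀ s : ℂ, ‖s ^ e‖ < δ ^ e → ‖s‖ < δ := fun s hs =>
    lt_of_pow_lt_pow_left₀ e p.le (by rwa [norm_pow] at hs)
  have key : ∀ s : ℂ, ‖s‖ < δ → c s = c (ρ (s ^ e)) := fun s hs => by
    by_cases z : s = 0
    · rw [z, zero_pow e0, ρ0]
    · have a1 : ‖ρ (s ^ e)‖ < δ := nr _ (by
        rw [hρ, norm_pow]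
        exact pow_lt_pow_left₀ hs (norm_nonneg _) e0)
      refine h1 (y := (s, ρ (s ^ e))) ?_ z (hρ _).symm
      rw [dist_zero_right, Prod.norm_def]
      exact (max_lt hs a1).trans_le l1
  have ball : ∀ η : ℝ, 0 < η → ∀ᶠ s in 𝓝 (0 : ℂ), ‖s‖ < η := fun η hη =>
    Metric.eventually_nhds_iff.2 ⟨η, hη, fun y hy => by rwa [dist_zero_right] at hy⟩
  refine ⟨fun t => c (ρ t), ?_, (ball δ p).mono key⟩
  refine Complex.analyticAt_of_differentiable_on_punctured_nhds_of_continuousAt ?_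
    (ContinuousAt.comp (by rw [ρ0]; exact hc.continuousAt) cρ)
  filter_upwards [self_mem_nhdsWithin, nhdsWithin_le_nhds (ball _ (pow_pos p e))] with t0 z ht
  have z' : t0 ≠ 0 := z
  have a1 : ‖ρ t0‖ < δ := nr _ (by rwa [hρ])
  have dr : DifferentiableAt ℂ (fun t => ρ t0 * Complex.exp (Complex.log (t / t0) / e)) t0 := by
    refine (DifferentiableAt.cexp (DifferentiableAt.div_const (DifferentiableAt.clog
      (differentiableAt_id.div_const t0) ?_) _)).const_mul _
    rw [div_self z']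
    exact Complex.one_mem_slitPlane
  have dc : DifferentiableAt ℂ c (ρ t0 * Complex.exp (Complex.log (t0 / t0) / e)) := by
    rw [div_self z', Complex.log_one, zero_div, Complex.exp_zero, mul_one]
    exact (h2 (by rw [dist_zero_right]; exact a1.trans_le l2)).differentiableAt
  refine (dc.comp t0 dr).congr_of_eventuallyEq ?_
  filter_upwards [isOpen_ne.mem_nhds z', (isOpen_lt continuous_norm continuous_const).mem_nhds ht]
    with t a2 a3
  have a4 : (ρ t0 * Complex.exp (Complex.log (t / t0) / e)) ^ e = t := by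
    rw [mul_pow, hρ, ← Complex.exp_nat_mul, mul_div_cancel₀ _ ec,
      Complex.exp_log (div_ne_zero a2 z'), mul_div_cancel₀ _ z']
  have a5 := key _ (nr (ρ t0 * Complex.exp (Complex.log (t / t0) / e)) (by rwa [a4]))
  rw [a4] at a5
  exact a5.symm

end Pool.Agent.P.MP_56563a_an.D1

namespace Pool.Agent.P.MP_56563a_an.D1

open Filter Topology Set Polynomial

theorem p_LAG :
    S_LAG := by
  intro m w hw hs
  have h1 : ∀ j, ∃ (N : ℕ) (u : ℂ → ℂ), AnalyticAt ℂ u 0 ∧ u 0 ≠ 0 ∧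
      ∀ᶠ s in 𝓝 (0 : ℂ), ∏ i ∈ Finset.univ.erase j, (w j s - w i s) = (s - 0) ^ N • u s := by
    intro j
    refine (Finset.analyticAt_fun_prod _ fun i _ =>
      (hw j).fun_sub (hw i)).exists_eventuallyEq_pow_smul_nonzero_iff.2 fun h => ?_
    have a : ∀ᶠ s in 𝓝[≠] (0 : ℂ), ∀ i ∈ Finset.univ.erase j, w j s ≠ w i s :=
      (eventually_all_finset _).2 fun i hi => ((hw j).eventually_eq_or_eventually_ne
        (hw i)).resolve_left (hs j i (Finset.ne_of_mem_erase hi).symm)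
    obtain ⟨s, a, b⟩ := (a.and (h.filter_mono nhdsWithin_le_nhds)).exists
    exact Finset.prod_ne_zero_iff.2 (fun i hi => sub_ne_zero.2 (a i hi)) b
  choose N u hu u0 e using h1
  refine ⟨∑ j, N j + 1, fun v hv => ?_⟩
  choose β hβ e' using hv
  have hN : ∀ j, ∃ d, ∑ j, N j = N j + d := fun j => Nat.exists_eq_add_of_le
    (Finset.single_le_sum (fun _ _ => Nat.zero_le _) (Finset.mem_univ j))
  choose d hd using hN
  let B : Fin m → An ℂ := fun j => ⟨fun s => s ^ (d j + 1) * β j s / u j s,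
    ((analyticAt_id.fun_pow _).fun_mul (hβ j)).fun_div (hu j) (u0 j)⟩
  refine ⟨∑ j, C (B j) * ∏ i ∈ Finset.univ.erase j, (X - C ⟨w i, hw i⟩), ?_, ?_, ?_⟩
  · refine (degree_sum_le _ _).trans_lt ((Finset.sup_lt_iff (WithBot.bot_lt_coe m)).2
      fun j _ => degree_le_natDegree.trans_lt (Nat.cast_lt.2 ?_))
    have a : ∑ i ∈ Finset.univ.erase j, (X - C (⟨w i, hw i⟩ : An ℂ)).natDegree ≤
        ∑ i ∈ Finset.univ.erase j, 1 := Finset.sum_le_sum fun i _ => natDegree_X_sub_C_le _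
    refine ((natDegree_C_mul_le _ _).trans ((natDegree_prod_le _ _).trans a)).trans_lt ?_
    simpa using j.pos
  · simp [Polynomial.map_sum, B]
  · filter_upwards [eventually_all.2 e, eventually_all.2 e', eventually_all.2 fun j =>
      (hu j).continuousAt.eventually_ne (u0 j)] with s a b c j
    simp only [Polynomial.map_sum, Polynomial.map_mul, Polynomial.map_prod, Polynomial.map_sub,
      map_C, map_X, eval_finsetSum, eval_mul, eval_prod, eval_sub, eval_C, eval_X, ev_apply]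
    rw [Finset.sum_eq_single j (fun i _ hi => mul_eq_zero_of_right _ (Finset.prod_eq_zero
      (Finset.mem_erase.2 ⟨hi.symm, Finset.mem_univ j⟩) (sub_self _))) (by simp), a, b, hd j]
    have := c j
    simp only [B, sub_zero, smul_eq_mul]
    field_simp
    ring

end Pool.Agent.P.MP_56563a_an.D1

namespace Pool.Agent.P.MP_56563a_an.D1

open Filter Topology Set Polynomial

theorem p_CON (hDESC : S_DESC) (hLAG : S_LAG) :
    S_CON := by
  intro X _ S x m e γ t w h
  have han : ∀ j, AnalyticAt ℂ (fun s => w (γ j s)) 0 := fun j => (h.arc j).an h.hw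
  obtain ⟨k, hk⟩ := hLAG m (fun j s => w (γ j s)) han h.sep
  refine ⟨k, fun ψ hψ hv => ?_⟩
  obtain ⟨Λ, hdeg, h0, hΛ⟩ := hk (fun j s => ψ (γ j s)) hv
  have he : e ≠ 0 := by have := h.pos; omega
  have hdist : ∀ᶠ s in 𝓝 (0 : ℂ), ∀ i j, s ≠ 0 → w (γ i s) = w (γ j s) → i = j := by
    refine eventually_all.2 fun i => eventually_all.2 fun j => ?_
    by_cases hij : i = j
    · exact .of_forall fun _ _ _ => hij
    · have := ((han i).eventually_eq_or_eventually_ne (han j)).resolve_left (h.sep i j hij)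
      filter_upwards [eventually_nhdsWithin_iff.1 this] with s hs h1 h2
      exact absurd h2 (hs h1)
  have t1 : Tendsto (fun q : ℂ × ℂ => q.1) (𝓝 0) (𝓝 0) := continuous_fst.tendsto 0
  have t2 : Tendsto (fun q : ℂ × ℂ => q.2) (𝓝 0) (𝓝 0) := continuous_snd.tendsto 0
  have hcov : ∀ᶠ q in 𝓝 (0 : ℂ × ℂ), ∀ j, t (γ j q.1) = q.2 ^ e →
      γ j q.1 = x ∨ ∃ i, γ j q.1 = γ i q.2 :=
    eventually_all.2 fun j => (((h.arc j).tendsto.comp t1).prodMk_nhds t2).eventually h.cov
  have hdm : ∀ s, (Λ.map (ev s)).degree < (Finset.univ : Finset (Fin m)).card := fun s => by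
    rw [Finset.card_univ, Fintype.card_fin]
    exact degree_map_le.trans_lt hdeg
  have hsym : ∀ᶠ q in 𝓝 (0 : ℂ × ℂ), q.1 ≠ 0 → q.1 ^ e = q.2 ^ e →
      Λ.map (ev q.1) = Λ.map (ev q.2) := by
    filter_upwards [hcov, t1.eventually hdist, t1.eventually hΛ, t2.eventually hΛ,
      t1.eventually (eventually_all.2 h.par)] with q c1 c2 c3 c4 c5 q0 qe
    refine Polynomial.eq_of_degrees_lt_of_eval_index_eq Finset.univ (v := fun j => w (γ j q.1))
      (fun i _ j _ hij => c2 i j q0 hij) (hdm _) (hdm _) fun j _ => ?_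
    rcases c1 j ((c5 j).trans qe) with hx | ⟨i, hi⟩
    · have := c5 j
      rw [hx, h.t0] at this
      exact absurd this.symm (pow_ne_zero _ q0)
    · rw [c3 j, hi, c4 i]
  have hd : ∀ i : ℕ, ∃ a : ℂ → ℂ, AnalyticAt ℂ a 0 ∧
      ∀ᶠ s in 𝓝 (0 : ℂ), (Λ.coeff i).1 s = a (s ^ e) := fun i =>
    hDESC (Λ.coeff i).1 e h.pos (An.an _) (hsym.mono fun q hq q0 qe => by
      have := congrArg (fun P => P.coeff i) (hq q0 qe)
      simpa only [coeff_map, ev_apply] using this)
  choose a ha1 ha2 using hd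
  have ha0 : ∀ i, a i 0 = 0 := fun i => by
    have h1 := (ha2 i).self_of_nhds
    have h2 := congrArg (fun P => P.coeff i) h0
    simp only [coeff_map, ev_apply, coeff_zero] at h2
    rw [zero_pow he, h2] at h1
    exact h1.symm
  have hol : S.Hol (fun y => ∑ i ∈ Finset.range (m + 1), a i (t y) * w y ^ i) x :=
    CSpace.hol_sum _ fun i _ => CSpace.hol_mul
      (CSpace.hol_comp h.ht (by rw [h.t0]; exact ha1 i)) (CSpace.hol_pow h.hw i)
  have hs : Tendsto (fun y => t y ^ ((e : ℂ)⁻¹)) (𝓝 x) (𝓝 0) := by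
    have hre : 0 < ((e : ℂ)⁻¹).re := by
      rw [← Complex.ofReal_natCast, ← Complex.ofReal_inv, Complex.ofReal_re]
      exact inv_pos.2 (by exact_mod_cast Nat.pos_of_ne_zero he)
    have h1 := (Complex.continuousAt_cpow_const_of_re_pos (z := 0) (Or.inl le_rfl) hre).tendsto
    rw [Complex.zero_cpow (inv_ne_zero (by exact_mod_cast he))] at h1
    have h2 := (CSpace.hol_cont h.ht).tendsto
    rw [h.t0] at h2
    exact h1.comp h2
  refine CSpace.hol_congr hol ?_
  filter_upwards [(tendsto_id.prodMk_nhds hs).eventually h.cov, hs.eventually hΛ,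
    hs.eventually ((eventually_all_finset (Finset.range (m + 1))).2 fun i _ => ha2 i)]
    with y c1 c2 c3
  have hy : (t y ^ ((e : ℂ)⁻¹)) ^ e = t y := Complex.cpow_nat_inv_pow _ he
  rcases c1 hy.symm with hx | ⟨j, hj⟩
  · have hx' : y = x := hx
    rw [hx', hψ, h.t0]
    exact Finset.sum_eq_zero fun i _ => by rw [ha0, zero_mul]
  · have hj' : y = γ j (t y ^ ((e : ℂ)⁻¹)) := hj
    have h1 := c2 j
    rw [← hj', eval_eq_sum_range' (n := m + 1) (Nat.lt_succ_of_le (natDegree_le_of_degree_le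
      (degree_map_le.trans hdeg.le)))] at h1
    rw [← h1]
    refine Finset.sum_congr rfl fun i hi => ?_
    rw [coeff_map, ev_apply, c3 i hi, hy]

end Pool.Agent.P.MP_56563a_an.D1

namespace Pool.Agent.P.MP_56563a_an.D1

open Filter Topology Set Polynomial

theorem LDx.div {g : ℂ → ℂ} (hg : AnalyticAt ℂ g 0) :
    ∃ ν : ℕ, ∀ (k : ℕ) (f : ℂ → ℂ), VanAt (k + 1 + ν) f → VanAt k fun s => f s / g s := by
  by_cases h : ∀ᶠ s in 𝓝 (0 : ℂ), g s = 0
  · exact ⟨0, fun k f _ => (VanAt.zero k).congr (h.mono fun s hs => by rw [hs, div_zero])⟩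
  obtain ⟨n, u, h1, h2, h3⟩ := hg.exists_eventuallyEq_pow_smul_nonzero_iff.2 h
  refine ⟨n, fun k f ⟨β, b1, b2⟩ => ⟨fun s => s * β s / u s,
    (analyticAt_id.fun_mul b1).fun_div h1 h2, ?_⟩⟩
  filter_upwards [h3, b2] with s e1 e2
  rw [e1, e2, sub_zero, smul_eq_mul]
  by_cases hs : s = 0
  · simp [hs]
  · rw [show s ^ (k + 1 + n) * β s = s ^ n * (s ^ k * (s * β s)) by ring,
      mul_div_mul_left _ _ (pow_ne_zero n hs), mul_div_assoc]

theorem p_LD (hARCS : S_ARCS) (hCON : S_CON) :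
    S_LD := by
  intro X _ S x hx
  obtain ⟨m, e, γ, t, w, h⟩ := hARCS X S x hx
  obtain ⟨k, hk⟩ := hCON X S x m e γ t w h
  refine ⟨m, γ, h.arc, fun b hb => ?_⟩
  choose ν hν using fun j => LDx.div ((h.arc j).an hb)
  refine ⟨k + 1 + ∑ j, ν j, fun φ hφ => ?_⟩
  have h1 := hk (fun y => φ y / b y - φ x / b x) (sub_self _) fun j => by
    have h0 : φ x = 0 := by
      have := (hφ j).at_zero (by omega)
      rwa [(h.arc j).1] at this
    refine (hν j k _ ((hφ j).mono (Nat.add_le_add_left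
      (Finset.single_le_sum (fun _ _ => Nat.zero_le _) (Finset.mem_univ j)) _))).congr
      (.of_forall fun s => ?_)
    rw [h0, zero_div, sub_zero]
  exact CSpace.hol_congr (CSpace.hol_add h1 (S.hol_const (φ x / b x) x))
    (.of_forall fun y => sub_add_cancel _ _)

end Pool.Agent.P.MP_56563a_an.D1

namespace Pool.Agent.P.MP_56563a_an.D1

open Filter Topology Set Polynomial

theorem p_DISC (hLD : S_LD) :
    S_DISC := by
  intro X _ S x hd b hb
  obtain ⟨m, γ, hγ, H⟩ := hLD X S x hd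
  obtain ⟨k, hk⟩ := H b hb
  obtain ⟨n, U, z, hx, h⟩ := S.exists_chart x
  have hz : ∀ i, ∀ y ∈ U, S.Hol (fun u => z u i - z x i) y := fun i y hy =>
    CSpace.hol_sub (h.hol_comp hy (an_coord i _)) (S.hol_const _ y)
  have h1 : ∀ i, S.Hol (fun y => (z y i - z x i) ^ k / b y) x := fun i =>
    hk _ fun j => VanAt.pow ((hγ j).an (hz i x hx)) (by rw [(hγ j).1, sub_self]) k
  have h2 := eventually_all.2 fun i => CSpace.hol_eventually (h1 i)
  filter_upwards [nhdsWithin_le_nhds h2, nhdsWithin_le_nhds (CSpace.hol_eventually hb),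
    nhdsWithin_le_nhds (h.isOpen.mem_nhds hx), self_mem_nhdsWithin] with y a1 a2 a3 a4
  refine or_iff_not_imp_left.2 fun e => ?_
  rw [not_not] at e
  obtain ⟨i, hi⟩ := Function.ne_iff.1 fun e' => a4 (h.injOn a3 hx e')
  have c := CSpace.hol_cont (CSpace.hol_sub (CSpace.hol_pow (hz i y a3) k)
    (CSpace.hol_mul a2 (a1 i)))
  filter_upwards [c.eventually_ne (y := 0) (by
    rw [e, zero_mul, sub_zero]; exact pow_ne_zero k (sub_ne_zero.2 hi))] with u hu
  by_contra hc
  exact hu (by rw [mul_div_cancel₀ _ hc, sub_self])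

end Pool.Agent.P.MP_56563a_an.D1

namespace Pool.Agent.P.MP_56563a_an.D1

open Filter Topology Set Polynomial

theorem p_ALIM :
    S_ALIM := by
  intro X _ S x γ f g hγ hf hl
  obtain ⟨U, hU, oU, h0⟩ := eventually_nhds_iff.1 hγ.2
  have h1 : TendstoLocallyUniformlyOn (fun n => fun s => f n (γ s)) (fun s => g (γ s)) atTop U :=
    (tendstoLocallyUniformlyOn_univ.2 hl).comp γ (mapsTo_univ _ _)
      fun s hs => (hU s hs).1.continuousWithinAt
  have h2 : ∀ n, DifferentiableOn ℂ (fun s => f n (γ s)) U := fun n s hs =>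
    ((hU s hs).2 (f n) (hf n _)).differentiableAt.differentiableWithinAt
  have h3 : ∀ i, (∀ n, DifferentiableOn ℂ (iteratedDeriv i fun s => f n (γ s)) U) ∧
      TendstoLocallyUniformlyOn (fun n => iteratedDeriv i fun s => f n (γ s))
        (iteratedDeriv i fun s => g (γ s)) atTop U := by
    intro i
    induction i with
    | zero => simpa only [iteratedDeriv_zero] using ⟨h2, h1⟩
    | succ i ih =>
      simp only [iteratedDeriv_succ]
      exact ⟨fun n => (ih.1 n).deriv oU, ih.2.deriv (.of_forall ih.1) oU⟩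
  exact ⟨(h1.differentiableOn (.of_forall h2) oU).analyticAt (oU.mem_nhds h0),
    fun i => (h3 i).2.tendsto_at h0⟩

end Pool.Agent.P.MP_56563a_an.D1

namespace Pool.Agent.P.MP_56563a_an.D1

open Filter Topology Set Polynomial

theorem p_LIM (hLD : S_LD) (hALIM : S_ALIM) :
    S_LIM := by
  intro X _ S x hx f g hf hg
  obtain ⟨m, γ, hγ, h⟩ := hLD X S x hx
  obtain ⟨k, hk⟩ := h (fun _ => 1) (S.hol_const 1 x)
  let jet : (X → ℂ) → Fin m × Fin k → ℂ := fun F p => iteratedDeriv p.2 (fun s => F (γ p.1 s)) 0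
  let W : Submodule ℂ (Fin m × Fin k → ℂ) :=
    { carrier := {v | ∃ F, S.Hol F x ∧ jet F = v}
      zero_mem' := ⟨fun _ => 0, S.hol_const 0 x, funext fun p => iteratedDeriv_fun_const_zero⟩
      add_mem' := by
        rintro _ _ ⟨F, hF, rfl⟩ ⟨G, hG, rfl⟩
        exact ⟨_, CSpace.hol_add hF hG, funext fun p =>
          iteratedDeriv_add ((hγ p.1).an hF).contDiffAt ((hγ p.1).an hG).contDiffAt⟩
      smul_mem' := by
        rintro c _ ⟨F, hF, rfl⟩
        exact ⟨_, CSpace.hol_mul (S.hol_const c x) hF, funext fun p =>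
          iteratedDeriv_const_mul_field c _⟩ }
  have ht : Tendsto (fun n => jet (f n)) atTop (𝓝 (jet g)) :=
    tendsto_pi_nhds.2 fun p => (hALIM X S x (γ p.1) f g (hγ p.1) hf hg).2 p.2
  have hm : jet g ∈ (W : Set (Fin m × Fin k → ℂ)) :=
    W.closed_of_finiteDimensional.mem_of_tendsto ht (.of_forall fun n => ⟨f n, hf n x, rfl⟩)
  obtain ⟨F, hF, e⟩ := hm
  have hv := hk (fun y => g y - F y) fun j => by
    have a1 := (hALIM X S x (γ j) f g (hγ j) hf hg).1
    have a2 := (hγ j).an hF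
    refine (VanAt.iff_deriv (a1.fun_sub a2)).2 fun i hi => ?_
    exact (iteratedDeriv_sub a1.contDiffAt a2.contDiffAt).trans
      (sub_eq_zero.2 (congrFun e (j, ⟨i, hi⟩)).symm)
  exact CSpace.hol_congr (CSpace.hol_add hF hv) (.of_forall fun y => by simp)

end Pool.Agent.P.MP_56563a_an.D1

namespace Pool.Agent.P.MP_56563a_an.D1

open Filter Topology Set Polynomial

theorem p_LC :
    S_LC := by
  intro X _ S
  refine ⟨fun x => ?_⟩
  obtain ⟨n, U, z, hx, h⟩ := S.exists_chart x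
  obtain ⟨m, g, h1, h2⟩ := h.eqs x hx
  obtain ⟨ε, e0, he⟩ := Metric.nhds_basis_closedBall.eventually_iff.1
    (h2.and (eventually_all.2 fun j => (h1 j).eventually_analyticAt))
  refine ⟨Subtype.val '' ((fun u : U => z u) ⁻¹' Metric.closedBall (z x) ε),
    IsCompact.image ?_ continuous_subtype_val, ?_⟩
  · rw [h.emb.isCompact_iff]
    have e : (fun u : U => z u) '' ((fun u : U => z u) ⁻¹' Metric.closedBall (z x) ε) =
        Metric.closedBall (z x) ε ∩ (fun w j => g j w) ⁻¹' {0} := by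
      ext w
      constructor
      · rintro ⟨u, hu, rfl⟩
        exact ⟨hu, funext ((he hu).1.1 ⟨u, u.2, rfl⟩)⟩
      · rintro ⟨a, b⟩
        obtain ⟨u, hu, rfl⟩ := (he a).1.2 (congrFun b)
        exact ⟨⟨u, hu⟩, a, rfl⟩
    rw [e]
    refine (isCompact_closedBall (z x) ε).of_isClosed_subset ?_ inter_subset_left
    exact ContinuousOn.preimage_isClosed_of_isClosed
      (continuousOn_pi.2 fun j w hw => ((he hw).2 j).continuousAt.continuousWithinAt)
      Metric.isClosed_closedBall isClosed_singleton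
  · filter_upwards [h.isOpen.mem_nhds hx,
      (h.continuousAt hx).eventually (Metric.closedBall_mem_nhds _ e0)] with y a b
    exact ⟨⟨y, a⟩, b, rfl⟩

end Pool.Agent.P.MP_56563a_an.D1

namespace Pool.Agent.P.MP_56563a_an.D1

open Filter Topology Set Polynomial

namespace FS1x

open CSpace

variable {X : Type} [TopologicalSpace X] {S : CSpace X}

theorem peak {K : Set X} {p : X} (hp : p ∉ S.hull K) :
    ∃ (g : X → ℂ) (θ : ℝ), S.Holo g ∧ g p = 1 ∧ 0 ≤ θ ∧ θ < 1 ∧ ∀ y ∈ K, ‖g y‖ ≤ θ := by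
  rcases K.eq_empty_or_nonempty with rfl | ⟨y₀, hy₀⟩
  · exact ⟨fun _ => 1, 0, S.hol_const 1, rfl, le_rfl, one_pos, by simp⟩
  simp only [hull, mem_ofPred_eq, not_forall, not_le] at hp
  obtain ⟨f, hf, C, h1, h2⟩ := hp
  have h3 : 0 ≤ C := (norm_nonneg _).trans (h1 y₀ hy₀)
  have h4 : 0 < ‖f p‖ := h3.trans_lt h2
  have h5 : f p ≠ 0 := norm_pos_iff.1 h4
  refine ⟨fun y => f y / f p, C / ‖f p‖, fun x => hol_div (hf x) (S.hol_const _ x) h5,
    div_self h5, div_nonneg h3 h4.le, (div_lt_one h4).2 h2, fun y hy => ?_⟩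
  rw [norm_div]
  exact div_le_div_of_nonneg_right (h1 y hy) h4.le

theorem sepf (hS : S.IsStein) (T : Finset X) (p : X) :
    ∃ σ : X → ℂ, S.Holo σ ∧ σ p = 1 ∧ ∀ q ∈ T, q ≠ p → σ q = 0 := by
  classical
  induction T using Finset.induction_on with
  | empty => exact ⟨fun _ => 1, S.hol_const 1, rfl, by simp⟩
  | insert a T _ ih =>
    obtain ⟨σ, h1, h2, h3⟩ := ih
    by_cases e : a = p
    · refine ⟨σ, h1, h2, fun q hq hne => ?_⟩
      rcases Finset.mem_insert.1 hq with rfl | hq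
      · exact absurd e hne
      · exact h3 q hq hne
    obtain ⟨f, hf, hne⟩ := hS.1 p a (Ne.symm e)
    have h0 : f p - f a ≠ 0 := sub_ne_zero.2 hne
    refine ⟨fun y => σ y * ((f y - f a) / (f p - f a)), fun x => hol_mul (h1 x)
      (hol_div (hol_sub (hf x) (S.hol_const _ x)) (S.hol_const _ x) h0), ?_, fun q hq hq' => ?_⟩
    · simp only [h2, div_self h0, one_mul]
    · rcases Finset.mem_insert.1 hq with rfl | hq
      · simp
      · simp only [h3 q hq hq', zero_mul]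

theorem small (k : ℕ) {η : ℝ} (hη : 0 < η) :
    ∃ δ : ℝ, 0 < δ ∧ ∀ w : ℂ, ‖w‖ < δ → ‖1 - (1 - w) ^ k‖ < η := by
  have c : ContinuousAt (fun w : ℂ => 1 - (1 - w) ^ k) 0 := by fun_prop
  obtain ⟨δ, h1, h2⟩ := Metric.continuousAt_iff.1 c η hη
  refine ⟨δ, h1, fun w hw => ?_⟩
  simpa using h2 (x := w) (by simpa using hw)

end FS1x

open CSpace FS1x in
theorem p_FS1 :
    S_FS1 := by
  intro X _ S hS K T p ψ k ε hK hε hψ hp
  obtain ⟨g, θ, hg, g1, t0, t1, gK⟩ := peak hp
  obtain ⟨σ, hσ, s1, s0⟩ := sepf hS T p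
  obtain ⟨A, hA⟩ := hK.exists_bound_of_continuousOn hψ.continuous.continuousOn
  obtain ⟨B, hB⟩ := hK.exists_bound_of_continuousOn
    (f := fun y => σ y ^ k) (hσ.continuous.pow k).continuousOn
  have pA : 0 < |A| + 1 := by positivity
  have pB : 0 < |B| + 1 := by positivity
  obtain ⟨δ, d0, hδ⟩ := small k (div_pos hε pA)
  obtain ⟨M, hM⟩ := exists_pow_lt_of_lt_one (div_pos d0 pB) t1
  have hu : S.Holo fun y => σ y ^ k * g y ^ M := fun x =>
    hol_mul (hol_pow (hσ x) k) (hol_pow (hg x) M)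
  have hv : S.Holo fun y => 1 - σ y ^ k * g y ^ M := fun x => hol_sub (S.hol_const 1 x) (hu x)
  refine ⟨fun y => ψ y * (1 - (1 - σ y ^ k * g y ^ M) ^ k), fun x =>
    hol_mul (hψ x) (hol_sub (S.hol_const 1 x) (hol_pow (hv x) k)), fun y hy => ?_,
    fun γ hγ => ?_, fun q hq hne γ hγ => ?_⟩
  · have a1 : ‖σ y ^ k * g y ^ M‖ < δ := by
      rw [norm_mul, norm_pow (g y)]
      have b1 : ‖σ y ^ k‖ ≤ |B| + 1 := (hB y hy).trans ((le_abs_self B).trans (by linarith))
      have b2 : ‖g y‖ ^ M ≤ θ ^ M := pow_le_pow_left₀ (norm_nonneg _) (gK y hy) M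
      have b3 := (lt_div_iff₀' pB).1 hM
      exact (mul_le_mul b1 b2 (by positivity) pB.le).trans_lt b3
    have a2 := (hδ _ a1).le
    have a3 : ‖ψ y‖ ≤ |A| + 1 := (hA y hy).trans ((le_abs_self A).trans (by linarith))
    rw [norm_mul]
    refine (mul_le_mul a3 a2 (norm_nonneg _) pA.le).trans (le_of_eq ?_)
    field_simp
  · have a1 := VanAt.pow (hγ.an (hv p)) (by simp [hγ.1, s1, g1]) k
    exact (VanAt.an_mul (hγ.an (hψ p)) a1).neg.congr (.of_forall fun s => by ring)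
  · have a1 := VanAt.pow (hγ.an (hσ q)) (by rw [hγ.1, s0 q hq hne]) k
    have a2 : S.Hol (fun y => ψ y * g y ^ M *
        ∑ i ∈ Finset.range k, (1 - σ y ^ k * g y ^ M) ^ i) q :=
      hol_mul (hol_mul (hψ q) (hol_pow (hg q) M)) (hol_sum _ fun i _ => hol_pow (hv q) i)
    refine (a1.mul_an (hγ.an a2)).congr (.of_forall fun s => ?_)
    beta_reduce
    rw [← mul_neg_geom_sum (1 - σ (γ s) ^ k * g (γ s) ^ M) k]
    generalize ∑ i ∈ Finset.range k, (1 - σ (γ s) ^ k * g (γ s) ^ M) ^ i = c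
    ring

end Pool.Agent.P.MP_56563a_an.D1

namespace Pool.Agent.P.MP_56563a_an.D1

open Filter Topology Set Polynomial

theorem p_FS (hFS1 : S_FS1) :
    S_FS := by
  intro X _ S hS K T ψ k ε hK hT hε hψ h0
  classical
  have hc : (0 : ℝ) < (hT.toFinset.card : ℝ) + 1 := by positivity
  have key : ∀ p ∈ hT.toFinset, ∃ h, S.Holo h ∧
      (∀ y ∈ K, ‖h y‖ ≤ ε / ((hT.toFinset.card : ℝ) + 1)) ∧
      S.Van (hT.toFinset.sup k) (fun y => h y - ψ p y) p ∧
      ∀ q ∈ hT.toFinset, q ≠ p → S.Van (hT.toFinset.sup k) h q := by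
    intro p hp
    by_cases hh : p ∈ S.hull K
    · refine ⟨fun _ => 0, fun x => S.hol_const 0 x, fun y _ => by simpa using by positivity,
        fun γ _ => ?_, fun q _ _ γ _ => VanAt.zero _⟩
      rw [h0 p (hT.mem_toFinset.1 hp) hh]
      simpa using VanAt.zero _
    · exact hFS1 X S hS K hT.toFinset p (ψ p) _ _ hK (by positivity) (hψ p) hh
  choose! h h1 h2 h3 h4 using key
  refine ⟨fun y => ∑ p ∈ hT.toFinset, h p y, fun x => CSpace.hol_sum _ fun p hp => h1 p hp x,
    fun y hy => ?_, fun p hp γ hγ => ?_⟩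
  · refine (norm_sum_le _ _).trans ((Finset.sum_le_sum fun p hp => h2 p hp y hy).trans ?_)
    rw [Finset.sum_const, nsmul_eq_mul, ← mul_div_assoc, div_le_iff₀ hc]
    nlinarith
  · have hp' := hT.mem_toFinset.2 hp
    refine (((h3 p hp' γ hγ).add (VanAt.sum (hT.toFinset.erase p) fun q hq =>
      h4 q (Finset.mem_of_mem_erase hq) p hp' (Finset.ne_of_mem_erase hq).symm γ hγ)).mono
      (Finset.le_sup (f := k) hp')).congr (.of_forall fun s => ?_)
    simp only [← Finset.add_sum_erase _ _ hp']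
    ring

end Pool.Agent.P.MP_56563a_an.D1

namespace Pool.Agent.P.MP_56563a_an.D1

open Filter Topology Set Polynomial

namespace INTERPx

open CSpace

variable {X : Type} [TopologicalSpace X] {S : CSpace X}

theorem fin {D C : Set X} (hD : ∀ x, ∀ᶠ y in 𝓝[≠] x, y ∉ D) (hC : IsCompact C) :
    (D ∩ C).Finite := by
  obtain ⟨t, -, ht⟩ := hC.elim_nhds_subcover (fun x => {y | y ∈ ({x}ᶜ : Set X) → y ∉ D})
    fun x _ => eventually_nhdsWithin_iff.1 (hD x)
  refine t.finite_toSet.subset fun y hy => ?_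
  obtain ⟨x, hx, h⟩ := mem_iUnion₂.1 (ht hy.2)
  obtain rfl : y = x := by
    by_contra e
    exact h e hy.1
  exact hx

theorem step (hFS : S_FS) (hS : S.IsStein) {D : Set X} {k : X → ℕ} {ψ : X → X → ℂ}
    (hD : ∀ x, ∀ᶠ y in 𝓝[≠] x, y ∉ D) (hψ : ∀ p, S.Holo (ψ p)) {K K' : Set X} (hK : IsCompact K)
    (hK' : IsCompact K') {ε : ℝ} (hε : 0 < ε) {h : X → ℂ} (h1 : S.Holo h)
    (h2 : ∀ p ∈ D ∩ S.hull K, S.Van (k p) (fun y => h y - ψ p y) p) :
    ∃ u, S.Holo u ∧ (∀ y ∈ K, ‖u y‖ ≤ ε) ∧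
      ∀ p ∈ D ∩ S.hull K', S.Van (k p) (fun y => h y + u y - ψ p y) p := by
  classical
  obtain ⟨u, a1, a2, a3⟩ := hFS X S hS K (D ∩ S.hull K')
    (fun p => if p ∈ S.hull K then fun _ => 0 else fun y => ψ p y - h y) k ε hK
    (fin hD (hS.2 _ hK')) hε (fun p => by
      split_ifs
      · exact S.hol_const 0
      · exact fun x => hol_sub (hψ p x) (h1 x)) fun p _ hp => if_pos hp
  refine ⟨u, a1, a2, fun p hp γ hγ => ?_⟩
  have a4 := a3 p hp γ hγ
  by_cases c : p ∈ S.hull K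
  · simp only [if_pos c] at a4
    exact ((h2 p ⟨hp.1, c⟩ γ hγ).add a4).congr (.of_forall fun s => by ring)
  · simp only [if_neg c] at a4
    exact a4.congr (.of_forall fun s => by ring)

end INTERPx

open CSpace INTERPx in
theorem p_INTERP (hLC : S_LC) (hFS : S_FS) (hALIM : S_ALIM) (hLIM : S_LIM) :
    S_INTERP := by
  intro X _ _ _ S hS hd D k ψ hD hψ
  have := hLC X S
  let K := (CompactExhaustion.choice X).shiftr
  have key : ∀ (n : ℕ) (h : X → ℂ),
      S.Holo h ∧ (∀ p ∈ D ∩ S.hull (K n), S.Van (k p) (fun y => h y - ψ p y) p) →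
      ∃ u, S.Holo u ∧ (∀ y ∈ K n, ‖u y‖ ≤ (1 / 2) ^ n) ∧
        ∀ p ∈ D ∩ S.hull (K (n + 1)), S.Van (k p) (fun y => h y + u y - ψ p y) p :=
    fun n h a => step hFS hS hD hψ (K.isCompact n) (K.isCompact (n + 1)) (by positivity) a.1 a.2
  choose! F hF using key
  let H : ℕ → X → ℂ := fun n => Nat.rec (fun _ => 0) (fun n h y => h y + F n h y) n
  have hH : ∀ n, S.Holo (H n) ∧
      ∀ p ∈ D ∩ S.hull (K n), S.Van (k p) (fun y => H n y - ψ p y) p := by
    intro n
    induction n with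
    | zero =>
      refine ⟨S.hol_const 0, fun p hp => absurd (hp.2 _ (S.hol_const 0) (-1) ?_) (by simp)⟩
      exact fun y hy => hy.elim
    | succ n ih => exact ⟨fun x => hol_add (ih.1 x) ((hF n _ ih).1 x), (hF n _ ih).2.2⟩
  have e : H = fun n y => ∑ i ∈ Finset.range n, F i (H i) y := by
    funext n y
    induction n with
    | zero => rfl
    | succ n ih => rw [Finset.sum_range_succ, ← ih]
  have lim : TendstoLocallyUniformly H (fun y => ∑' i, F i (H i) y) atTop := by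
    refine tendstoLocallyUniformly_of_forall_exists_nhds fun x => ?_
    obtain ⟨m, hm⟩ := K.exists_mem_nhds x
    have := tendstoUniformlyOn_tsum_nat_eventually (f := fun i => F i (H i)) (s := K m)
      summable_geometric_two ((eventually_ge_atTop m).mono fun n hn y hy =>
        (hF n _ (hH n)).2.1 y (K.subset hn hy))
    rw [← e] at this
    exact ⟨_, hm, this⟩
  refine ⟨_, fun x => hLIM X S x (hd x) H _ (fun n => (hH n).1) lim, fun p hp γ hγ => ?_⟩
  have c : TendstoLocallyUniformly (fun _ : ℕ => ψ p) (ψ p) atTop :=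
    fun U hU x => ⟨univ, univ_mem, .of_forall fun _ y _ => refl_mem_uniformity hU⟩
  obtain ⟨a1, a2⟩ := hALIM X S p γ (fun n y => H n y - ψ p y)
    (fun y => ∑' i, F i (H i) y - ψ p y) hγ (fun n x => hol_sub ((hH n).1 x) (hψ p x)) (lim.sub c)
  refine (VanAt.iff_deriv a1).2 fun i hi => tendsto_nhds_unique (a2 i) ?_
  obtain ⟨m, hm⟩ := K.exists_mem p
  refine tendsto_const_nhds.congr' ((eventually_ge_atTop m).mono fun n hn => ?_)
  have v := (hH n).2 p ⟨hp, fun f _ C hC => hC p (K.subset hn hm)⟩ γ hγ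
  exact ((VanAt.iff_deriv v.an).1 v i hi).symm

end Pool.Agent.P.MP_56563a_an.D1

namespace Pool.Agent.P.MP_56563a_an.D1

open Filter Topology Set Polynomial

theorem p_LOG :
    S_LOG := by
  intro c k hc
  let f : ℂ → ℂ := fun z => Complex.log (1 + z / c) + Complex.log c
  have hf : AnalyticAt ℂ f 0 := by
    refine AnalyticAt.fun_add (AnalyticAt.clog (by fun_prop) ?_) analyticAt_const
    simp
  have he : ∀ w, w ≠ 0 → Complex.exp (f (w - c)) = w := fun w hw => by
    have h1 : 1 + (w - c) / c = w / c := by field_simp; ring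
    simp only [f]
    rw [Complex.exp_add, h1, Complex.exp_log (div_ne_zero hw hc), Complex.exp_log hc]
    field_simp
  obtain ⟨F, hF, e⟩ := hf.exists_eq_sum_add_pow_mul (k + 1)
  refine ⟨fun w => ∑ i ∈ Finset.range (k + 1),
    ((w - c) ^ i / i.factorial) • iteratedDeriv i f 0, fun w => by fun_prop,
    fun a h ha h0 hv => ?_⟩
  have hu : AnalyticAt ℂ (fun s => a s - c) 0 := ha.fun_sub analyticAt_const
  have u0 : (fun s => a s - c) 0 = 0 := by simp [h0]
  have hFu : AnalyticAt ℂ (fun s => F (a s - c)) 0 := hF.comp_of_eq hu u0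
  have hd : VanAt (k + 1) fun s => h s - f (a s - c) := by
    refine (hv.sub ((VanAt.pow hu u0 (k + 1)).mul_an hFu)).congr (.of_forall fun s => ?_)
    rw [e (a s - c), smul_eq_mul]
    ring
  have d0 := hd.at_zero (by omega)
  have hD : AnalyticAt ℂ (fun s => dslope Complex.exp 0 (h s - f (a s - c))) 0 :=
    (an_dslope analyticAt_cexp).comp_of_eq hd.an d0
  refine (VanAt.an_mul ha (hd.mul_an hD)).congr ?_
  have hne : ∀ᶠ s in 𝓝 (0 : ℂ), a s ≠ 0 := ha.continuousAt.eventually_ne (by rw [h0]; exact hc)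
  filter_upwards [hne] with s hs
  have h1 := sub_smul_dslope Complex.exp 0 (h s - f (a s - c))
  rw [sub_zero, smul_eq_mul, Complex.exp_zero] at h1
  rw [h1, Complex.exp_sub, he _ hs]
  field_simp

end Pool.Agent.P.MP_56563a_an.D1

namespace Pool.Agent.P.MP_56563a_an.D1

open Filter Topology Set Polynomial

theorem p_SR1 (hLD : S_LD) (hDISC : S_DISC) (hINTERP : S_INTERP) (hLOG : S_LOG) :
    S_SR1 := by
  intro X _ _ _ S hS hdim a b ha hb hab
  choose m γ hγ hk using fun x => hLD X S x (hdim x)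
  choose k hk using fun x => hk x b (hb x)
  have hQ : ∀ p : X, ∃ Q : ℂ → ℂ, (∀ w, AnalyticAt ℂ Q w) ∧ (a p ≠ 0 →
      ∀ a' h : ℂ → ℂ, AnalyticAt ℂ a' 0 → a' 0 = a p →
        VanAt (k p + 1) (fun s => h s - Q (a' s)) →
        VanAt (k p + 1) fun s => Complex.exp (h s) - a' s) := by
    intro p
    by_cases h0 : a p = 0
    · exact ⟨fun _ => 0, fun _ => analyticAt_const, fun h => absurd h0 h⟩
    · obtain ⟨Q, h1, h2⟩ := hLOG (a p) (k p) h0
      exact ⟨Q, h1, fun _ => h2⟩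
  choose Q hQ1 hQ2 using hQ
  obtain ⟨h, hh, hv⟩ := hINTERP X S hS hdim {x | b x = 0 ∧ ¬ ∀ᶠ y in 𝓝 x, b y = 0}
    (fun p => k p + 1) (fun p y => Q p (a y))
    (fun x => (hDISC X S x (hdim x) b (hb x)).mono fun y hy hD =>
      hy.elim (fun e => e hD.1) hD.2)
    (fun p x => CSpace.hol_comp (ha x) (hQ1 p _))
  have hexp : ∀ x, S.Hol (fun y => Complex.exp (h y) - a y) x := fun x =>
    CSpace.hol_sub (CSpace.hol_comp (hh x) analyticAt_cexp) (ha x)
  refine ⟨fun y => (Complex.exp (h y) - a y) / b y, fun x => ?_, fun x => ?_⟩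
  · by_cases h0 : b x = 0
    · by_cases h1 : ∀ᶠ y in 𝓝 x, b y = 0
      · exact CSpace.hol_congr (S.hol_const 0 x) (h1.mono fun y hy => by rw [hy, div_zero])
      · refine hk x (fun y => Complex.exp (h y) - a y) fun j => ?_
        have ha0 : a x ≠ 0 := (hab x).resolve_right fun e => e h0
        refine (hQ2 x ha0 (fun s => a (γ x j s)) (fun s => h (γ x j s))
          ((hγ x j).an (ha x)) (by rw [(hγ x j).1]) ?_).mono (Nat.le_succ _)
        exact hv x ⟨h0, h1⟩ (γ x j) (hγ x j)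
    · exact CSpace.hol_div (hexp x) (hb x) h0
  · by_cases h0 : b x = 0
    · rw [h0, zero_mul, add_zero]
      exact (hab x).resolve_right fun e => e h0
    · rw [mul_div_cancel₀ _ h0, add_sub_cancel]
      exact Complex.exp_ne_zero _

end Pool.Agent.P.MP_56563a_an.D1
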