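import Pool.Agent.P.MP_56563a_an.D1.Iface
import Pool.Agent.P.MP_56563a_an.D1.SCV

/-! Steps SIX UP EXS AN1 EXU EXD LOW. -/

set_option autoImplicit false
set_option linter.unusedSectionVars false
set_option linter.unusedVariables false

namespace Pool.Agent.P.MP_56563a_an.D1

namespace SIXx

open Matrix

variable {R : Type} [CommRing R]

/-- Lower elementary block matrix. -/
def Lo (x : Matrix (Fin 2) (Fin 2) R) : Matrix (Fin 2 ⊕ Fin 2) (Fin 2 ⊕ Fin 2) R :=
  fromBlocks 1 0 x 1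

/-- Upper elementary block matrix. -/
def Up (x : Matrix (Fin 2) (Fin 2) R) : Matrix (Fin 2 ⊕ Fin 2) (Fin 2 ⊕ Fin 2) R :=
  fromBlocks 1 x 0 1

theorem Lo_mem {x : Matrix (Fin 2) (Fin 2) R} (h : xᵀ = x) : Lo x ∈ symplecticGroup (Fin 2) R := by
  rw [Lo, SymplecticGroup.fromBlocks_mem_iff]
  simp [h]

theorem Up_mem {x : Matrix (Fin 2) (Fin 2) R} (h : xᵀ = x) : Up x ∈ symplecticGroup (Fin 2) R := by
  rw [Up, SymplecticGroup.fromBlocks_mem_iff]
  simp [h]

theorem Lo_mul_neg (x : Matrix (Fin 2) (Fin 2) R) : Lo x * Lo (-x) = 1 := by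
  simp [Lo, fromBlocks_multiply]

theorem Lo_neg_mul (x : Matrix (Fin 2) (Fin 2) R) : Lo (-x) * Lo x = 1 := by
  simp [Lo, fromBlocks_multiply]

theorem Up_mul_neg (x : Matrix (Fin 2) (Fin 2) R) : Up x * Up (-x) = 1 := by
  simp [Up, fromBlocks_multiply]

theorem exists_U {x : Matrix (Fin 2) (Fin 2) R} (h : xᵀ = x) : ∃ y : Fin 3 → R, U y = x := by
  refine ⟨![x 0 0, x 0 1, x 1 1], ?_⟩
  have h10 : x 0 1 = x 1 0 := congrFun (congrFun h 1) 0
  ext i j
  fin_cases i <;> fin_cases j <;> simp [U, h10]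

theorem rel_T {A B C D : Matrix (Fin 2) (Fin 2) R}
    (h : fromBlocks A B C D ∈ symplecticGroup (Fin 2) R) :
    A * Bᵀ = B * Aᵀ ∧ C * Dᵀ = D * Cᵀ ∧ A * Dᵀ - B * Cᵀ = 1 := by
  have h' := SymplecticGroup.transpose_mem h
  rw [fromBlocks_transpose, SymplecticGroup.fromBlocks_mem_iff] at h'
  simpa using h'

/-- Three factors when the lower left block is symmetric and invertible. -/
theorem three {A B C D : Matrix (Fin 2) (Fin 2) R}
    (h : fromBlocks A B C D ∈ symplecticGroup (Fin 2) R) (hC : Cᵀ = C) (hu : IsUnit C.det) :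
    ∃ b d : Matrix (Fin 2) (Fin 2) R, bᵀ = b ∧ dᵀ = d ∧
      fromBlocks A B C D = Up b * Lo C * Up d := by
  obtain ⟨h1, -, h3⟩ := SymplecticGroup.fromBlocks_mem_iff.1 h
  obtain ⟨-, h5, -⟩ := rel_T h
  rw [hC] at h1 h3 h5
  have i1 : C * C⁻¹ = 1 := mul_nonsing_inv C hu
  have i2 : C⁻¹ * C = 1 := nonsing_inv_mul C hu
  have i3 : (C⁻¹)ᵀ = C⁻¹ := by rw [transpose_nonsing_inv, hC]
  set E := C⁻¹
  have j1 : E * Aᵀ = A * E := by
    calc E * Aᵀ = E * (Aᵀ * C) * E := by rw [Matrix.mul_assoc, Matrix.mul_assoc, i1, Matrix.mul_one]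
      _ = A * E := by rw [h1, ← Matrix.mul_assoc, i2, Matrix.one_mul]
  have j2 : Dᵀ * E = E * D := by
    calc Dᵀ * E = E * (C * Dᵀ) * E := by rw [← Matrix.mul_assoc, i2, Matrix.one_mul]
      _ = E * D := by rw [h5, Matrix.mul_assoc, Matrix.mul_assoc, i1, Matrix.mul_one]
  have j3 : B = A * E * D - E := by
    calc B = E * (C * B) := by rw [← Matrix.mul_assoc, i2, Matrix.one_mul]
      _ = E * (Aᵀ * D - 1) := by rw [← h3]; congr 1; abel
      _ = A * E * D - E := by rw [Matrix.mul_sub, ← Matrix.mul_assoc, j1, Matrix.mul_one]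
  refine ⟨A * E - E, E * D - E, ?_, ?_, ?_⟩
  · rw [transpose_sub, transpose_mul, i3, j1]
  · rw [transpose_sub, transpose_mul, i3, j2]
  · have k1 : (A * E - E) * C = A - 1 := by
      rw [Matrix.sub_mul, Matrix.mul_assoc, i2, Matrix.mul_one]
    have k2 : C * (E * D - E) = D - 1 := by
      rw [Matrix.mul_sub, ← Matrix.mul_assoc, i1, Matrix.one_mul]
    simp only [Up, Lo, fromBlocks_multiply, Matrix.one_mul, Matrix.mul_one, Matrix.zero_mul,
      Matrix.mul_zero, add_zero, zero_add, k1, k2]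
    rw [fromBlocks_inj]
    refine ⟨by abel, ?_, rfl, by abel⟩
    rw [j3]
    noncomm_ring

variable (sr : ∀ a b : R, IsCoprime a b → ∃ t : R, IsUnit (a + b * t))
include sr

/-- Five factors when the upper right block is invertible. -/
theorem five {A B C D : Matrix (Fin 2) (Fin 2) R}
    (h : fromBlocks A B C D ∈ symplecticGroup (Fin 2) R) (hu : IsUnit B.det) :
    ∃ a b c d e : Matrix (Fin 2) (Fin 2) R, aᵀ = a ∧ bᵀ = b ∧ cᵀ = c ∧ dᵀ = d ∧ eᵀ = e ∧
      fromBlocks A B C D = Lo a * (Up b * Lo c * Up d) * Lo e := by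
  obtain ⟨-, h2, h3⟩ := SymplecticGroup.fromBlocks_mem_iff.1 h
  obtain ⟨h4, -, -⟩ := rel_T h
  have i1 : B * B⁻¹ = 1 := mul_nonsing_inv B hu
  have i2 : B⁻¹ * B = 1 := nonsing_inv_mul B hu
  set E := B⁻¹
  have i3 : Eᵀ * Bᵀ = 1 := by rw [← transpose_mul, i1, transpose_one]
  have i4 : Bᵀ * Eᵀ = 1 := by rw [← transpose_mul, i2, transpose_one]
  have j1 : (D * E)ᵀ = D * E := by
    calc (D * E)ᵀ = Eᵀ * (Dᵀ * B) * E := by
          rw [transpose_mul, Matrix.mul_assoc, Matrix.mul_assoc, i1, Matrix.mul_one]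
      _ = D * E := by rw [← h2, ← Matrix.mul_assoc, i3, Matrix.one_mul]
  have j2 : (E * A)ᵀ = E * A := by
    calc (E * A)ᵀ = E * (B * Aᵀ) * Eᵀ := by
          rw [transpose_mul, ← Matrix.mul_assoc, i2, Matrix.one_mul]
      _ = E * A := by rw [← h4, Matrix.mul_assoc, Matrix.mul_assoc, i4, Matrix.mul_one]
  have j3 : C = D * E * A - Eᵀ := by
    have : Cᵀ = Aᵀ * (D * E) - E := by
      calc Cᵀ = (Cᵀ * B) * E := by rw [Matrix.mul_assoc, i1, Matrix.mul_one]
        _ = (Aᵀ * D - 1) * E := by rw [← h3]; congr 1; abel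
        _ = Aᵀ * (D * E) - E := by rw [Matrix.sub_mul, Matrix.mul_assoc, Matrix.one_mul]
    have h' := congrArg transpose this
    rwa [transpose_transpose, transpose_sub, transpose_mul, j1, transpose_transpose] at h'
  have e00 : B 0 0 * E 0 0 + B 0 1 * E 1 0 = 1 := by
    have := congrFun (congrFun i1 0) 0
    simpa [Matrix.mul_apply, Fin.sum_univ_two] using this
  have e11 : B 1 0 * E 0 1 + B 1 1 * E 1 1 = 1 := by
    have := congrFun (congrFun i1 1) 1
    simpa [Matrix.mul_apply, Fin.sum_univ_two] using this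
  have hcop : IsCoprime (E 0 1 ^ 2) (E 1 1) := IsCoprime.pow_left ⟨B 1 0, B 1 1, e11⟩
  obtain ⟨t, ht⟩ := sr _ _ hcop
  let r1 : R := t + E 0 0
  let r2 : R := E 1 0 - E 0 1
  let s : R := B 0 0 * r1 + B 0 1 * r2
  let a' : Matrix (Fin 2) (Fin 2) R := !![1, 0; 0, 0]
  let e' : Matrix (Fin 2) (Fin 2) R :=
    !![2 * E 0 0 * r1 - s * E 0 0 ^ 2, E 0 0 * r2 + E 1 0 * r1 - s * E 0 0 * E 1 0;
       E 0 0 * r2 + E 1 0 * r1 - s * E 0 0 * E 1 0, 2 * E 1 0 * r2 - s * E 1 0 ^ 2]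
  have ha' : a'ᵀ = a' := by ext i j; fin_cases i <;> fin_cases j <;> rfl
  have he' : e'ᵀ = e' := by ext i j; fin_cases i <;> fin_cases j <;> rfl
  let c : Matrix (Fin 2) (Fin 2) R := !![t, -E 0 1; -E 0 1, -E 1 1]
  have hc : cᵀ = c := by ext i j; fin_cases i <;> fin_cases j <;> rfl
  have hcdet : IsUnit c.det := by
    have : c.det = -(E 0 1 ^ 2 + E 1 1 * t) := by simp [c, det_fin_two]; ring
    rw [this]; exact ht.neg
  have hc' : a' * B * e' - Eᵀ = c := by
    ext i j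
    fin_cases i <;> fin_cases j <;>
      simp only [a', e', c, Matrix.sub_apply, Matrix.mul_apply, Fin.sum_univ_two,
        Matrix.transpose_apply] <;> simp
    · simp only [s, r1, r2]
      linear_combination (t + E 0 0 - (B 0 0 * (t + E 0 0) + B 0 1 * (E 1 0 - E 0 1)) * E 0 0) * e00
    · simp only [s, r1, r2]
      linear_combination
        (E 1 0 - E 0 1 - (B 0 0 * (t + E 0 0) + B 0 1 * (E 1 0 - E 0 1)) * E 1 0) * e00
  have ha : (D * E + a')ᵀ = D * E + a' := by rw [transpose_add, j1, ha']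
  have he : (E * A + e')ᵀ = E * A + e' := by rw [transpose_add, j2, he']
  have hmem : Lo (-(D * E + a')) * fromBlocks A B C D * Lo (-(E * A + e')) ∈
      symplecticGroup (Fin 2) R :=
    Submonoid.mul_mem _ (Submonoid.mul_mem _ (Lo_mem (by rw [transpose_neg, ha])) h)
      (Lo_mem (by rw [transpose_neg, he]))
  have hblock : Lo (-(D * E + a')) * fromBlocks A B C D * Lo (-(E * A + e')) =
      fromBlocks (-(B * e')) B c (-(a' * B)) := by
    have k1 : B * (E * A) = A := by rw [← Matrix.mul_assoc, i1, Matrix.one_mul]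
    have k2 : D * E * B = D := by rw [Matrix.mul_assoc, i2, Matrix.mul_one]
    have k3 : -(D * E + a') * B + D = -(a' * B) := by
      rw [Matrix.neg_mul, Matrix.add_mul, k2]; abel
    simp only [Lo, fromBlocks_multiply, Matrix.one_mul, Matrix.mul_one, Matrix.zero_mul,
      Matrix.mul_zero, add_zero, zero_add, k3]
    rw [fromBlocks_inj]
    refine ⟨?_, rfl, ?_, rfl⟩
    · rw [Matrix.mul_neg, Matrix.mul_add, k1]; abel
    · rw [← hc', j3]
      have : -(a' * B) * -(E * A + e') = a' * A + a' * B * e' := by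
        rw [Matrix.neg_mul, Matrix.mul_neg, neg_neg, Matrix.mul_add, Matrix.mul_assoc a' B (E * A),
          k1]
      rw [this]
      noncomm_ring
  rw [hblock] at hmem
  obtain ⟨b, d, hb, hd, hbd⟩ := three hmem hc hcdet
  refine ⟨_, b, c, d, _, ha, hb, hc, hd, he, ?_⟩
  rw [← hbd, ← hblock]
  simp only [← Matrix.mul_assoc]
  rw [Lo_mul_neg, Matrix.one_mul, Matrix.mul_assoc, Lo_neg_mul, Matrix.mul_one]

/-- The first row of the upper right block can be made unimodular. -/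
theorem stage1 {A B C D : Matrix (Fin 2) (Fin 2) R}
    (h : fromBlocks A B C D ∈ symplecticGroup (Fin 2) R) :
    ∃ g : Matrix (Fin 2) (Fin 2) R, gᵀ = g ∧ IsCoprime ((A * g + B) 0 0) ((A * g + B) 0 1) := by
  obtain ⟨-, -, h6⟩ := rel_T h
  have r00 : A 0 0 * D 0 0 + A 0 1 * D 0 1 - (B 0 0 * C 0 0 + B 0 1 * C 0 1) = 1 := by
    have := congrFun (congrFun h6 0) 0
    simpa [Matrix.mul_apply, Fin.sum_univ_two] using this
  obtain ⟨t, u, hu⟩ := sr (B 0 0) (A 0 0 * D 0 0 + A 0 1 * D 0 1 - B 0 1 * C 0 1)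
    ⟨-C 0 0, 1, by linear_combination r00⟩
  refine ⟨!![D 0 0 * t + D 0 1 * C 0 1 * t ^ 2, D 0 1 * t; D 0 1 * t, 0], ?_, ?_⟩
  · ext i j; fin_cases i <;> fin_cases j <;> rfl
  · refine ⟨u.inv, -(C 0 1 * t) * u.inv, ?_⟩
    have hinv : u.inv * u.val = 1 := u.inv_val
    rw [hu] at hinv
    simp only [Matrix.add_apply, Matrix.mul_apply, Fin.sum_univ_two]
    simp
    simp only [Units.inv_eq_val_inv] at hinv
    linear_combination hinv

/-- Then the whole upper right block can be made invertible. -/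
theorem stage2 {A B C D : Matrix (Fin 2) (Fin 2) R}
    (h : fromBlocks A B C D ∈ symplecticGroup (Fin 2) R) (hc : IsCoprime (B 0 0) (B 0 1)) :
    ∃ g : Matrix (Fin 2) (Fin 2) R, gᵀ = g ∧ IsUnit (A * g + B).det := by
  obtain ⟨h4, -, h6⟩ := rel_T h
  obtain ⟨x, y, hxy⟩ := hc
  have s : A 0 0 * B 1 0 + A 0 1 * B 1 1 = B 0 0 * A 1 0 + B 0 1 * A 1 1 := by
    have := congrFun (congrFun h4 0) 1
    simpa [Matrix.mul_apply, Fin.sum_univ_two] using this
  have r01 : A 0 0 * D 1 0 + A 0 1 * D 1 1 - (B 0 0 * C 1 0 + B 0 1 * C 1 1) = 0 := by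
    have := congrFun (congrFun h6 0) 1
    simpa [Matrix.mul_apply, Fin.sum_univ_two] using this
  have r11 : A 1 0 * D 1 0 + A 1 1 * D 1 1 - (B 1 0 * C 1 0 + B 1 1 * C 1 1) = 1 := by
    have := congrFun (congrFun h6 1) 1
    simpa [Matrix.mul_apply, Fin.sum_univ_two] using this
  obtain ⟨t, ht⟩ := sr (B 0 0 * B 1 1 - B 0 1 * B 1 0)
    ((-A 1 0 * y + A 1 1 * x) - (B 1 0 * x + B 1 1 * y) * (-A 0 0 * y + A 0 1 * x))
    ⟨(-A 0 0 * y + A 0 1 * x) * (D 1 0 * x + D 1 1 * y) - (-C 1 0 * y + C 1 1 * x),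
      -D 1 0 * B 0 1 + D 1 1 * B 0 0, by grind⟩
  refine ⟨!![t * y ^ 2, -(t * x * y); -(t * x * y), t * x ^ 2], ?_, ?_⟩
  · ext i j; fin_cases i <;> fin_cases j <;> rfl
  · refine (congrArg IsUnit ?_).mp ht
    symm
    simp only [det_fin_two, Matrix.add_apply, Matrix.mul_apply, Fin.sum_univ_two]
    simp
    grind

theorem six (f : Matrix (Fin 2 ⊕ Fin 2) (Fin 2 ⊕ Fin 2) R) (hf : f ∈ symplecticGroup (Fin 2) R) :
    ∃ a b c d e g : Matrix (Fin 2) (Fin 2) R, aᵀ = a ∧ bᵀ = b ∧ cᵀ = c ∧ dᵀ = d ∧ eᵀ = e ∧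
      gᵀ = g ∧ f = Lo a * (Up b * Lo c * Up d) * Lo e * Up g := by
  rw [← fromBlocks_toBlocks f] at hf ⊢
  set A := f.toBlocks₁₁
  set B := f.toBlocks₁₂
  set C := f.toBlocks₂₁
  set D := f.toBlocks₂₂
  have mulUp : ∀ (A B C D g : Matrix (Fin 2) (Fin 2) R),
      fromBlocks A B C D * Up g = fromBlocks A (A * g + B) C (C * g + D) := by
    intro A B C D g
    simp [Up, fromBlocks_multiply]
  obtain ⟨g1, hg1, hcop⟩ := stage1 sr hf
  have m1 := Submonoid.mul_mem _ hf (Up_mem hg1)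
  rw [mulUp] at m1
  obtain ⟨g2, hg2, hdet⟩ := stage2 sr m1 hcop
  have hg : (g1 + g2)ᵀ = g1 + g2 := by rw [transpose_add, hg1, hg2]
  have m2 := Submonoid.mul_mem _ hf (Up_mem hg)
  have e : A * g2 + (A * g1 + B) = A * (g1 + g2) + B := by noncomm_ring
  rw [e] at hdet
  have m3 := m2
  rw [mulUp] at m3
  obtain ⟨a, b, c, d, e, ha, hb, hc, hd, he, hp⟩ := five sr m3 hdet
  refine ⟨a, b, c, d, e, -(g1 + g2), ha, hb, hc, hd, he, by rw [transpose_neg, hg], ?_⟩
  rw [← hp, ← mulUp, Matrix.mul_assoc, Up_mul_neg, Matrix.mul_one]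

end SIXx

open SIXx in
theorem p_SIX :
    S_SIX := by
  intro R _ sr f hf
  obtain ⟨a, b, c, d, e, g, ha, hb, hc, hd, he, hg, h⟩ := six sr f hf
  obtain ⟨a, rfl⟩ := exists_U ha
  obtain ⟨b, rfl⟩ := exists_U hb
  obtain ⟨c, rfl⟩ := exists_U hc
  obtain ⟨d, rfl⟩ := exists_U hd
  obtain ⟨e, rfl⟩ := exists_U he
  obtain ⟨g, rfl⟩ := exists_U hg
  refine ⟨![a, b, c, d, e, g], ?_⟩
  rw [h]
  simp [List.ofFn_succ, M, Lo, Up, Matrix.mul_assoc]

end Pool.Agent.P.MP_56563a_an.D1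

namespace Pool.Agent.P.MP_56563a_an.D1

open Filter Topology Set Polynomial

namespace UPx

variable {X : Type} [TopologicalSpace X]

/-- The ring of global holomorphic functions. -/
def O (S : CSpace X) : Subring (X → ℂ) where
  carrier := {f | S.Holo f}
  zero_mem' := fun x => S.hol_const 0 x
  one_mem' := fun x => S.hol_const 1 x
  add_mem' := fun hf hg x => CSpace.hol_add (hf x) (hg x)
  mul_mem' := fun hf hg x => CSpace.hol_mul (hf x) (hg x)
  neg_mem' := fun hf x => CSpace.hol_neg (hf x)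

/-- Evaluation at a point. -/
def evO (S : CSpace X) (x : X) : O S →+* ℂ := (Pi.evalRingHom (fun _ => ℂ) x).comp (O S).subtype

theorem map_M {R R' : Type} [CommRing R] [CommRing R'] (φ : R →+* R') (k : ℕ) (v : Fin 3 → R) :
    φ.mapMatrix (M k v) = M k fun i => φ (v i) := by
  unfold M
  split_ifs <;> ext i j <;> rcases i with i | i <;> rcases j with j | j <;> fin_cases i <;>
    fin_cases j <;> simp [U]

end UPx

open UPx in
theorem p_UP (hSR1 : S_SR1) (hSIX : S_SIX) :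
    S_UP := by
  intro X _ _ _ S hS hd f hf _
  have hk : ∀ x, Ring.KrullDimLE 1 (S.stalk x) := fun x =>
    Ring.krullDimLE_iff.2 (hd ▸ le_iSup (fun x => ringKrullDim (S.stalk x)) x)
  have sr : ∀ a b : O S, IsCoprime a b → ∃ t : O S, IsUnit (a + b * t) := by
    rintro a b ⟨u, v, h⟩
    obtain ⟨c, h1, h2⟩ := hSR1 X S hS hk a.1 b.1 a.2 b.2 fun x => by
      by_contra hx
      push Not at hx
      have := congrArg (evO S x) h
      simp only [map_add, map_mul, map_one] at this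
      change evO S x u * a.1 x + evO S x v * b.1 x = 1 at this
      rw [hx.1, hx.2] at this
      simp at this
    refine ⟨⟨c, h1⟩, IsUnit.of_mul_eq_one ⟨fun x => 1 / (a.1 x + b.1 x * c x), fun x =>
      CSpace.hol_div (S.hol_const 1 x)
        (CSpace.hol_add (a.2 x) (CSpace.hol_mul (b.2 x) (h1 x))) (h2 x)⟩ ?_⟩
    ext x
    exact mul_one_div_cancel (h2 x)
  let A : Matrix (Fin 2 ⊕ Fin 2) (Fin 2 ⊕ Fin 2) (O S) :=
    Matrix.of fun i j => ⟨fun x => (f x).1 i j, hf i j⟩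
  have hA : ∀ x, (evO S x).mapMatrix A = (f x).1 := fun x => rfl
  have hJ : ∀ x, (evO S x).mapMatrix (Matrix.J (Fin 2) (O S)) = Matrix.J (Fin 2) ℂ := fun x => by
    ext i j
    rcases i with i | i <;> rcases j with j | j <;> fin_cases i <;> fin_cases j <;>
      simp [Matrix.J]
  have hm : A ∈ Matrix.symplecticGroup (Fin 2) (O S) := by
    rw [SymplecticGroup.mem_iff]
    ext i j x
    have h1 := SymplecticGroup.mem_iff.1 (f x).2
    have h2 : (evO S x).mapMatrix (A * Matrix.J (Fin 2) (O S) * A.transpose) =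
        (evO S x).mapMatrix (Matrix.J (Fin 2) (O S)) := by
      rw [map_mul, map_mul, hJ, hA, ← h1]
      congr 1
      rw [h1]
    exact congrFun (congrFun h2 i) j
  obtain ⟨G, hG⟩ := hSIX (O S) sr A hm
  refine ⟨fun k x i => (G k i).1 x, fun k i => (G k i).2, fun x => ?_⟩
  rw [← hA, hG, map_list_prod, List.map_ofFn]
  congr 2
  funext k
  exact map_M (evO S x) _ _

end Pool.Agent.P.MP_56563a_an.D1

namespace Pool.Agent.P.MP_56563a_an.D1

open Filter Topology Set Polynomial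

namespace EXSx

theorem coord (i : Fin 2) : SY.Holo fun y => y.1 i := fun y =>
  ⟨fun z => z i, an_coord i _, EventuallyEq.rfl⟩

end EXSx

theorem p_EXS :
    S_EXS := by
  refine ⟨fun x y h => ?_, fun K hK => ?_⟩
  · obtain ⟨i, hi⟩ := Function.ne_iff.1 fun e => h (Subtype.ext e)
    exact ⟨_, EXSx.coord i, hi⟩
  · obtain ⟨C, hC⟩ := (hK.image continuous_subtype_val).isBounded.exists_norm_le
    have hcl : IsClosed {z : Fin 2 → ℂ | z 0 * z 1 * (z 0 - z 1) = 0} :=
      isClosed_eq (by fun_prop) continuous_const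
    refine (hcl.isClosedEmbedding_subtypeVal.isCompact_preimage
      (isCompact_closedBall 0 (max C 0))).of_isClosed_subset ?_ fun x hx => ?_
    · simp only [CSpace.hull, setOf_forall]
      exact isClosed_iInter fun f => isClosed_iInter fun hf => isClosed_iInter fun c =>
        isClosed_iInter fun _ => isClosed_le hf.continuous.norm continuous_const
    · refine mem_closedBall_zero_iff.2 ((pi_norm_le_iff_of_nonneg (le_max_right _ _)).2 fun i =>
        hx _ (EXSx.coord i) _ fun y hy => ?_)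
      exact (norm_le_pi_norm y.1 i).trans ((hC _ ⟨y, hy, rfl⟩).trans (le_max_left _ _))

end Pool.Agent.P.MP_56563a_an.D1

namespace Pool.Agent.P.MP_56563a_an.D1

open Filter Topology Set Polynomial

theorem p_AN1 :
    S_AN1 := by
  intro B _ φ hφ h0 hu
  refine Ring.krullDimLE_one_iff.2 fun I hI => or_iff_not_imp_left.2 fun hm => ?_
  obtain ⟨J, hJ, hJI⟩ : ∃ J : Ideal B, J.IsPrime ∧ J < I := by
    by_contra c
    exact hm ⟨⟨hI, bot_le⟩, fun J hJ e => by
      by_contra d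
      exact c ⟨J, hJ.1, lt_of_le_not_ge e d⟩⟩
  let := φ.toAlgebra
  obtain ⟨e, x, x1, x2⟩ := SetLike.lt_iff_le_and_exists.1 hJI
  obtain ⟨-, F, F1, F2⟩ := SetLike.lt_iff_le_and_exists.1
    (Ideal.comap_lt_comap_of_integral_mem_sdiff (R := An ℂ) e ⟨x1, x2⟩ (hφ x))
  replace F1 : φ F ∈ I := F1
  obtain ⟨k, u, u1, u2, u3⟩ := (An.an F).exists_eventuallyEq_pow_smul_nonzero_iff.2 fun c =>
    F2 (show φ F ∈ J from h0 F c ▸ J.zero_mem)
  let s : An ℂ := ⟨id, analyticAt_id⟩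
  have a1 : φ (F - s ^ k * ⟨u, u1⟩) = 0 := h0 _ (u3.mono fun z hz => by
    show F.1 z - z ^ k * u z = 0
    rw [hz, sub_zero, smul_eq_mul, sub_self])
  rw [map_sub, sub_eq_zero, map_mul, map_pow] at a1
  have a2 : φ s ∈ I := hI.mem_of_pow_mem k
    ((Ideal.mul_unit_mem_iff_mem I (hu ⟨u, u1⟩ u2)).1 (a1 ▸ F1))
  refine Ideal.isMaximal_of_isIntegral_of_isMaximal_comap' φ hφ I ?_
  have a3 : (RingHom.ker (ev (0 : ℂ))).IsMaximal :=
    RingHom.ker_isMaximal_of_surjective _ fun c => ⟨⟨fun _ => c, analyticAt_const⟩, rfl⟩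
  refine a3.eq_of_le (Ideal.comap_ne_top φ hI.1) (fun G hG => ?_) ▸ a3
  have a4 : G = s * ⟨dslope G.1 0, an_dslope (An.an G)⟩ := Subtype.ext (funext fun z => by
    have := sub_smul_dslope G.1 0 z
    rw [show G.1 0 = 0 from hG, sub_zero, sub_zero] at this
    exact this.symm)
  rw [Ideal.mem_comap, a4, map_mul]
  exact I.mul_mem_right _ a2

end Pool.Agent.P.MP_56563a_an.D1

namespace Pool.Agent.P.MP_56563a_an.D1

open Filter Topology Set Polynomial

namespace EXUx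

theorem int_cod {A B : Type} [CommRing A] [CommRing B] (φ : A →+* B) (R : Subring B)
    (h : ∀ a, φ a ∈ R) (r : R) (hr : φ.IsIntegralElem r.1) :
    (φ.codRestrict R h).IsIntegralElem r := by
  obtain ⟨p, hp, e⟩ := hr
  refine ⟨p, hp, Subtype.ext ?_⟩
  have h1 := Polynomial.hom_eval₂ p (φ.codRestrict R h) R.subtype r
  have h2 : R.subtype.comp (φ.codRestrict R h) = φ := RingHom.ext fun _ => rfl
  rw [h2] at h1
  exact h1.trans e

theorem cubic (a b : ℂ) :
    ¬ ∀ᶠ ζ in 𝓝 (0 : ℂ), (a + ζ) * (b + 0 - ζ) * ((a + ζ) - (b + 0 - ζ)) = 0 := by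
  intro h
  refine infinite_of_mem_nhds (0 : ℂ) h ?_
  refine (Set.toFinite ({-a, b, (b - a) / 2} : Set ℂ)).subset ?_
  intro ζ hζ
  simp only [mem_ofPred_eq, mul_eq_zero] at hζ
  simp only [mem_insert_iff, mem_singleton_iff]
  rcases hζ with (h1 | h1) | h1
  · left; linear_combination h1
  · right; left; linear_combination -h1
  · right; right; linear_combination h1 / 2

/-- The linear coordinates centred at `y`. -/
def w (y u : Y) : ℂ × ℂ := (u.1 0 - y.1 0, u.1 0 + u.1 1 - (y.1 0 + y.1 1))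

/-- The inverse change of coordinates. -/
def iv (y : Y) (p : ℂ × ℂ) : Fin 2 → ℂ := ![y.1 0 + p.1, y.1 1 + p.2 - p.1]

theorem iv_w (y u : Y) : iv y (w y u) = u.1 := by
  funext i
  fin_cases i
  · simp [iv, w]
  · simp only [iv, w, Fin.mk_one, Matrix.cons_val_one, Matrix.cons_val_fin_one]
    ring

theorem iv_zero (y : Y) : iv y 0 = y.1 := by
  funext i
  fin_cases i <;> simp [iv]

theorem iv_an (y : Y) : AnalyticAt ℂ (iv y) 0 := by
  refine analyticAt_pi_iff.2 fun i => ?_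
  fin_cases i
  · exact analyticAt_const.fun_add analyticAt_fst
  · exact (analyticAt_const.fun_add analyticAt_snd).fun_sub analyticAt_fst

theorem w_self (y : Y) : w y y = 0 := by simp [w]

theorem w_cont (y : Y) : Continuous (w y) := by
  have h : ∀ i, Continuous fun u : Y => u.1 i :=
    fun i => (continuous_apply i).comp continuous_subtype_val
  exact ((h 0).sub continuous_const).prodMk (((h 0).add (h 1)).sub continuous_const)

theorem w_tend (y : Y) : Tendsto (w y) (𝓝 y) (𝓝 0) := by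
  have := (w_cont y).tendsto y
  rwa [w_self] at this

theorem t_hol (y : Y) : SY.Hol (fun u => (w y u).2) y :=
  ⟨fun z => z 0 + z 1 - (y.1 0 + y.1 1),
    ((an_coord 0 _).fun_add (an_coord 1 _)).fun_sub analyticAt_const, EventuallyEq.rfl⟩

theorem comp_hol (y : Y) (F : An ℂ) : SY.Hol (fun u => F.1 (w y u).2) y := by
  refine CSpace.hol_comp (t_hol y) ?_
  rw [w_self]
  exact F.2

end EXUx

open EXUx in
theorem p_EXU (hINT : S_INT) (hAN1 : S_AN1) :
    S_EXU := by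
  intro y
  have hm : ∀ F : An ℂ, cw (𝓝 y) (fun u => (w y u).2) F ∈ SY.stalk y :=
    fun F => ⟨_, comp_hol y F, rfl⟩
  have ht : Tendsto (fun u => (w y u).2) (𝓝 y) (𝓝 0) := (continuous_snd.tendsto _).comp (w_tend y)
  refine hAN1 _ ((cw (𝓝 y) fun u => (w y u).2).codRestrict (SY.stalk y) hm) ?_ ?_ ?_
  · rintro ⟨γ, g, ⟨F, hF, e⟩, rfl⟩
    refine int_cod _ _ hm _ ?_
    have hG : AnalyticAt ℂ (fun p => F (iv y p)) 0 := hF.comp_of_eq (iv_an y) (iv_zero y)
    have ha : AnalyticAt ℂ (fun p : ℂ × ℂ => y.1 0 + p.1) 0 :=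
      analyticAt_const.fun_add analyticAt_fst
    have hb : AnalyticAt ℂ (fun p : ℂ × ℂ => y.1 1 + p.2 - p.1) 0 :=
      (analyticAt_const.fun_add analyticAt_snd).fun_sub analyticAt_fst
    have h1 := hINT ℂ Y (𝓝 y) (w y)
      (fun p => (y.1 0 + p.1) * (y.1 1 + p.2 - p.1) * ((y.1 0 + p.1) - (y.1 1 + p.2 - p.1)))
      (w_tend y) ((ha.fun_mul hb).fun_mul (ha.fun_sub hb)) (cubic _ _) (.of_forall fun u => by
        have h2 := u.2
        simp only [w]
        linear_combination h2) ⟨_, hG⟩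
    have h3 : cw (𝓝 y) (w y) ⟨_, hG⟩ = (g : Germ (𝓝 y) ℂ) := by
      rw [cw_apply]
      refine Germ.coe_eq.2 ?_
      filter_upwards [e] with u hu
      rw [hu]
      exact congrArg F (iv_w y u)
    rw [h3] at h1
    exact h1
  · intro F hF
    refine Subtype.ext ?_
    exact Germ.coe_eq.2 (ht.eventually hF)
  · intro F hF
    have h0 : F.1 (w y y).2 ≠ 0 := by rwa [w_self]
    have h1 : SY.Hol (fun u => 1 / F.1 (w y u).2) y :=
      CSpace.hol_div (SY.hol_const 1 y) (comp_hol y F) h0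
    refine IsUnit.of_mul_eq_one ⟨_, _, h1, rfl⟩ (Subtype.ext ?_)
    refine Germ.coe_eq.2 ?_
    filter_upwards [(CSpace.hol_cont (comp_hol y F)).eventually_ne h0] with u hu
    exact mul_one_div_cancel hu

end Pool.Agent.P.MP_56563a_an.D1

namespace Pool.Agent.P.MP_56563a_an.D1

open Filter Topology Set Polynomial

namespace EXDx

theorem one_le {X : Type} [TopologicalSpace X] (S : CSpace X) (x : X) (g : X → ℂ)
    (hg : S.Hol g x) (g0 : g x = 0) (hn : ¬ ∀ᶠ y in 𝓝 x, g y = 0) :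
    1 ≤ ringKrullDim (S.stalk x) := by
  let φ : S.stalk x →+* ℂ := Germ.valueRingHom.comp (S.stalk x).subtype
  let γ : S.stalk x := ⟨g, g, hg, rfl⟩
  have h1 : ¬ IsNilpotent γ := by
    rintro ⟨n, e⟩
    have : ((g ^ n : X → ℂ) : Germ (𝓝 x) ℂ) = ((0 : X → ℂ) : Germ (𝓝 x) ℂ) := by
      rw [Germ.coe_pow]
      exact congrArg Subtype.val e
    exact hn ((Germ.coe_eq.1 this).mono fun y hy => eq_zero_of_pow_eq_zero hy)
  rw [nilpotent_iff_mem_prime] at h1
  push Not at h1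
  obtain ⟨J, hJ, h2⟩ := h1
  refine Order.one_le_krullDim_iff.2 ⟨⟨J, hJ⟩, ⟨RingHom.ker φ, RingHom.ker_isPrime φ⟩,
    lt_of_le_not_ge ?_ fun h => h2 (h (g0 : φ γ = 0))⟩
  rintro ⟨_, f, hf, rfl⟩ h
  by_contra c
  have f0 : f x ≠ 0 := c
  refine hJ.ne_top (J.eq_top_of_isUnit_mem h (IsUnit.of_mul_eq_one
    ⟨_, _, CSpace.hol_div (S.hol_const 1 x) hf f0, rfl⟩ (Subtype.ext (Germ.coe_eq.2 ?_))))
  filter_upwards [(CSpace.hol_cont hf).eventually_ne f0] with y hy
  exact mul_one_div_cancel hy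

end EXDx

theorem p_EXD (hEXU : S_EXU) :
    S_EXD := by
  refine le_antisymm (iSup_le fun y => Ring.krullDimLE_iff.1 (hEXU y)) ?_
  let l : ℂ → Y := fun t => ⟨![t, 0], by simp⟩
  have hl : Continuous l := Continuous.subtype_mk (by fun_prop) _
  refine le_iSup_of_le (l 0) (EXDx.one_le SY (l 0) (fun y => y.1 0)
    ⟨_, an_coord 0 _, EventuallyEq.rfl⟩ rfl fun h => ?_)
  have h1 : ∀ᶠ t in 𝓝[≠] (0 : ℂ), t = 0 := (hl.continuousAt.eventually h).filter_mono nhdsWithin_le_nhds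
  obtain ⟨t, h2, h3⟩ := (h1.and self_mem_nhdsWithin).exists
  exact h3 h2

end Pool.Agent.P.MP_56563a_an.D1

namespace Pool.Agent.P.MP_56563a_an.D1

namespace LOWx

open Matrix

/-- The polynomial map used as the example. -/
noncomputable def ex (z w : ℂ) : Matrix (Fin 2 ⊕ Fin 2) (Fin 2 ⊕ Fin 2) ℂ :=
  fromBlocks !![2 + z * w, -z ^ 2; w ^ 2, 2 - z * w] 0 0
    !![1 / 2 - z * w / 4, -w ^ 2 / 4; z ^ 2 / 4, 1 / 2 + z * w / 4]

theorem ex_mem (z w : ℂ) : ex z w ∈ symplecticGroup (Fin 2) ℂ := by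
  rw [SymplecticGroup.mem_iff]
  ext i j
  rcases i with i | i <;> rcases j with j | j <;> fin_cases i <;> fin_cases j <;>
    simp only [ex, J, Matrix.mul_apply, Fintype.sum_sum_type, Fin.sum_univ_two,
      Matrix.transpose_apply, fromBlocks_apply₁₁, fromBlocks_apply₁₂, fromBlocks_apply₂₁,
      fromBlocks_apply₂₂] <;> simp <;> ring

theorem ex_diff {E : Type} [NormedAddCommGroup E] [NormedSpace ℂ E] {u v : E → ℂ}
    (hu : Differentiable ℂ u) (hv : Differentiable ℂ v) (i j : Fin 2 ⊕ Fin 2) :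
    Differentiable ℂ (fun z => ex (u z) (v z) i j) := by
  rcases i with i | i <;> rcases j with j | j <;> fin_cases i <;> fin_cases j <;>
    simp [ex] <;> fun_prop

theorem key {z w : ℂ} {a b c d e : Fin 3 → ℂ}
    (h : ex z w = M 1 a * (M 2 b * (M 3 c * (M 4 d * M 5 e)))) :
    c 0 * z ^ 2 + 2 * c 1 * z * w + c 2 * w ^ 2 = 0 ∧ b 0 * c 0 + b 1 * c 1 = 1 + z * w := by
  have h1 : ex z w = fromBlocks 1 0 (U a) 1 * (fromBlocks 1 (U b) 0 1 * (fromBlocks 1 0 (U c) 1 *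
      (fromBlocks 1 (U d) 0 1 * fromBlocks 1 0 (U e) 1))) := by
    simpa [M] using h
  simp only [ex, fromBlocks_multiply, Matrix.one_mul, Matrix.mul_one, Matrix.zero_mul,
    Matrix.mul_zero, add_zero, zero_add] at h1
  obtain ⟨hA, hB, -, -⟩ := fromBlocks_inj.1 h1
  have hA' : (!![2 + z * w, -z ^ 2; w ^ 2, 2 - z * w] : Matrix (Fin 2) (Fin 2) ℂ) =
      1 + U b * U c := by
    have : 1 + U d * U e + U b * (U c * (1 + U d * U e) + U e) =
        1 + U b * U c + (U d + U b * (U c * U d + 1)) * U e := by noncomm_ring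
    rw [hA, this, ← hB]
    simp
  have e00 := congrFun (congrFun hA' 0) 0
  have e01 := congrFun (congrFun hA' 0) 1
  have e10 := congrFun (congrFun hA' 1) 0
  have e11 := congrFun (congrFun hA' 1) 1
  simp [U] at e00 e01 e10 e11
  constructor
  · linear_combination (-c 0) * e01 + c 1 * e00 - c 1 * e11 + c 2 * e10
  · linear_combination -e00

theorem no_five (G : Fin 5 → Y → Fin 3 → ℂ) (hG : ∀ k, Continuous (G k))
    (hf : ∀ x : Y, ex (x.1 0) (x.1 1) =
      (List.ofFn fun k : Fin 5 => M (k.1 + 1) (G k x)).prod) : False := by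
  have hk : ∀ x : Y, G 2 x 0 * (x.1 0) ^ 2 + 2 * G 2 x 1 * (x.1 0) * (x.1 1) +
      G 2 x 2 * (x.1 1) ^ 2 = 0 ∧ G 1 x 0 * G 2 x 0 + G 1 x 1 * G 2 x 1 = 1 + x.1 0 * x.1 1 := by
    intro x
    apply key (a := G 0 x) (d := G 3 x) (e := G 4 x)
    have := hf x
    simpa [List.ofFn_succ] using this
  have h0 : (0 : Fin 2 → ℂ) 0 * (0 : Fin 2 → ℂ) 1 * ((0 : Fin 2 → ℂ) 0 - (0 : Fin 2 → ℂ) 1) = 0 := by
    simp
  -- along a line through the origin with direction `(p, q)`
  have line : ∀ p q : ℂ, p * q * (p - q) = 0 →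
      G 2 ⟨0, h0⟩ 0 * p ^ 2 + 2 * G 2 ⟨0, h0⟩ 1 * p * q + G 2 ⟨0, h0⟩ 2 * q ^ 2 = 0 := by
    intro p q hpq
    let v : Fin 2 → ℂ := ![p, q]
    have v0 : v 0 = p := rfl
    have v1 : v 1 = q := rfl
    have hmem : ∀ t : ℂ, (t • v) 0 * (t • v) 1 * ((t • v) 0 - (t • v) 1) = 0 := by
      intro t
      simp only [Pi.smul_apply, v0, v1, smul_eq_mul]
      linear_combination t ^ 3 * hpq
    let γ : ℂ → Y := fun t => ⟨t • v, hmem t⟩
    have hγ : Continuous γ := Continuous.subtype_mk (by fun_prop) _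
    have hc : ∀ i, Continuous (fun t => G 2 (γ t) i) := fun i =>
      (continuous_apply i).comp ((hG 2).comp hγ)
    have hcont : Continuous (fun t => G 2 (γ t) 0 * p ^ 2 + 2 * G 2 (γ t) 1 * p * q +
        G 2 (γ t) 2 * q ^ 2) := by
      have := hc 0
      have := hc 1
      have := hc 2
      fun_prop
    have hz := Continuous.ext_on (dense_compl_singleton (0 : ℂ)) hcont
      (continuous_const (y := (0 : ℂ))) (by
        intro t ht
        have h1 := (hk (γ t)).1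
        simp only [γ, Pi.smul_apply, v0, v1, smul_eq_mul] at h1
        have ht2 : t ^ 2 ≠ 0 := pow_ne_zero 2 ht
        apply mul_left_cancel₀ ht2
        simp only [γ]
        linear_combination h1)
    have := congrFun hz 0
    have e : γ 0 = ⟨0, h0⟩ := Subtype.ext (by simp [γ])
    rwa [e] at this
  have a1 := line 1 0 (by simp)
  have a2 := line 0 1 (by simp)
  have a3 := line 1 1 (by simp)
  have a4 := (hk ⟨0, h0⟩).2
  simp only [Pi.zero_apply, mul_zero, add_zero] at a4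
  have c0 : G 2 ⟨0, h0⟩ 0 = 0 := by linear_combination a1
  have c1 : G 2 ⟨0, h0⟩ 1 = 0 := by linear_combination (a3 - a1 - a2) / 2
  rw [c0, c1] at a4
  simp at a4

theorem M_zero (k : ℕ) : M k (0 : Fin 3 → ℂ) = 1 := by
  have : U (0 : Fin 3 → ℂ) = 0 := by
    ext i j
    fin_cases i <;> fin_cases j <;> rfl
  unfold M
  split_ifs <;> rw [this, fromBlocks_one]

theorem pad (N : ℕ) (f : Y → Matrix (Fin 2 ⊕ Fin 2) (Fin 2 ⊕ Fin 2) ℂ)
    (h : ∃ G : Fin N → Y → Fin 3 → ℂ, (∀ k, Continuous (G k)) ∧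
      ∀ x, f x = (List.ofFn fun k : Fin N => M (k.1 + 1) (G k x)).prod) (d : ℕ) :
    ∃ G : Fin (N + d) → Y → Fin 3 → ℂ, (∀ k, Continuous (G k)) ∧
      ∀ x, f x = (List.ofFn fun k : Fin (N + d) => M (k.1 + 1) (G k x)).prod := by
  induction d with
  | zero => exact h
  | succ d ih =>
    obtain ⟨G, h1, h2⟩ := ih
    refine ⟨Fin.snoc (α := fun _ => Y → Fin 3 → ℂ) G fun _ => 0, fun k => ?_, fun x => ?_⟩
    · induction k using Fin.lastCases with
      | last => rw [Fin.snoc_last]; exact continuous_const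
      | cast k => rw [Fin.snoc_castSucc]; exact h1 k
    · rw [h2 x]
      change _ = (List.ofFn fun k : Fin (N + d + 1) => M (k.1 + 1)
        (Fin.snoc (α := fun _ => Y → Fin 3 → ℂ) G (fun _ => 0) k x)).prod
      rw [List.ofFn_succ', List.prod_concat]
      simp [M_zero]

end LOWx

open LOWx in
theorem p_LOW (hEXS : S_EXS) (hEXD : S_EXD) :
    S_LOW := by
  intro N hN
  by_contra hlt
  have hdiff : ∀ i j, Differentiable ℂ (fun z : Fin 2 → ℂ => ex (z 0) (z 1) i j) :=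
    ex_diff (by fun_prop) (by fun_prop)
  let F : C(Fin 2 → ℂ, Matrix.symplecticGroup (Fin 2) ℂ) :=
    ⟨fun z => ⟨ex (z 0) (z 1), ex_mem _ _⟩, Continuous.subtype_mk
      (continuous_matrix fun i j => (hdiff i j).continuous) _⟩
  obtain ⟨G, h1, h2⟩ := hN Y SY hEXS hEXD (F.comp ⟨Subtype.val, continuous_subtype_val⟩)
    (fun i j y => ⟨fun z => ex (z 0) (z 1) i j,
      SCV.osgood isOpen_univ (hdiff i j).differentiableOn _ (Set.mem_univ _),
      Filter.EventuallyEq.rfl⟩)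
    (((id_nullhomotopic _).comp_right F).comp_left _)
  obtain ⟨d, hd⟩ : ∃ d, N + d = 5 := ⟨5 - N, by omega⟩
  have := pad N (fun x => ex (x.1 0) (x.1 1))
    ⟨G, fun k => continuous_pi fun i => (h1 k i).continuous, h2⟩ d
  rw [hd] at this
  obtain ⟨G', h3, h4⟩ := this
  exact no_five G' h3 h4

end Pool.Agent.P.MP_56563a_an.D1
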