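import Pool.Agent.P.MP_56563a_an.D1.M1
import Pool.Agent.P.MP_56563a_an.D1.M2
import Pool.Agent.P.MP_56563a_an.D1.M3

/-! Assembly of the steps. -/

set_option autoImplicit false

namespace Pool.Agent.P.MP_56563a_an.D1

theorem q_DIV : S_DIV := p_DIV

theorem q_WD0 : S_WD0 := p_WD0 q_DIV

theorem q_NF : S_NF := p_NF

theorem q_WD : S_WD := p_WD q_WD0 q_NF

theorem q_INT : S_INT := p_INT q_WD

theorem q_CHAIN : S_CHAIN := p_CHAIN

theorem q_NORM : S_NORM := p_NORM q_INT q_CHAIN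

theorem q_PREP : S_PREP := p_PREP q_WD

theorem q_SCAL : S_SCAL := p_SCAL

theorem q_NEWT : S_NEWT := p_NEWT q_SCAL

theorem q_ROOT : S_ROOT := p_ROOT q_PREP q_NEWT

theorem q_SPLIT : S_SPLIT := p_SPLIT q_ROOT

theorem q_SEP : S_SEP := p_SEP

theorem q_CAND : S_CAND := p_CAND q_SPLIT q_SEP

theorem q_POLY : S_POLY := p_POLY q_NORM

theorem q_LIFT : S_LIFT := p_LIFT

theorem q_ARCS : S_ARCS := p_ARCS q_POLY q_CAND q_LIFT

theorem q_DESC : S_DESC := p_DESC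

theorem q_LAG : S_LAG := p_LAG

theorem q_CON : S_CON := p_CON q_DESC q_LAG

theorem q_LD : S_LD := p_LD q_ARCS q_CON

theorem q_DISC : S_DISC := p_DISC q_LD

theorem q_ALIM : S_ALIM := p_ALIM

theorem q_LIM : S_LIM := p_LIM q_LD q_ALIM

theorem q_LC : S_LC := p_LC

theorem q_FS1 : S_FS1 := p_FS1

theorem q_FS : S_FS := p_FS q_FS1

theorem q_INTERP : S_INTERP := p_INTERP q_LC q_FS q_ALIM q_LIM

theorem q_LOG : S_LOG := p_LOG

theorem q_SR1 : S_SR1 := p_SR1 q_LD q_DISC q_INTERP q_LOG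

theorem q_SIX : S_SIX := p_SIX

theorem q_UP : S_UP := p_UP q_SR1 q_SIX

theorem q_EXS : S_EXS := p_EXS

theorem q_AN1 : S_AN1 := p_AN1

theorem q_EXU : S_EXU := p_EXU q_INT q_AN1

theorem q_EXD : S_EXD := p_EXD q_EXU

theorem q_LOW : S_LOW := p_LOW q_EXS q_EXD

end Pool.Agent.P.MP_56563a_an.D1
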